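import Pool.Agent.Work.MP_aac176_nt.Low.Smooth
import Mathlib.NumberTheory.Primorial

/-!
MP_aac176_nt, lower bound: many primes `p ≤ z` such that all `p - 1` divide one number
`m₀ * primorial Y` with `Y` a small power of `z` (method of Alford, Granville and Pomerance, with the
theorem of Bombieri and Vinogradov).
-/

set_option autoImplicit false

namespace Pool.Agent.Work.MP_aac176_nt.Low

open Finset Pool.Agent.BV Pool.Agent.D3 Filter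

/-- product of the elements of `T`. -/
def dT (T : Finset ℕ) : ℕ := ∏ q ∈ T, q

theorem dT_injOn (Q : Finset ℕ) (k : ℕ) (hQ : ∀ q ∈ Q, q.Prime) :
    Set.InjOn dT (Q.powersetCard k : Set (Finset ℕ)) := by
  intro T hT U hU h
  have h1 : ∀ q ∈ T, q.Prime := fun q hq => hQ q ((mem_powersetCard.1 (mem_coe.1 hT)).1 hq)
  have h2 : ∀ q ∈ U, q.Prime := fun q hq => hQ q ((mem_powersetCard.1 (mem_coe.1 hU)).1 hq)
  have h3 := Nat.primeFactors_prod h1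
  have h4 := Nat.primeFactors_prod h2
  unfold dT at h
  rw [← h3, ← h4, h]

theorem dT_le {Q : Finset ℕ} {k Y : ℕ} (hQY : ∀ q ∈ Q, q ≤ Y) {T : Finset ℕ}
    (hT : T ∈ Q.powersetCard k) : dT T ≤ Y ^ k := by
  obtain ⟨h1, h2⟩ := mem_powersetCard.1 hT
  calc dT T ≤ ∏ _q ∈ T, Y := prod_le_prod' fun q hq => hQY q (h1 hq)
    _ = Y ^ k := by rw [prod_const, h2]

theorem le_dT {Q : Finset ℕ} {k Y : ℕ} (hQY : ∀ q ∈ Q, Y / 2 < q) {T : Finset ℕ}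
    (hT : T ∈ Q.powersetCard k) : ((Y : ℝ) / 2) ^ k ≤ dT T := by
  obtain ⟨h1, h2⟩ := mem_powersetCard.1 hT
  have h3 : ∀ q ∈ T, (Y : ℝ) / 2 ≤ q := by
    intro q hq
    have h4 : Y ≤ 2 * q := by
      have := hQY q (h1 hq)
      omega
    have h5 : (Y : ℝ) ≤ 2 * q := by exact_mod_cast h4
    linarith
  unfold dT
  push_cast
  calc ((Y : ℝ) / 2) ^ k = ∏ _q ∈ T, ((Y : ℝ) / 2) := by rw [prod_const, h2]
    _ ≤ ∏ q ∈ T, (q : ℝ) := prod_le_prod (fun q _ => by positivity) h3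

/-- the pigeonhole argument. -/
theorem agp_core (Q : Finset ℕ) (k Y z : ℕ) (hQ : ∀ q ∈ Q, q.Prime) (hQY : ∀ q ∈ Q, q ≤ Y)
    (hQY2 : ∀ q ∈ Q, Y / 2 < q) (hY : 2 ≤ Y) (hYz : ((Y : ℝ) / 2) ^ k ≤ z) :
    ∃ m₀ : ℕ, 1 ≤ m₀ ∧ m₀ ≤ z ∧ ∃ P : Finset ℕ,
      ((∑ T ∈ Q.powersetCard k, (pr (dT T) (z / 2) z).card : ℕ) : ℝ) * ((Y : ℝ) / 2) ^ k / z ≤
        P.card ∧
      ∀ p ∈ P, z / 2 < p ∧ p ≤ z ∧ p.Prime ∧ p - 1 ∣ m₀ * primorial Y := by
  classical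
  set S := ∑ T ∈ Q.powersetCard k, (pr (dT T) (z / 2) z).card with hS
  have hYR : (2 : ℝ) ≤ Y := by exact_mod_cast hY
  have hY1 : (1 : ℝ) ≤ ((Y : ℝ) / 2) ^ k := one_le_pow₀ (by linarith)
  have hz0 : (0 : ℝ) < z := by linarith
  set M := ⌊(z : ℝ) / ((Y : ℝ) / 2) ^ k⌋₊ with hM
  have hMle : (M : ℝ) ≤ (z : ℝ) / ((Y : ℝ) / 2) ^ k := Nat.floor_le (by positivity)
  have hM1 : 1 ≤ M := by
    refine Nat.le_floor ?_
    rw [Nat.cast_one, le_div_iff₀ (by positivity)]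
    linarith
  have hMz : M ≤ z := by
    have h1 : (M : ℝ) ≤ z := hMle.trans (div_le_self hz0.le hY1)
    exact_mod_cast h1
  have hMR : (0 : ℝ) < M := by exact_mod_cast hM1
  set A := (Q.powersetCard k).sigma fun T => pr (dT T) (z / 2) z with hA
  have hAc : A.card = S := card_sigma _ _
  have hfacts : ∀ x ∈ A, x.1 ∈ Q.powersetCard k ∧ z / 2 < x.2 ∧ x.2 ≤ z ∧ x.2.Prime ∧
      x.2 - 1 = (x.2 - 1) / dT x.1 * dT x.1 ∧ 0 < dT x.1 := by
    intro x hx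
    obtain ⟨h1, h2⟩ := mem_sigma.1 hx
    rw [pr, mem_filter, mem_Ioc] at h2
    obtain ⟨⟨h3, h4⟩, h5, h6⟩ := h2
    have h7 : dT x.1 ∣ x.2 - 1 := (Nat.modEq_iff_dvd' h5.one_le).1 h6.symm
    have h8 : 0 < dT x.1 := by
      unfold dT
      exact Nat.pos_of_ne_zero (prod_ne_zero_iff.2 fun q hq =>
        (hQ q ((mem_powersetCard.1 h1).1 hq)).ne_zero)
    exact ⟨h1, h3, h4, h5, (Nat.div_mul_cancel h7).symm, h8⟩
  have hmaps : ∀ x ∈ A, (x.2 - 1) / dT x.1 ∈ Icc 1 M := by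
    intro x hx
    obtain ⟨h1, h2, h3, h4, h5, h6⟩ := hfacts x hx
    have h7 := h4.two_le
    rw [mem_Icc]
    refine ⟨?_, ?_⟩
    · rcases Nat.eq_zero_or_pos ((x.2 - 1) / dT x.1) with h8 | h8
      · rw [h8, zero_mul] at h5
        omega
      · exact h8
    · refine Nat.le_floor ?_
      rw [le_div_iff₀ (by positivity)]
      have h8 := le_dT hQY2 h1
      calc (((x.2 - 1) / dT x.1 : ℕ) : ℝ) * ((Y : ℝ) / 2) ^ k ≤
          (((x.2 - 1) / dT x.1 : ℕ) : ℝ) * dT x.1 :=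
            mul_le_mul_of_nonneg_left h8 (Nat.cast_nonneg _)
        _ = ((x.2 - 1 : ℕ) : ℝ) := by exact_mod_cast h5.symm
        _ ≤ z := by exact_mod_cast (show x.2 - 1 ≤ z by omega)
  obtain ⟨m₀, hm₀, hfib⟩ := exists_le_card_fiber_of_nsmul_le_card_of_maps_to (s := A)
    (t := Icc 1 M) (f := fun x => (x.2 - 1) / dT x.1) (b := (S : ℝ) / M) hmaps
    ⟨1, mem_Icc.2 ⟨le_rfl, hM1⟩⟩ (by
      rw [hAc, Nat.card_Icc, Nat.add_sub_cancel, nsmul_eq_mul, mul_div_cancel₀ _ hMR.ne'])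
  obtain ⟨hm1, hm2⟩ := mem_Icc.1 hm₀
  refine ⟨m₀, hm1, hm2.trans hMz, (A.filter fun x => (x.2 - 1) / dT x.1 = m₀).image fun x => x.2,
    ?_, ?_⟩
  · rw [card_image_of_injOn]
    · refine le_trans ?_ hfib
      have h1 : (z : ℝ) / ((Y : ℝ) / 2) ^ k = z / ((Y : ℝ) / 2) ^ k := rfl
      rw [div_le_div_iff₀ hz0 hMR]
      have h2 : (M : ℝ) * ((Y : ℝ) / 2) ^ k ≤ z := by
        rw [le_div_iff₀ (by positivity)] at hMle
        exact hMle
      calc (S : ℝ) * ((Y : ℝ) / 2) ^ k * M = S * (M * ((Y : ℝ) / 2) ^ k) := by ring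
        _ ≤ S * z := mul_le_mul_of_nonneg_left h2 (Nat.cast_nonneg _)
    · intro x hx y hy hxy
      rw [mem_coe, mem_filter] at hx hy
      obtain ⟨h1, h2, h3, h4, h5, h6⟩ := hfacts x hx.1
      obtain ⟨g1, g2, g3, g4, g5, g6⟩ := hfacts y hy.1
      have hxy' : x.2 = y.2 := hxy
      rw [hx.2] at h5
      rw [hy.2] at g5
      have h7 : m₀ * dT x.1 = m₀ * dT y.1 := by rw [← h5, ← g5, hxy']
      have h8 : dT x.1 = dT y.1 := Nat.eq_of_mul_eq_mul_left (by omega) h7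
      have h9 : x.1 = y.1 := dT_injOn Q k hQ (mem_coe.2 h1) (mem_coe.2 g1) h8
      exact Sigma.ext h9 (heq_of_eq hxy')
  · intro p hp
    obtain ⟨x, hx, rfl⟩ := mem_image.1 hp
    rw [mem_filter] at hx
    obtain ⟨h1, h2, h3, h4, h5, h6⟩ := hfacts x hx.1
    refine ⟨h2, h3, h4, ?_⟩
    rw [hx.2] at h5
    rw [h5]
    refine Nat.mul_dvd_mul_left _ ?_
    unfold dT primorial
    refine prod_dvd_prod_of_subset _ _ _ fun q hq => ?_
    have h7 := (mem_powersetCard.1 h1).1 hq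
    rw [mem_filter, mem_range]
    exact ⟨Nat.lt_succ_of_le (hQY q h7), hQ q h7⟩

end Pool.Agent.Work.MP_aac176_nt.Low
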