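import Pool.Agent.Work.MP_aac176_nt.Low.Agp

/-!
MP_aac176_nt, lower bound: the asymptotic form of `agp_core`.
-/

set_option autoImplicit false

namespace Pool.Agent.Work.MP_aac176_nt.Low

open Finset Pool.Agent.BV Pool.Agent.D3 Filter

theorem logpow_le_rpow (n : ℕ) (ε c : ℝ) (hε : 0 < ε) (hc : 0 < c) :
    ∀ᶠ z : ℕ in atTop, (Real.log z) ^ n ≤ c * (z : ℝ) ^ ε := by
  have h1 := (isLittleO_log_rpow_rpow_atTop (n : ℝ) hε).bound hc
  have h2 := (tendsto_natCast_atTop_atTop (R := ℝ)).eventually h1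
  filter_upwards [h2] with z hz
  rw [Real.norm_eq_abs, Real.norm_eq_abs, abs_of_nonneg (a := (z : ℝ) ^ ε) (by positivity),
    Real.rpow_natCast] at hz
  exact (le_abs_self _).trans hz

theorem rpow_nat_large (ε : ℝ) (hε : 0 < ε) :
    Tendsto (fun z : ℕ => ⌊(z : ℝ) ^ ε⌋₊) atTop atTop :=
  tendsto_nat_floor_atTop.comp
    ((tendsto_rpow_atTop hε).comp (tendsto_natCast_atTop_atTop (R := ℝ)))

theorem sum_er_le (Q : Finset ℕ) (k Y x : ℕ) (hQ : ∀ q ∈ Q, q.Prime) (hQY : ∀ q ∈ Q, q ≤ Y) :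
    ∑ T ∈ Q.powersetCard k, er x (dT T) ≤ ∑ d ∈ Icc 1 (Y ^ k), er x d := by
  classical
  rw [← sum_image (s := Q.powersetCard k) (g := dT) (f := fun d => er x d) (dT_injOn Q k hQ)]
  refine sum_le_sum_of_subset_of_nonneg ?_ fun _ _ _ => er_nonneg _ _
  intro d hd
  obtain ⟨T, hT, rfl⟩ := mem_image.1 hd
  rw [mem_Icc]
  refine ⟨?_, dT_le hQY hT⟩
  unfold dT
  exact Nat.pos_of_ne_zero (prod_ne_zero_iff.2 fun q hq =>
    (hQ q ((mem_powersetCard.1 hT).1 hq)).ne_zero)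

/-- the number of pairs. -/
theorem pairs_count (Q : Finset ℕ) (k Y x y : ℕ) (hQ : ∀ q ∈ Q, q.Prime) (hQY : ∀ q ∈ Q, q ≤ Y)
    (hx : 1 ≤ x) (hyx : y ≤ x) :
    (psi x - psi y) * ((Q.card.choose k : ℝ) / (Y : ℝ) ^ k) -
      ∑ d ∈ Icc 1 (Y ^ k), er x d - ∑ d ∈ Icc 1 (Y ^ k), er y d -
      (Q.card.choose k : ℝ) * (2 * Real.sqrt x * Real.log x) ≤
      Real.log x * ((∑ T ∈ Q.powersetCard k, (pr (dT T) y x).card : ℕ) : ℝ) := by
  classical
  have hpsi : 0 ≤ psi x - psi y := by linarith [psi_mono' hyx]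
  have h1 : ∀ T ∈ Q.powersetCard k, (psi x - psi y) * (1 / (Y : ℝ) ^ k) - er x (dT T) -
      er y (dT T) - 2 * Real.sqrt x * Real.log x ≤ Real.log x * (pr (dT T) y x).card := by
    intro T hT
    have hpos : 0 < dT T := by
      unfold dT
      exact Nat.pos_of_ne_zero (prod_ne_zero_iff.2 fun q hq =>
        (hQ q ((mem_powersetCard.1 hT).1 hq)).ne_zero)
    have h2 := pr_lower (dT T) y x hpos hx hyx
    have h3 : (dT T : ℝ) ≤ (Y : ℝ) ^ k := by exact_mod_cast dT_le hQY hT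
    have h4 : (psi x - psi y) * (1 / (Y : ℝ) ^ k) ≤ (psi x - psi y) / dT T := by
      rw [div_eq_mul_one_div (psi x - psi y)]
      refine mul_le_mul_of_nonneg_left ?_ hpsi
      exact one_div_le_one_div_of_le (by exact_mod_cast hpos) h3
    linarith
  have h2 := sum_le_sum h1
  rw [sum_sub_distrib, sum_sub_distrib, sum_sub_distrib, sum_const, sum_const, card_powersetCard,
    nsmul_eq_mul, nsmul_eq_mul, ← mul_sum] at h2
  have h3 := sum_er_le Q k Y x hQ hQY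
  have h4 := sum_er_le Q k Y y hQ hQY
  have h5 : (psi x - psi y) * ((Q.card.choose k : ℝ) / (Y : ℝ) ^ k) =
      (Q.card.choose k : ℝ) * ((psi x - psi y) * (1 / (Y : ℝ) ^ k)) := by ring
  rw [h5]
  push_cast at h2 ⊢
  linarith

/-- **Many primes with `p - 1` dividing a fixed number with small prime factors**. -/
theorem agp (k : ℕ) (hk : 1 ≤ k) :
    ∀ᶠ z : ℕ in atTop, ∃ m₀ : ℕ, 1 ≤ m₀ ∧ m₀ ≤ z ∧ ∃ P : Finset ℕ,
      (z : ℝ) ^ (11 / 25 : ℝ) ≤ P.card ∧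
      ∀ p ∈ P, z / 2 < p ∧ p ≤ z ∧ p.Prime ∧
        p - 1 ∣ m₀ * primorial ⌊(z : ℝ) ^ ((9 : ℝ) / (20 * k))⌋₊ := by
  classical
  have hkR : (1 : ℝ) ≤ k := by exact_mod_cast hk
  set a : ℝ := (9 : ℝ) / (20 * k) with ha
  have ha0 : 0 < a := by positivity
  have ha1 : a ≤ 1 := by
    rw [ha, div_le_one (by positivity)]
    linarith
  have hak : a * k = 9 / 20 := by
    rw [ha]
    field_simp
  obtain ⟨C₀, hC₀, hbv⟩ := bv_er (k + 1)
  obtain ⟨K, hK, hpsi⟩ := psi_close (1 / 18) (by norm_num)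
  have hkf : (0 : ℝ) < (k.factorial : ℝ) := by exact_mod_cast k.factorial_pos
  filter_upwards [(rpow_nat_large a ha0).eventually (smooth_primes (1 / 4) (by norm_num)
      (by norm_num)),
    (rpow_nat_large a ha0).eventually_ge_atTop 4,
    log_large (12 * C₀ * (1 + 2 ^ k) * k.factorial * 64 ^ k + 4),
    logpow_le_rpow 1 a (1 / (128 * k)) ha0 (by positivity),
    logpow_le_rpow 1 (1 / 20) (1 / 24) (by norm_num) (by norm_num),
    logpow_le_rpow (4 * (k + 1) + 28) (1 / 20) (1 / 2) (by norm_num) (by norm_num),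
    logpow_le_rpow (k + 1) (1 / 100) (1 / (6 * k.factorial * 256 ^ k)) (by norm_num)
      (by positivity),
    eventually_ge_atTop (16 + ⌈24 * K⌉₊)] with z h1 h2 h3 h4 h5 h6 h7 h8
  rw [pow_one] at h4 h5
  have hz16 : 16 ≤ z := by omega
  have hzR : (16 : ℝ) ≤ z := by exact_mod_cast hz16
  have hz0 : (0 : ℝ) < z := by linarith
  have hz1 : (1 : ℝ) ≤ z := by linarith
  have hKz : 24 * K ≤ z := by
    have h5 : (⌈24 * K⌉₊ : ℝ) ≤ z := by exact_mod_cast (show ⌈24 * K⌉₊ ≤ z by omega)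
    exact (Nat.le_ceil _).trans h5
  set X := Real.log z with hX
  have hX4 : 4 ≤ X := by
    refine le_trans ?_ h3
    have : 0 ≤ 12 * C₀ * (1 + 2 ^ k) * k.factorial * 64 ^ k := by positivity
    linarith
  have hX0 : 0 < X := by linarith
  set Y := ⌊(z : ℝ) ^ a⌋₊ with hY
  have hYR : (4 : ℝ) ≤ Y := by exact_mod_cast h2
  have hYle : (Y : ℝ) ≤ (z : ℝ) ^ a := Nat.floor_le (by positivity)
  have hYge : (z : ℝ) ^ a / 2 ≤ Y := by
    have h9 := Nat.lt_floor_add_one ((z : ℝ) ^ a)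
    rw [← hY] at h9
    linarith
  have hlogY : Real.log Y ≤ X := by
    refine Real.log_le_log (by linarith) (hYle.trans ?_)
    calc (z : ℝ) ^ a ≤ (z : ℝ) ^ (1 : ℝ) := Real.rpow_le_rpow_of_exponent_le hz1 ha1
      _ = z := Real.rpow_one _
  have hlogY0 : 0 < Real.log Y := Real.log_pos (by linarith)
  have hzak : ((z : ℝ) ^ a) ^ k = (z : ℝ) ^ (9 / 20 : ℝ) := by
    rw [← Real.rpow_natCast, ← Real.rpow_mul hz0.le, hak]
  have hYk : (Y : ℝ) ^ k ≤ (z : ℝ) ^ (9 / 20 : ℝ) := by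
    rw [← hzak]
    exact pow_le_pow_left₀ (by linarith) hYle k
  have hYk2 : (z : ℝ) ^ (9 / 20 : ℝ) / 2 ^ k ≤ (Y : ℝ) ^ k := by
    rw [← hzak, ← div_pow]
    exact pow_le_pow_left₀ (by positivity) hYge k
  have hYk0 : (0 : ℝ) < (Y : ℝ) ^ k := by positivity
  have hYk1 : (1 : ℝ) ≤ (Y : ℝ) ^ k := one_le_pow₀ (by linarith)
  -- the primes in `(Y/2, Y]`
  set Q := pr 1 (Y / 2) Y with hQ
  have hQp : ∀ q ∈ Q, q.Prime := fun q hq => (mem_pr_one.1 hq).2.2
  have hQY : ∀ q ∈ Q, q ≤ Y := fun q hq => (mem_pr_one.1 hq).2.1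
  have hQY2 : ∀ q ∈ Q, Y / 2 < q := fun q hq => (mem_pr_one.1 hq).1
  have hN : (Y : ℝ) / (32 * X) ≤ Q.card := by
    have h9 : ((Good ((Y : ℝ) ^ (1 / 2 + 1 / 4 : ℝ)) (Y / 2) Y).card : ℝ) ≤ Q.card := by
      exact_mod_cast card_le_card (filter_subset _ _)
    refine le_trans ?_ (h1.trans h9)
    rw [div_le_div_iff₀ (by positivity) (by positivity)]
    nlinarith
  have hN2 : 2 * (k : ℝ) ≤ Q.card := by
    refine le_trans ?_ hN
    rw [le_div_iff₀ (by positivity)]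
    have h9 : X * (128 * k) ≤ (z : ℝ) ^ a := by
      rw [one_div, inv_mul_eq_div, le_div_iff₀ (by positivity)] at h4
      exact h4
    linarith
  have hN3 : ((Q.card : ℝ) / 2) ≤ ((Q.card + 1 - k : ℕ) : ℝ) := by
    have h9 : 2 * k ≤ Q.card := by exact_mod_cast hN2
    have h10 : Q.card ≤ 2 * (Q.card + 1 - k) := by omega
    have h11 : (Q.card : ℝ) ≤ 2 * ((Q.card + 1 - k : ℕ) : ℝ) := by exact_mod_cast h10
    linarith
  set B : ℝ := (Q.card.choose k : ℝ) with hB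
  have hBge : (Y : ℝ) ^ k / (k.factorial * (64 * X) ^ k) ≤ B := by
    have h9 := Nat.pow_le_choose (α := ℝ) k Q.card
    refine le_trans ?_ h9
    have h10 : (Y : ℝ) ^ k / (k.factorial * (64 * X) ^ k) =
        ((Y : ℝ) / (64 * X)) ^ k / k.factorial := by
      rw [div_pow]
      field_simp
    rw [h10]
    refine div_le_div_of_nonneg_right ?_ hkf.le
    refine pow_le_pow_left₀ (by positivity) ?_ k
    refine le_trans ?_ hN3
    have h11 : (Y : ℝ) / (64 * X) = (Y : ℝ) / (32 * X) / 2 := by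
      rw [div_div]
      congr 1
      ring
    rw [h11]
    linarith
  have hB0 : 0 < B := lt_of_lt_of_le (by positivity) hBge
  have hBY : 1 / (k.factorial * (64 * X) ^ k) ≤ B / (Y : ℝ) ^ k := by
    rw [le_div_iff₀ hYk0]
    refine le_trans (le_of_eq ?_) hBge
    ring
  -- the count
  set y := z / 2 with hy
  have hyz : y ≤ z := Nat.div_le_self _ _
  have hy8 : 8 ≤ y := by omega
  have hyR : (y : ℝ) ≤ z / 2 := Nat.cast_div_le
  have hyR4 : (z : ℝ) / 4 ≤ y := by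
    have h5 : z ≤ 4 * y := by omega
    have h6 : (z : ℝ) ≤ 4 * y := by exact_mod_cast h5
    linarith
  have hy0 : (0 : ℝ) < y := by linarith
  have hlog4 : Real.log 4 ≤ 2 := by
    have := Real.log_two_lt_d9
    have h5 : Real.log 4 = 2 * Real.log 2 := by
      rw [show (4 : ℝ) = 2 ^ (2 : ℕ) by norm_num, Real.log_pow]
      push_cast
      ring
    linarith
  have hlogy : X / 2 ≤ Real.log y := by
    have h5 := Real.log_le_log (by linarith) hyR4
    rw [Real.log_div (by linarith) (by norm_num)] at h5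
    linarith
  have hlogyX : Real.log y ≤ X := Real.log_le_log hy0 (by linarith)
  have hlogy0 : 0 < Real.log y := by linarith
  have hψ : (z : ℝ) / 3 ≤ psi z - psi y := by
    have h5 := (abs_le.1 (hpsi z)).1
    have h6 := (abs_le.1 (hpsi y)).2
    linarith
  have hsz : Real.sqrt z = (z : ℝ) ^ (1 / 2 : ℝ) := Real.sqrt_eq_rpow _
  have hQn : ((Y ^ k : ℕ) : ℝ) * X ^ (4 * (k + 1) + 28) ≤ Real.sqrt z / 2 := by
    push_cast
    calc (Y : ℝ) ^ k * X ^ (4 * (k + 1) + 28) ≤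
        (z : ℝ) ^ (9 / 20 : ℝ) * (1 / 2 * (z : ℝ) ^ (1 / 20 : ℝ)) :=
          mul_le_mul hYk h6 (by positivity) (by positivity)
      _ = (z : ℝ) ^ (9 / 20 + 1 / 20 : ℝ) / 2 := by
          rw [Real.rpow_add hz0]
          ring
      _ = Real.sqrt z / 2 := by
          rw [hsz]
          norm_num
  have he1 : ∑ d ∈ Icc 1 (Y ^ k), er z d ≤ C₀ * z / X ^ (k + 1) := by
    refine hbv z (Y ^ k) (by omega) (hQn.trans ?_)
    have : 0 ≤ Real.sqrt z := Real.sqrt_nonneg _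
    linarith
  have he2 : ∑ d ∈ Icc 1 (Y ^ k), er y d ≤ C₀ * z * 2 ^ k / X ^ (k + 1) := by
    have h9 : ∑ d ∈ Icc 1 (Y ^ k), er y d ≤ C₀ * y / Real.log y ^ (k + 1) := by
      refine hbv y (Y ^ k) (by omega) ?_
      calc ((Y ^ k : ℕ) : ℝ) * Real.log y ^ (4 * (k + 1) + 28) ≤
          ((Y ^ k : ℕ) : ℝ) * X ^ (4 * (k + 1) + 28) :=
            mul_le_mul_of_nonneg_left (pow_le_pow_left₀ hlogy0.le hlogyX _) (Nat.cast_nonneg _)
        _ ≤ Real.sqrt z / 2 := hQn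
        _ ≤ Real.sqrt y := by
          have h6 : Real.sqrt (z / 4) ≤ Real.sqrt y := Real.sqrt_le_sqrt hyR4
          have h7 : Real.sqrt (z / 4) = Real.sqrt z / 2 := by
            rw [Real.sqrt_div hz0.le, show (4 : ℝ) = 2 ^ 2 by norm_num,
              Real.sqrt_sq (by norm_num)]
          linarith
    refine h9.trans ?_
    have h10 : (X / 2) ^ (k + 1) ≤ Real.log y ^ (k + 1) :=
      pow_le_pow_left₀ (by positivity) hlogy _
    calc C₀ * y / Real.log y ^ (k + 1) ≤ C₀ * (z / 2) / (X / 2) ^ (k + 1) :=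
          div_le_div₀ (by positivity) (mul_le_mul_of_nonneg_left hyR hC₀.le) (by positivity) h10
      _ = C₀ * z * 2 ^ k / X ^ (k + 1) := by
          rw [div_pow, pow_succ (2 : ℝ) k]
          field_simp
  have hcount := pairs_count Q k Y z y hQp hQY (by omega) hyz
  rw [← hX, ← hB] at hcount
  set S := ∑ T ∈ Q.powersetCard k, (pr (dT T) y z).card with hS
  have hm1 : (z : ℝ) / 3 * (B / (Y : ℝ) ^ k) ≤ (psi z - psi y) * (B / (Y : ℝ) ^ k) :=
    mul_le_mul_of_nonneg_right hψ (by positivity)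
  have hm2 : C₀ * z / X ^ (k + 1) + C₀ * z * 2 ^ k / X ^ (k + 1) ≤
      z / 12 * (B / (Y : ℝ) ^ k) := by
    have h9 : C₀ * z / X ^ (k + 1) + C₀ * z * 2 ^ k / X ^ (k + 1) =
        z * (C₀ * (1 + 2 ^ k) / X ^ (k + 1)) := by ring
    have h10 : z / 12 * (B / (Y : ℝ) ^ k) = z * (B / (Y : ℝ) ^ k / 12) := by ring
    rw [h9, h10]
    refine mul_le_mul_of_nonneg_left ?_ hz0.le
    refine le_trans ?_ (div_le_div_of_nonneg_right hBY (by norm_num))
    rw [div_div, div_le_div_iff₀ (by positivity) (by positivity)]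
    have h11 : 12 * C₀ * (1 + 2 ^ k) * k.factorial * 64 ^ k ≤ X := by linarith
    calc C₀ * (1 + 2 ^ k) * (k.factorial * (64 * X) ^ k * 12) =
        (12 * C₀ * (1 + 2 ^ k) * k.factorial * 64 ^ k) * X ^ k := by
          rw [mul_pow]
          ring
      _ ≤ X * X ^ k := mul_le_mul_of_nonneg_right h11 (by positivity)
      _ = 1 * X ^ (k + 1) := by rw [pow_succ]; ring
  have hm3 : B * (2 * Real.sqrt z * X) ≤ z / 12 * (B / (Y : ℝ) ^ k) := by
    have h9 : z / 12 * (B / (Y : ℝ) ^ k) = B * (z / (12 * (Y : ℝ) ^ k)) := by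
      field_simp
    rw [h9]
    refine mul_le_mul_of_nonneg_left ?_ hB0.le
    rw [le_div_iff₀ (by positivity), hsz]
    calc 2 * (z : ℝ) ^ (1 / 2 : ℝ) * X * (12 * (Y : ℝ) ^ k) =
        24 * X * ((z : ℝ) ^ (1 / 2 : ℝ) * (Y : ℝ) ^ k) := by ring
      _ ≤ (z : ℝ) ^ (1 / 20 : ℝ) * ((z : ℝ) ^ (1 / 2 : ℝ) * (z : ℝ) ^ (9 / 20 : ℝ)) := by
          refine mul_le_mul (by linarith) ?_ (by positivity) (by positivity)
          exact mul_le_mul_of_nonneg_left hYk (by positivity)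
      _ = (z : ℝ) ^ (1 / 20 + (1 / 2 + 9 / 20) : ℝ) := by
          rw [Real.rpow_add hz0, Real.rpow_add hz0]
      _ = z := by
          norm_num
  have hXS : z / 6 * (B / (Y : ℝ) ^ k) ≤ X * (S : ℝ) := by linarith
  -- the pigeonhole argument
  have hYz : ((Y : ℝ) / 2) ^ k ≤ z := by
    calc ((Y : ℝ) / 2) ^ k ≤ (Y : ℝ) ^ k := pow_le_pow_left₀ (by positivity) (by linarith) k
      _ ≤ (z : ℝ) ^ (9 / 20 : ℝ) := hYk
      _ ≤ (z : ℝ) ^ (1 : ℝ) := Real.rpow_le_rpow_of_exponent_le hz1 (by norm_num)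
      _ = z := Real.rpow_one _
  obtain ⟨m₀, hm₀1, hm₀2, P, hP1, hP2⟩ := agp_core Q k Y z hQp hQY hQY2 (by omega) hYz
  refine ⟨m₀, hm₀1, hm₀2, P, le_trans ?_ hP1, hP2⟩
  rw [← hy, ← hS]
  have h9 : B / (6 * 2 ^ k * X) ≤ (S : ℝ) * ((Y : ℝ) / 2) ^ k / z := by
    rw [div_le_div_iff₀ (by positivity) hz0]
    have h10 : z / 6 * (B / (Y : ℝ) ^ k) * (6 * (Y : ℝ) ^ k) = B * z := by
      field_simp
    have h11 : (S : ℝ) * ((Y : ℝ) / 2) ^ k * (6 * 2 ^ k * X) = X * S * (6 * (Y : ℝ) ^ k) := by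
      rw [div_pow]
      field_simp
    rw [h11, ← h10]
    exact mul_le_mul_of_nonneg_right hXS (by positivity)
  refine le_trans ?_ h9
  rw [le_div_iff₀ (by positivity)]
  refine le_trans ?_ hBge
  rw [le_div_iff₀ (by positivity)]
  have h12 : 6 * k.factorial * 256 ^ k * X ^ (k + 1) ≤ (z : ℝ) ^ (1 / 100 : ℝ) := by
    rw [one_div, inv_mul_eq_div, le_div_iff₀ (by positivity)] at h7
    linarith
  calc (z : ℝ) ^ (11 / 25 : ℝ) * (6 * 2 ^ k * X) * (k.factorial * (64 * X) ^ k) =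
      (z : ℝ) ^ (11 / 25 : ℝ) * (6 * k.factorial * 256 ^ k * X ^ (k + 1)) / 2 ^ k := by
        rw [mul_pow, pow_succ X k, show (256 : ℝ) = 2 * 2 * 64 by norm_num, mul_pow, mul_pow]
        field_simp
    _ ≤ (z : ℝ) ^ (11 / 25 : ℝ) * (z : ℝ) ^ (1 / 100 : ℝ) / 2 ^ k := by
        refine div_le_div_of_nonneg_right ?_ (by positivity)
        exact mul_le_mul_of_nonneg_left h12 (by positivity)
    _ = (z : ℝ) ^ (9 / 20 : ℝ) / 2 ^ k := by
        rw [← Real.rpow_add hz0]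
        norm_num
    _ ≤ (Y : ℝ) ^ k := hYk2

end Pool.Agent.Work.MP_aac176_nt.Low
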