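import Pool.Agent.Work.MP_aac176_nt.Low.HighW2

/-!
MP_aac176_nt, lower bound: primes `p ≤ z` such that all `p - 1` divide one number
`m₀ * primorial Y` with `Y` a power of `log z`.
-/

set_option autoImplicit false

namespace Pool.Agent.Work.MP_aac176_nt.Low

open Finset Pool.Agent.BV Pool.Agent.D3 Filter

theorem floor_logpow_tendsto (n : ℕ) (hn : n ≠ 0) :
    Tendsto (fun z : ℕ => ⌊(Real.log z) ^ n⌋₊) atTop atTop :=
  tendsto_nat_floor_atTop.comp ((tendsto_pow_atTop hn).comp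
    (Real.tendsto_log_atTop.comp (tendsto_natCast_atTop_atTop (R := ℝ))))

/-- **Many primes with `p - 1` dividing a fixed number with very small prime factors**. -/
theorem agp3 :
    ∀ᶠ z : ℕ in atTop, ∃ m₀ : ℕ, 1 ≤ m₀ ∧ m₀ ≤ z ∧ ∃ P : Finset ℕ,
      (z : ℝ) ^ (189 / 500 : ℝ) ≤ P.card ∧
      ∀ p ∈ P, z / 2 < p ∧ p ≤ z ∧ p.Prime ∧
        p - 1 ∣ m₀ * primorial ⌊(Real.log z) ^ 22⌋₊ := by
  classical
  obtain ⟨K₁, hK₁, hh⟩ := high_w2
  obtain ⟨K, hK, hpsi⟩ := psi_close (1 / 18) (by norm_num)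
  filter_upwards [(floor_logpow_tendsto 22 (by norm_num)).eventually (smooth_primes (1 / 4)
      (by norm_num) (by norm_num)),
    (floor_logpow_tendsto 22 (by norm_num)).eventually_ge_atTop 4, hh,
    log_large (2 * 52 ^ 10 + 48 * K₁),
    logpow_le_rpow 23 (1 / 500) (1 / 6) (by norm_num) (by norm_num),
    logpow_le_rpow 2 (3 / 5) (1 / 96) (by norm_num) (by norm_num),
    logpow_le_rpow 1 (1 / 10) (1 / 48) (by norm_num) (by norm_num),
    eventually_ge_atTop (64 + ⌈24 * K⌉₊)] with z h1 h2 hh hXb h23 hX2z hX1z hzb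
  rw [pow_one] at hX1z
  have hz64 : 64 ≤ z := by omega
  have hzR : (64 : ℝ) ≤ z := by exact_mod_cast hz64
  have hz0 : (0 : ℝ) < z := by linarith
  have hz1 : (1 : ℝ) ≤ z := by linarith
  have hKz : 24 * K ≤ z := by
    have h5 : (⌈24 * K⌉₊ : ℝ) ≤ z := by exact_mod_cast (show ⌈24 * K⌉₊ ≤ z by omega)
    exact (Nat.le_ceil _).trans h5
  have hzpow : ∀ a b : ℝ, a ≤ b → (z : ℝ) ^ a ≤ (z : ℝ) ^ b := fun a b h =>
    Real.rpow_le_rpow_of_exponent_le hz1 h
  set X := Real.log z with hX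
  have hXc : (2 : ℝ) * 52 ^ 10 ≤ X := by linarith
  have hX4 : 4 ≤ X := le_trans (by norm_num) hXc
  have hX1 : 1 ≤ X := by linarith
  have hX0 : 0 < X := by linarith
  have hXK : 48 * K₁ ≤ X := by
    have : (0 : ℝ) ≤ 2 * 52 ^ 10 := by positivity
    linarith
  set Y := ⌊X ^ 22⌋₊ with hY
  have hYR : (4 : ℝ) ≤ Y := by exact_mod_cast h2
  have hY0 : (0 : ℝ) < Y := by linarith
  have hYle : (Y : ℝ) ≤ X ^ 22 := Nat.floor_le (by positivity)
  have hYge : X ^ 22 / 2 ≤ Y := by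
    have h9 := Nat.lt_floor_add_one (X ^ 22)
    rw [← hY] at h9
    linarith
  have hlogY0 : 0 < Real.log Y := Real.log_pos (by linarith)
  have hX2 : (2 * 52 ^ 10 : ℝ) ^ 2 ≤ X ^ 2 := pow_le_pow_left₀ (by positivity) hXc 2
  -- powers
  have hX22 : X ^ 22 = X ^ 20 * X ^ 2 := by ring
  have hY20 : (52 * X) ^ 20 ≤ (Y : ℝ) / 2 := by
    calc (52 * X) ^ 20 = X ^ 20 * 52 ^ 20 := by ring
      _ ≤ X ^ 20 * (X ^ 2 / 4) := by
          refine mul_le_mul_of_nonneg_left ?_ (by positivity)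
          have h9 : (2 * 52 ^ 10 : ℝ) ^ 2 = 4 * 52 ^ 20 := by norm_num
          linarith
      _ = X ^ 22 / 2 / 2 := by rw [hX22]; ring
      _ ≤ (Y : ℝ) / 2 := by linarith
  have h52 : 52 * X ≤ ((Y : ℝ) / 2) ^ (1 / 20 : ℝ) := by
    have h9 : ((52 * X) ^ 20) ^ (1 / 20 : ℝ) ≤ ((Y : ℝ) / 2) ^ (1 / 20 : ℝ) :=
      Real.rpow_le_rpow (by positivity) hY20 (by norm_num)
    refine le_trans (le_of_eq ?_) h9
    rw [← Real.rpow_natCast, ← Real.rpow_mul (by positivity)]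
    norm_num
  have h52' : 52 * X ≤ (Y : ℝ) ^ (1 / 20 : ℝ) :=
    h52.trans (Real.rpow_le_rpow (by positivity) (by linarith) (by norm_num))
  -- the number of prime factors
  set k := ⌊(2 / 5 : ℝ) * X / Real.log Y⌋₊ with hk
  have hkle : (k : ℝ) ≤ (2 / 5 : ℝ) * X / Real.log Y := Nat.floor_le (by positivity)
  have hkY : (k : ℝ) * Real.log Y ≤ 2 / 5 * X := by
    rwa [le_div_iff₀ hlogY0] at hkle
  have hkY2 : (2 / 5 : ℝ) * X ≤ (k + 1) * Real.log Y := by
    have h9 := Nat.lt_floor_add_one ((2 / 5 : ℝ) * X / Real.log Y)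
    rw [← hk, div_lt_iff₀ hlogY0] at h9
    exact h9.le
  have hze : ∀ a : ℝ, (z : ℝ) ^ a = Real.exp (X * a) := fun a => by
    rw [Real.rpow_def_of_pos hz0]
  have hYk : (Y : ℝ) ^ k ≤ (z : ℝ) ^ (2 / 5 : ℝ) := by
    rw [hze, ← Real.exp_log (pow_pos hY0 k), Real.log_pow]
    exact Real.exp_le_exp.2 (by linarith)
  have hYk2 : (z : ℝ) ^ (2 / 5 : ℝ) / Y ≤ (Y : ℝ) ^ k := by
    rw [div_le_iff₀ hY0, ← pow_succ, hze, ← Real.exp_log (pow_pos hY0 (k + 1)), Real.log_pow]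
    push_cast
    exact Real.exp_le_exp.2 (by linarith)
  have hYk0 : (0 : ℝ) < (Y : ℝ) ^ k := by positivity
  -- the primes in `(Y/2, Y]`
  set Q := pr 1 (Y / 2) Y with hQ
  have hQp : ∀ q ∈ Q, q.Prime := fun q hq => (mem_pr_one.1 hq).2.2
  have hQY : ∀ q ∈ Q, q ≤ Y := fun q hq => (mem_pr_one.1 hq).2.1
  have hQY2 : ∀ q ∈ Q, Y / 2 < q := fun q hq => (mem_pr_one.1 hq).1
  have hN : (Y : ℝ) / (32 * Real.log Y) ≤ Q.card := by
    have h9 : ((Good ((Y : ℝ) ^ (1 / 2 + 1 / 4 : ℝ)) (Y / 2) Y).card : ℝ) ≤ Q.card := by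
      exact_mod_cast card_le_card (filter_subset _ _)
    refine le_trans (le_of_eq ?_) (h1.trans h9)
    field_simp
    norm_num
  have hN0 : (0 : ℝ) < Q.card := lt_of_lt_of_le (by positivity) hN
  have hN2 : 2 * (k : ℝ) ≤ Q.card := by
    refine le_trans ?_ hN
    rw [le_div_iff₀ (by positivity)]
    have h9 : 26 * X ≤ Y := by
      have h10 : 52 * X ≤ (52 * X) ^ 20 := le_self_pow₀ (by linarith) (by norm_num)
      linarith
    calc 2 * (k : ℝ) * (32 * Real.log Y) = 64 * (k * Real.log Y) := by ring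
      _ ≤ 64 * (2 / 5 * X) := mul_le_mul_of_nonneg_left hkY (by norm_num)
      _ ≤ Y := by linarith
  have hkN : k < Q.card := by
    have h9 : (k : ℝ) < Q.card := by linarith
    exact_mod_cast h9
  have hl : (k : ℝ) * Y / ((Q.card : ℝ) - k) ≤ 52 * X := by
    rw [div_le_iff₀ (by linarith)]
    have h9 : (Y : ℝ) ≤ Q.card * (32 * Real.log Y) := by
      rwa [div_le_iff₀ (by positivity)] at hN
    calc (k : ℝ) * Y ≤ k * (Q.card * (32 * Real.log Y)) :=
          mul_le_mul_of_nonneg_left h9 (Nat.cast_nonneg _)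
      _ = 32 * Q.card * (k * Real.log Y) := by ring
      _ ≤ 32 * Q.card * (2 / 5 * X) := mul_le_mul_of_nonneg_left hkY (by positivity)
      _ ≤ 52 * X * ((Q.card : ℝ) / 2) := by
          have : 0 ≤ X * Q.card := by positivity
          linarith
      _ ≤ 52 * X * ((Q.card : ℝ) - k) := by
          refine mul_le_mul_of_nonneg_left ?_ (by positivity)
          linarith
  set B : ℝ := (Q.card.choose k : ℝ) with hB
  set E := EE Q k with hE
  have hE0 : 0 ≤ E := EE_nonneg hQp k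
  have hBE : B ≤ E * (Y : ℝ) ^ k := choose_le_EE hQp hQY
  have hBE2 : B ≤ E * (z : ℝ) ^ (2 / 5 : ℝ) := hBE.trans (mul_le_mul_of_nonneg_left hYk hE0)
  -- the count
  set y := z / 2 with hy
  have hyz : y ≤ z := Nat.div_le_self _ _
  have hyR : (y : ℝ) ≤ z / 2 := Nat.cast_div_le
  have hyR4 : (z : ℝ) / 4 ≤ y := by
    have h5 : z ≤ 4 * y := by omega
    have h6 : (z : ℝ) ≤ 4 * y := by exact_mod_cast h5
    linarith
  have hy0 : (0 : ℝ) < y := by linarith
  have hψ : (z : ℝ) / 3 ≤ psi z - psi y := by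
    have h5 := (abs_le.1 (hpsi z)).1
    have h6 := (abs_le.1 (hpsi y)).2
    linarith
  have hYz : (Y : ℝ) ^ k ≤ z / 4 := by
    refine hYk.trans ?_
    have h9 : (4 : ℝ) ≤ (z : ℝ) ^ (3 / 5 : ℝ) := by
      have h10 : (1 : ℝ) ≤ X ^ 2 := one_le_pow₀ hX1
      linarith
    have h10 : (z : ℝ) = (z : ℝ) ^ (3 / 5 : ℝ) * (z : ℝ) ^ (2 / 5 : ℝ) := by
      rw [← Real.rpow_add hz0]
      norm_num
    have h11 : 4 * (z : ℝ) ^ (2 / 5 : ℝ) ≤ z := by
      nth_rewrite 2 [h10]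
      exact mul_le_mul_of_nonneg_right h9 (by positivity)
    linarith
  have hR₀ : X ^ 20 ≤ ((Y / 2 : ℕ) : ℝ) := by
    have h9 : (Y : ℝ) / 2 - 1 ≤ ((Y / 2 : ℕ) : ℝ) := by
      have h10 : Y ≤ 2 * (Y / 2) + 1 := by omega
      have h11 : (Y : ℝ) ≤ 2 * ((Y / 2 : ℕ) : ℝ) + 1 := by exact_mod_cast h10
      linarith
    have h10 : X ^ 20 + 1 ≤ (52 * X) ^ 20 := by
      have h11 : (1 : ℝ) ≤ X ^ 20 := one_le_pow₀ hX1
      have h12 : (52 * X) ^ 20 = 52 ^ 20 * X ^ 20 := by ring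
      rw [h12]
      nlinarith
    linarith
  have herr : ∀ x : ℕ, (z : ℝ) / 4 ≤ x → x ≤ z →
      ∑ T ∈ Q.powersetCard k, er x (dT T) ≤ E * (z / 24) := by
    intro x hx1 hx2
    have hx3 : 3 ≤ x := by
      have : (3 : ℝ) ≤ x := by linarith
      exact_mod_cast this
    have hxz : (x : ℝ) ≤ z := by exact_mod_cast hx2
    have hYx : Y ^ k ≤ x := by
      have : ((Y ^ k : ℕ) : ℝ) ≤ x := by
        push_cast
        linarith
      exact_mod_cast this
    have h9 := sparse_bv (l := 52 * X) (u := 1 / 20) hQp hQY hQY2 (by omega) hkN hl (by norm_num)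
      h52 hx3 hYx
    have h10 := hh x (Y ^ k) (Y / 2) hx1 hx2 (by push_cast; exact hYk) hR₀
    have h11 : K₁ * z / X ≤ z / 48 := by
      rw [div_le_div_iff₀ hX0 (by norm_num)]
      nlinarith
    have h12 : (Real.log x) ^ 2 ≤ X ^ 2 := by
      have h13 : Real.log x ≤ X := Real.log_le_log (by linarith) hxz
      exact pow_le_pow_left₀ (Real.log_nonneg (by linarith)) h13 2
    have h13 : B * (2 * (Real.log x) ^ 2) ≤ E * (z / 48) := by
      calc B * (2 * (Real.log x) ^ 2) ≤ (E * (z : ℝ) ^ (2 / 5 : ℝ)) * (2 * X ^ 2) :=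
            mul_le_mul hBE2 (by linarith) (by positivity) (by positivity)
        _ ≤ (E * (z : ℝ) ^ (2 / 5 : ℝ)) * ((z : ℝ) ^ (3 / 5 : ℝ) / 48) :=
            mul_le_mul_of_nonneg_left (by linarith) (by positivity)
        _ = E * (((z : ℝ) ^ (2 / 5 : ℝ) * (z : ℝ) ^ (3 / 5 : ℝ)) / 48) := by ring
        _ = E * (z / 48) := by
            rw [← Real.rpow_add hz0]
            norm_num
    calc ∑ T ∈ Q.powersetCard k, er x (dT T) ≤
        E * ∑ r ∈ Ioc (Y / 2) (Y ^ k), (r : ℝ) ^ (1 / 20 : ℝ) * gg x r +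
          B * (2 * (Real.log x) ^ 2) := h9
      _ ≤ E * (z / 48) + E * (z / 48) :=
          add_le_add (mul_le_mul_of_nonneg_left (h10.trans h11) hE0) h13
      _ = E * (z / 24) := by ring
  have he1 := herr z (by linarith) le_rfl
  have he2 := herr y hyR4 hyz
  have hcount := pairs_count2 Q k z y hQp (by omega) hyz
  rw [← hX, ← hB, ← hE] at hcount
  set S := ∑ T ∈ Q.powersetCard k, (pr (dT T) y z).card with hS
  have hm1 : (z : ℝ) / 3 * E ≤ (psi z - psi y) * E := mul_le_mul_of_nonneg_right hψ hE0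
  have hm3 : B * (2 * Real.sqrt z * X) ≤ E * (z / 24) := by
    rw [Real.sqrt_eq_rpow]
    calc B * (2 * (z : ℝ) ^ (1 / 2 : ℝ) * X) ≤
        (E * (z : ℝ) ^ (2 / 5 : ℝ)) * (2 * (z : ℝ) ^ (1 / 2 : ℝ) * X) :=
          mul_le_mul_of_nonneg_right hBE2 (by positivity)
      _ ≤ (E * (z : ℝ) ^ (2 / 5 : ℝ)) * (2 * (z : ℝ) ^ (1 / 2 : ℝ) *
          (1 / 48 * (z : ℝ) ^ (1 / 10 : ℝ))) := by
          refine mul_le_mul_of_nonneg_left ?_ (by positivity)
          exact mul_le_mul_of_nonneg_left hX1z (by positivity)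
      _ = E * (((z : ℝ) ^ (2 / 5 : ℝ) * (z : ℝ) ^ (1 / 2 : ℝ) * (z : ℝ) ^ (1 / 10 : ℝ)) / 24) := by
          ring
      _ = E * (z / 24) := by
          rw [← Real.rpow_add hz0, ← Real.rpow_add hz0]
          norm_num
  have hXS : z / 6 * E ≤ X * (S : ℝ) := by
    have : 0 ≤ E * z := by positivity
    linarith
  -- the pigeonhole argument
  have hYz2 : ((Y : ℝ) / 2) ^ k ≤ z := by
    calc ((Y : ℝ) / 2) ^ k ≤ (Y : ℝ) ^ k := pow_le_pow_left₀ (by positivity) (by linarith) k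
      _ ≤ z := by linarith
  obtain ⟨m₀, hm₀1, hm₀2, P, hP1, hP2⟩ := agp_core Q k Y z hQp hQY hQY2 (by omega) hYz2
  refine ⟨m₀, hm₀1, hm₀2, P, le_trans ?_ hP1, hP2⟩
  rw [← hy, ← hS]
  -- the binomial coefficient
  have hkpos : 1 ≤ k := by
    by_contra hcon
    have hk0 : k = 0 := by omega
    rw [hk0] at hYk2
    rw [pow_zero, div_le_one hY0] at hYk2
    have h9 : (z : ℝ) ^ (1 / 500 : ℝ) ≤ (z : ℝ) ^ (2 / 5 : ℝ) := hzpow _ _ (by norm_num)
    have h10 : 6 * X ^ 23 ≤ (z : ℝ) ^ (1 / 500 : ℝ) := by linarith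
    have h11 : X ^ 22 ≤ X ^ 23 := pow_le_pow_right₀ hX1 (by norm_num)
    have h12 : (0 : ℝ) < X ^ 22 := by positivity
    linarith
  have hkR : (1 : ℝ) ≤ k := by exact_mod_cast hkpos
  have hBge : ((Q.card : ℝ) / (2 * k)) ^ k ≤ B := by
    have h9 := Nat.pow_le_choose (α := ℝ) k Q.card
    have h10 : ((Q.card : ℝ) / 2) ≤ ((Q.card + 1 - k : ℕ) : ℝ) := by
      have h11 : 2 * k ≤ Q.card := by exact_mod_cast hN2
      have h12 : Q.card ≤ 2 * (Q.card + 1 - k) := by omega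
      have h13 : (Q.card : ℝ) ≤ 2 * ((Q.card + 1 - k : ℕ) : ℝ) := by exact_mod_cast h12
      linarith
    have h11 : (k.factorial : ℝ) ≤ (k : ℝ) ^ k := by exact_mod_cast Nat.factorial_le_pow k
    have h12 : (0 : ℝ) < k.factorial := by exact_mod_cast k.factorial_pos
    refine le_trans ?_ h9
    rw [← div_div, div_pow]
    exact div_le_div₀ (by positivity) (pow_le_pow_left₀ (by positivity) h10 k) h12 h11
  have hfin : (z : ℝ) ^ (189 / 500 : ℝ) ≤ (S : ℝ) * ((Y : ℝ) / 2) ^ k / z := by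
    -- `S (Y/2)^k / z ≥ E (Y/2)^k / (6 X)`
    have s1 : E * ((Y : ℝ) / 2) ^ k / (6 * X) ≤ (S : ℝ) * ((Y : ℝ) / 2) ^ k / z := by
      rw [div_le_div_iff₀ (by positivity) hz0]
      have h9 : 0 ≤ ((Y : ℝ) / 2) ^ k := by positivity
      calc E * ((Y : ℝ) / 2) ^ k * z = ((Y : ℝ) / 2) ^ k * (6 * (z / 6 * E)) := by ring
        _ ≤ ((Y : ℝ) / 2) ^ k * (6 * (X * S)) :=
            mul_le_mul_of_nonneg_left (by linarith) h9
        _ = (S : ℝ) * ((Y : ℝ) / 2) ^ k * (6 * X) := by ring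
    refine le_trans ?_ s1
    have s2 : B / 2 ^ k ≤ E * ((Y : ℝ) / 2) ^ k := by
      rw [div_pow, mul_div_assoc']
      exact div_le_div_of_nonneg_right hBE (by positivity)
    refine le_trans ?_ (div_le_div_of_nonneg_right s2 (by positivity))
    have s3 : ((Y : ℝ) / (52 * X)) ^ k ≤ B / 2 ^ k := by
      rw [le_div_iff₀ (by positivity), ← mul_pow]
      refine le_trans (pow_le_pow_left₀ (by positivity) ?_ k) hBge
      rw [div_mul_eq_mul_div, div_le_div_iff₀ (by positivity) (by positivity)]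
      have h9 : (Y : ℝ) ≤ Q.card * (32 * Real.log Y) := by
        rwa [div_le_iff₀ (by positivity)] at hN
      calc (Y : ℝ) * 2 * (2 * k) = 4 * k * Y := by ring
        _ ≤ 4 * k * (Q.card * (32 * Real.log Y)) :=
            mul_le_mul_of_nonneg_left h9 (by positivity)
        _ = 128 * Q.card * (k * Real.log Y) := by ring
        _ ≤ 128 * Q.card * (2 / 5 * X) := mul_le_mul_of_nonneg_left hkY (by positivity)
        _ ≤ (Q.card : ℝ) * (52 * X) := by
            have : 0 ≤ (Q.card : ℝ) * X := by positivity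
            linarith
    refine le_trans ?_ (div_le_div_of_nonneg_right s3 (by positivity))
    have s4 : (52 * X) ^ k ≤ (z : ℝ) ^ (1 / 50 : ℝ) := by
      calc (52 * X) ^ k ≤ ((Y : ℝ) ^ (1 / 20 : ℝ)) ^ k := pow_le_pow_left₀ (by positivity) h52' k
        _ = ((Y : ℝ) ^ k) ^ (1 / 20 : ℝ) := by
            rw [← Real.rpow_natCast, ← Real.rpow_natCast, ← Real.rpow_mul (by positivity),
              ← Real.rpow_mul (by positivity), mul_comm]
        _ ≤ ((z : ℝ) ^ (2 / 5 : ℝ)) ^ (1 / 20 : ℝ) :=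
            Real.rpow_le_rpow (by positivity) hYk (by norm_num)
        _ = (z : ℝ) ^ (1 / 50 : ℝ) := by
            rw [← Real.rpow_mul hz0.le]
            norm_num
    have s5 : (z : ℝ) ^ (2 / 5 : ℝ) / Y / (z : ℝ) ^ (1 / 50 : ℝ) ≤ ((Y : ℝ) / (52 * X)) ^ k := by
      rw [div_pow]
      exact div_le_div₀ (by positivity) hYk2 (by positivity) s4
    refine le_trans ?_ (div_le_div_of_nonneg_right s5 (by positivity))
    rw [div_div, div_div, le_div_iff₀ (by positivity)]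
    have s6 : (Y : ℝ) * (6 * X) ≤ (z : ℝ) ^ (1 / 500 : ℝ) := by
      calc (Y : ℝ) * (6 * X) ≤ X ^ 22 * (6 * X) := mul_le_mul_of_nonneg_right hYle (by positivity)
        _ = 6 * X ^ 23 := by ring
        _ ≤ (z : ℝ) ^ (1 / 500 : ℝ) := by linarith
    calc (z : ℝ) ^ (189 / 500 : ℝ) * ((Y : ℝ) * ((z : ℝ) ^ (1 / 50 : ℝ) * (6 * X))) =
        (z : ℝ) ^ (189 / 500 : ℝ) * (z : ℝ) ^ (1 / 50 : ℝ) * ((Y : ℝ) * (6 * X)) := by ring
      _ ≤ (z : ℝ) ^ (189 / 500 : ℝ) * (z : ℝ) ^ (1 / 50 : ℝ) * (z : ℝ) ^ (1 / 500 : ℝ) :=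
          mul_le_mul_of_nonneg_left s6 (by positivity)
      _ = (z : ℝ) ^ (2 / 5 : ℝ) := by
          rw [← Real.rpow_add hz0, ← Real.rpow_add hz0]
          norm_num
  exact hfin

end Pool.Agent.Work.MP_aac176_nt.Low
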