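import Pool.Agent.Work.MP_aac176_nt.Low.Equi

/-!
MP_aac176_nt, lower bound: many sums of distinct powers of `3` are divisible by many primes of a
given set.
-/

set_option autoImplicit false

namespace Pool.Agent.Work.MP_aac176_nt.Low

open Finset

/-- the primes of `P` dividing the number of `s`. -/
def SS (P : Finset ℕ) (s : Finset ℕ) : Finset ℕ := P.filter fun p => p ∣ bb s

theorem prod_dvd_iff {P U : Finset ℕ} (hP : ∀ p ∈ P, p.Prime) (hU : U ⊆ P) (s : Finset ℕ) :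
    (∏ p ∈ U, p) ∣ bb s ↔ U ⊆ SS P s := by
  constructor
  · intro h p hp
    rw [SS, mem_filter]
    exact ⟨hU hp, (dvd_prod_of_mem _ hp).trans h⟩
  · intro h
    refine Finset.prod_primes_dvd _ (fun p hp => (hP p (hU hp)).prime) fun p hp => ?_
    exact (mem_filter.1 (h hp)).2

theorem sum_choose {P : Finset ℕ} (hP : ∀ p ∈ P, p.Prime) (l k : ℕ) :
    ∑ s ∈ (range l).powerset, (SS P s).card.choose k =
      ∑ U ∈ P.powersetCard k, (DD l (∏ p ∈ U, p)).card := by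
  have h1 : ∀ s ∈ (range l).powerset, (SS P s).card.choose k =
      ∑ U ∈ P.powersetCard k, if (∏ p ∈ U, p) ∣ bb s then 1 else 0 := by
    intro s _
    rw [← card_powersetCard, ← card_filter]
    congr 1
    ext U
    rw [mem_powersetCard, mem_filter, mem_powersetCard]
    constructor
    · rintro ⟨h2, h3⟩
      have h4 : U ⊆ P := h2.trans (filter_subset _ _)
      exact ⟨⟨h4, h3⟩, (prod_dvd_iff hP h4 s).2 h2⟩
    · rintro ⟨⟨h2, h3⟩, h4⟩
      exact ⟨(prod_dvd_iff hP h2 s).1 h4, h3⟩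
  rw [sum_congr rfl h1, sum_comm]
  refine sum_congr rfl fun U _ => ?_
  rw [DD, card_filter]

theorem bonf (S m : ℕ) (hm : 1 ≤ m) :
    (S.choose m : ℝ) - m * (S.choose (m + 1) : ℝ) ≤ if m ≤ S then 1 else 0 := by
  by_cases h : m ≤ S
  · rw [if_pos h]
    rcases Nat.eq_or_lt_of_le h with rfl | h1
    · simp
    rcases Nat.eq_or_lt_of_le (show m + 1 ≤ S from h1) with rfl | h2
    · rw [Nat.choose_succ_self_right, Nat.choose_self]
      push_cast
      linarith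
    · have h3 : (S.choose (m + 1) : ℝ) * (m + 1) = S.choose m * (S - m) := by
        have h4 := Nat.choose_succ_right_eq S m
        have h5 : ((S.choose (m + 1) * (m + 1) : ℕ) : ℝ) = ((S.choose m * (S - m) : ℕ) : ℝ) := by
          rw [h4]
        rw [Nat.cast_mul, Nat.cast_mul, Nat.cast_sub h] at h5
        push_cast at h5
        exact h5
      have hS : (m : ℝ) + 2 ≤ S := by exact_mod_cast h2
      have hm' : (1 : ℝ) ≤ m := by exact_mod_cast hm
      have hC : (0 : ℝ) ≤ S.choose m := Nat.cast_nonneg _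
      have h5 : (S.choose m : ℝ) ≤ m * (S.choose (m + 1) : ℝ) := by
        have h6 : (S.choose m : ℝ) * (m + 1) ≤ m * ((S.choose (m + 1) : ℝ) * (m + 1)) := by
          rw [h3]
          have h7 : (m : ℝ) + 1 ≤ m * (S - m) := by nlinarith
          calc (S.choose m : ℝ) * (m + 1) ≤ (S.choose m : ℝ) * (m * (S - m)) :=
                mul_le_mul_of_nonneg_left h7 hC
            _ = m * (S.choose m * (S - m)) := by ring
        have h8 : (0 : ℝ) < m + 1 := by positivity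
        have h9 : (S.choose m : ℝ) * (m + 1) ≤ (m * (S.choose (m + 1) : ℝ)) * (m + 1) := by
          calc _ ≤ _ := h6
            _ = _ := by ring
        exact le_of_mul_le_mul_right h9 h8
      linarith
  · rw [if_neg h, Nat.choose_eq_zero_of_lt (by omega), Nat.choose_eq_zero_of_lt (by omega)]
    simp

/-- elementary symmetric sums. -/
noncomputable def ee (P : Finset ℕ) (k : ℕ) : ℝ := ∑ U ∈ P.powersetCard k, ∏ p ∈ U, (1 / p : ℝ)

theorem ee_succ_le (P : Finset ℕ) (m : ℕ) :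
    ((m : ℝ) + 1) * ee P (m + 1) ≤ ee P m * ∑ p ∈ P, (1 / p : ℝ) := by
  have h1 : ((m : ℝ) + 1) * ee P (m + 1) =
      ∑ x ∈ (P.powersetCard (m + 1)).sigma fun U => U,
        (∏ p ∈ x.1.erase x.2, (1 / p : ℝ)) * (1 / x.2 : ℝ) := by
    rw [sum_sigma, ee, mul_sum]
    refine sum_congr rfl fun U hU => ?_
    have h2 : ∀ p ∈ U, (∏ q ∈ U.erase p, (1 / q : ℝ)) * (1 / p : ℝ) = ∏ q ∈ U, (1 / q : ℝ) :=
      fun p hp => prod_erase_mul U (fun q : ℕ => (1 / q : ℝ)) hp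
    rw [sum_congr rfl h2, sum_const, (mem_powersetCard.1 hU).2, nsmul_eq_mul]
    push_cast
    ring
  have h2 : ee P m * ∑ p ∈ P, (1 / p : ℝ) =
      ∑ y ∈ P.powersetCard m ×ˢ P, (∏ p ∈ y.1, (1 / p : ℝ)) * (1 / y.2 : ℝ) := by
    rw [ee, sum_mul_sum, sum_product]
  rw [h1, h2]
  have h3 : ∑ x ∈ (P.powersetCard (m + 1)).sigma fun U => U,
        (∏ p ∈ x.1.erase x.2, (1 / p : ℝ)) * (1 / x.2 : ℝ) =
      ∑ y ∈ ((P.powersetCard (m + 1)).sigma fun U => U).image fun x => (x.1.erase x.2, x.2),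
        (∏ p ∈ y.1, (1 / p : ℝ)) * (1 / y.2 : ℝ) := by
    rw [sum_image]
    rintro ⟨U, p⟩ hx ⟨V, q⟩ hy he
    simp only [Prod.mk.injEq] at he
    obtain ⟨e1, rfl⟩ := he
    rw [mem_coe, mem_sigma] at hx hy
    have hx2 : p ∈ U := hx.2
    have hy2 : p ∈ V := hy.2
    have h4 : U = V := by
      rw [← insert_erase hx2, ← insert_erase hy2, e1]
    subst h4
    rfl
  rw [h3]
  refine sum_le_sum_of_subset_of_nonneg ?_ fun y _ _ => by positivity
  intro y hy
  rw [mem_image] at hy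
  obtain ⟨⟨U, p⟩, hx, rfl⟩ := hy
  rw [mem_sigma] at hx
  have h4 := mem_powersetCard.1 hx.1
  rw [mem_product, mem_powersetCard]
  refine ⟨⟨(erase_subset _ _).trans h4.1, ?_⟩, h4.1 hx.2⟩
  rw [card_erase_of_mem hx.2, h4.2, Nat.add_sub_cancel]

theorem ee_ge {P : Finset ℕ} {z : ℝ} (hz : 0 < z) (hP0 : ∀ p ∈ P, 0 < p)
    (hP : ∀ p ∈ P, (p : ℝ) ≤ z) (m : ℕ) : (P.card.choose m : ℝ) * (1 / z) ^ m ≤ ee P m := by
  rw [ee, ← card_powersetCard, ← nsmul_eq_mul]
  refine card_nsmul_le_sum _ _ _ fun U hU => ?_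
  have h1 := mem_powersetCard.1 hU
  rw [← h1.2, ← prod_const]
  refine prod_le_prod (fun _ _ => by positivity) fun p hp => ?_
  have h2 : (0 : ℝ) < p := by exact_mod_cast hP0 p (h1.1 hp)
  exact one_div_le_one_div_of_le h2 (hP p (h1.1 hp))

theorem choose_ge {n m : ℕ} (hm : 1 ≤ m) (hmn : 2 * m ≤ n) :
    ((n : ℝ) / (2 * m)) ^ m ≤ n.choose m := by
  have h1 := Nat.pow_le_choose (α := ℝ) m n
  have h2 : (m.factorial : ℝ) ≤ (m : ℝ) ^ m := by exact_mod_cast Nat.factorial_le_pow m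
  have hm0 : (0 : ℝ) < m := by exact_mod_cast hm
  have hC : (0 : ℝ) ≤ n.choose m := Nat.cast_nonneg _
  have h3 : ((n : ℝ) / 2) ^ m ≤ ((n + 1 - m : ℕ) : ℝ) ^ m := by
    refine pow_le_pow_left₀ (by positivity) ?_ m
    rw [Nat.cast_sub (by omega)]
    push_cast
    have : (2 : ℝ) * m ≤ n := by exact_mod_cast hmn
    linarith
  have h4 : ((n : ℝ) / (2 * m)) ^ m = ((n : ℝ) / 2) ^ m / (m : ℝ) ^ m := by
    rw [← div_pow, div_div]
  rw [h4, div_le_iff₀ (by positivity)]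
  calc ((n : ℝ) / 2) ^ m ≤ ((n + 1 - m : ℕ) : ℝ) ^ m := h3
    _ ≤ m.factorial * n.choose m := by
      have h5 : (0 : ℝ) < m.factorial := by exact_mod_cast Nat.factorial_pos m
      rw [div_le_iff₀ h5] at h1
      linarith
    _ ≤ (m : ℝ) ^ m * n.choose m := mul_le_mul_of_nonneg_right h2 hC
    _ = n.choose m * (m : ℝ) ^ m := mul_comm _ _

/-- **Many numbers with large common divisor.** -/
theorem card_AA_ge {l k m r t : ℕ} {P : Finset ℕ} {z w : ℝ} (hl : 0 < l) (hz : 1 ≤ z) (hw : 0 ≤ w)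
    (hm : 1 ≤ m) (hmn : 2 * m ≤ P.card) (hP : ∀ p ∈ P, p.Prime) (hP3 : ∀ p ∈ P, p ≠ 3)
    (hPM : ∀ p ∈ P, p ∣ MM l) (hPz : ∀ p ∈ P, (p : ℝ) ≤ z) (hPw : ∀ p ∈ P, w ≤ p)
    (hk : (3 : ℝ) ^ k ≤ w ^ m) (he1 : ∑ p ∈ P, (1 / p : ℝ) ≤ 1 / 2) (ht : 0 < t)
    (hzt : z ^ (m + 1) ≤ 2 * 3 ^ t) (hr : r * t ≤ l)
    (herr : (1 + P.card : ℝ) * (7 / 8) ^ r ≤ (1 / z) ^ m / 4) :
    2 ^ l * ((P.card : ℝ) / (2 * m * z)) ^ m / 4 ≤ (AA l k).card := by
  classical
  set n := P.card with hn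
  set τ : ℝ := (7 / 8) ^ r with hτ
  have hτ0 : 0 ≤ τ := by positivity
  have hz0 : (0 : ℝ) < z := by linarith
  -- the count
  have hprod : ∀ U ∈ P.powersetCard m ∪ P.powersetCard (m + 1),
      |((DD l (∏ p ∈ U, p)).card : ℝ) - 2 ^ l * ∏ p ∈ U, (1 / p : ℝ)| ≤ 2 ^ l * τ := by
    intro U hU
    have hU' : U ⊆ P ∧ U.card ≤ m + 1 := by
      rw [mem_union, mem_powersetCard, mem_powersetCard] at hU
      rcases hU with h | h
      · exact ⟨h.1, by omega⟩
      · exact ⟨h.1, by omega⟩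
    have h1 : (2 : ℝ) ^ l * ∏ p ∈ U, (1 / p : ℝ) = 2 ^ l / ((∏ p ∈ U, p : ℕ) : ℝ) := by
      rw [Nat.cast_prod, div_eq_mul_inv, ← prod_inv_distrib]
      congr 1
      exact prod_congr rfl fun p _ => one_div _
    rw [h1]
    refine equi ?_ ?_ ht ?_ hr
    · exact Finset.prod_pos fun p hp => (hP p (hU'.1 hp)).pos
    · refine Nat.Coprime.prod_left fun p hp => ?_
      exact (Nat.coprime_primes (hP p (hU'.1 hp)) Nat.prime_three).2 (hP3 p (hU'.1 hp))
    · have h2 : ((∏ p ∈ U, p : ℕ) : ℝ) ≤ z ^ (m + 1) := by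
        rw [Nat.cast_prod]
        calc ∏ p ∈ U, (p : ℝ) ≤ ∏ p ∈ U, z :=
              prod_le_prod (fun _ _ => Nat.cast_nonneg _) fun p hp => hPz p (hU'.1 hp)
          _ = z ^ U.card := prod_const _
          _ ≤ z ^ (m + 1) := pow_le_pow_right₀ hz hU'.2
      exact_mod_cast h2.trans hzt
  have hlow : ∀ U ∈ P.powersetCard m, (2 : ℝ) ^ l * ∏ p ∈ U, (1 / p : ℝ) - 2 ^ l * τ ≤
      ((DD l (∏ p ∈ U, p)).card : ℝ) := fun U hU => by
    have h1 := (abs_le.1 (hprod U (mem_union_left _ hU))).1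
    linarith
  have hupp : ∀ U ∈ P.powersetCard (m + 1), ((DD l (∏ p ∈ U, p)).card : ℝ) ≤
      (2 : ℝ) ^ l * ∏ p ∈ U, (1 / p : ℝ) + 2 ^ l * τ := fun U hU => by
    have h1 := (abs_le.1 (hprod U (mem_union_right _ hU))).2
    linarith
  have h1 : (2 : ℝ) ^ l * (ee P m - n.choose m * τ) ≤
      ∑ U ∈ P.powersetCard m, ((DD l (∏ p ∈ U, p)).card : ℝ) := by
    calc (2 : ℝ) ^ l * (ee P m - n.choose m * τ) =
        ∑ U ∈ P.powersetCard m, ((2 : ℝ) ^ l * ∏ p ∈ U, (1 / p : ℝ) - 2 ^ l * τ) := by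
          rw [sum_sub_distrib, sum_const, card_powersetCard, nsmul_eq_mul, ← mul_sum, ← hn]
          unfold ee
          ring
      _ ≤ _ := sum_le_sum hlow
  have h2 : ∑ U ∈ P.powersetCard (m + 1), ((DD l (∏ p ∈ U, p)).card : ℝ) ≤
      (2 : ℝ) ^ l * (ee P (m + 1) + n.choose (m + 1) * τ) := by
    calc _ ≤ ∑ U ∈ P.powersetCard (m + 1), ((2 : ℝ) ^ l * ∏ p ∈ U, (1 / p : ℝ) + 2 ^ l * τ) :=
          sum_le_sum hupp
      _ = _ := by
          rw [sum_add_distrib, sum_const, card_powersetCard, nsmul_eq_mul, ← mul_sum, ← hn]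
          unfold ee
          ring
  -- Bonferroni
  have h3 : ∑ U ∈ P.powersetCard m, ((DD l (∏ p ∈ U, p)).card : ℝ) -
      m * ∑ U ∈ P.powersetCard (m + 1), ((DD l (∏ p ∈ U, p)).card : ℝ) ≤
      (((range l).powerset.filter fun s => m ≤ (SS P s).card).card : ℝ) := by
    have e1 := sum_choose hP l m
    have e2 := sum_choose hP l (m + 1)
    have e1' : ∑ U ∈ P.powersetCard m, ((DD l (∏ p ∈ U, p)).card : ℝ) =
        ∑ s ∈ (range l).powerset, ((SS P s).card.choose m : ℝ) := by exact_mod_cast e1.symm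
    have e2' : ∑ U ∈ P.powersetCard (m + 1), ((DD l (∏ p ∈ U, p)).card : ℝ) =
        ∑ s ∈ (range l).powerset, ((SS P s).card.choose (m + 1) : ℝ) := by exact_mod_cast e2.symm
    rw [e1', e2', mul_sum, ← sum_sub_distrib, card_filter]
    push_cast
    exact sum_le_sum fun s _ => bonf _ m hm
  -- the subsets counted are in `AA`
  have h4 : ((range l).powerset.filter fun s => m ≤ (SS P s).card) ⊆ AA l k := by
    intro s hs
    rw [mem_filter] at hs
    rw [AA, mem_filter]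
    refine ⟨hs.1, ?_⟩
    obtain ⟨U, hU1, hU2⟩ := exists_subset_card_eq hs.2
    have hUP : U ⊆ P := hU1.trans (filter_subset _ _)
    have h5 : (∏ p ∈ U, p) ∣ bb s := (prod_dvd_iff hP hUP s).2 hU1
    have h6 : (∏ p ∈ U, p) ∣ MM l :=
      Finset.prod_primes_dvd _ (fun p hp => (hP p (hUP hp)).prime) fun p hp => hPM p (hUP hp)
    have h7 : (∏ p ∈ U, p) ≤ Nat.gcd (bb s) (MM l) :=
      Nat.le_of_dvd (Nat.gcd_pos_of_pos_right _ (MM_pos hl)) (Nat.dvd_gcd h5 h6)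
    have h8 : (3 : ℝ) ^ k ≤ ((∏ p ∈ U, p : ℕ) : ℝ) := by
      refine hk.trans ?_
      rw [Nat.cast_prod, ← hU2, ← prod_const]
      exact prod_le_prod (fun _ _ => hw) fun p hp => hPw p (hUP hp)
    have h9 : 3 ^ k ≤ ∏ p ∈ U, p := by exact_mod_cast h8
    exact h9.trans h7
  have h5 : (((range l).powerset.filter fun s => m ≤ (SS P s).card).card : ℝ) ≤ (AA l k).card := by
    exact_mod_cast card_le_card h4
  -- numerical part
  have hm0 : (1 : ℝ) ≤ m := by exact_mod_cast hm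
  have h6 : (m : ℝ) * ee P (m + 1) ≤ ee P m / 2 := by
    have h7 := ee_succ_le P m
    have h8 : 0 ≤ ee P (m + 1) := sum_nonneg fun U _ => prod_nonneg fun p _ => by positivity
    have h9 : 0 ≤ ee P m := sum_nonneg fun U _ => prod_nonneg fun p _ => by positivity
    have h10 : ee P m * ∑ p ∈ P, (1 / p : ℝ) ≤ ee P m * (1 / 2) := mul_le_mul_of_nonneg_left he1 h9
    linarith
  have h7 : (m : ℝ) * n.choose (m + 1) ≤ n * n.choose m := by
    have h8 := Nat.choose_succ_right_eq n m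
    have h9 : m * n.choose (m + 1) ≤ n * n.choose m := by
      calc m * n.choose (m + 1) ≤ n.choose (m + 1) * (m + 1) := by
            rw [mul_comm]
            exact Nat.mul_le_mul_left _ (Nat.le_succ m)
        _ = n.choose m * (n - m) := h8
        _ ≤ n.choose m * n := Nat.mul_le_mul_left _ (Nat.sub_le _ _)
        _ = n * n.choose m := mul_comm _ _
    exact_mod_cast h9
  have h8 := ee_ge hz0 (fun p hp => (hP p hp).pos) hPz m
  rw [← hn] at h8
  have hC : (0 : ℝ) ≤ n.choose m := Nat.cast_nonneg _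
  have h9 : (n.choose m : ℝ) * ((1 / z) ^ m / 4) ≤
      (ee P m - n.choose m * τ) - m * (ee P (m + 1) + n.choose (m + 1) * τ) := by
    have h10 : (m : ℝ) * n.choose (m + 1) * τ ≤ n * n.choose m * τ :=
      mul_le_mul_of_nonneg_right h7 hτ0
    have h11 : (n.choose m : ℝ) * ((1 + n) * τ) ≤ n.choose m * ((1 / z) ^ m / 4) :=
      mul_le_mul_of_nonneg_left herr hC
    nlinarith
  have h10 : (0 : ℝ) < 2 ^ l := by positivity
  have h11 : (2 : ℝ) ^ l * ((n.choose m : ℝ) * ((1 / z) ^ m / 4)) ≤ (AA l k).card := by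
    have h12 := mul_le_mul_of_nonneg_left h9 h10.le
    have h13 := mul_le_mul_of_nonneg_left h2 (show (0 : ℝ) ≤ m by linarith)
    calc (2 : ℝ) ^ l * ((n.choose m : ℝ) * ((1 / z) ^ m / 4)) ≤
        2 ^ l * ((ee P m - n.choose m * τ) - m * (ee P (m + 1) + n.choose (m + 1) * τ)) := h12
      _ = 2 ^ l * (ee P m - n.choose m * τ) -
          m * (2 ^ l * (ee P (m + 1) + n.choose (m + 1) * τ)) := by ring
      _ ≤ _ := by linarith
  refine le_trans ?_ h11
  have h12 := choose_ge hm hmn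
  have h13 : ((n : ℝ) / (2 * m * z)) ^ m = ((n : ℝ) / (2 * m)) ^ m * (1 / z) ^ m := by
    rw [← mul_pow]
    congr 1
    field_simp
  rw [h13, mul_div_assoc, mul_div_assoc]
  refine mul_le_mul_of_nonneg_left ?_ h10.le
  exact mul_le_mul_of_nonneg_right h12 (by positivity)

end Pool.Agent.Work.MP_aac176_nt.Low
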