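import Pool.Agent.Work.MP_aac176_nt.Low.Bonf

/-!
MP_aac176_nt, lower bound: the combinatorial theorem with explicit parameters.
-/

set_option autoImplicit false

namespace Pool.Agent.Work.MP_aac176_nt.Low

open Finset

/-- a smooth number divides a power of the primorial. -/
theorem dvd_primorial_pow {n y L : ℕ} (hn : 0 < n) (hnL : n < 2 ^ L)
    (hr : ∀ r : ℕ, r.Prime → r ∣ n → r ≤ y) : n ∣ primorial y ^ L := by
  have hP : primorial y ≠ 0 := (primorial_pos y).ne'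
  rw [← Nat.factorization_prime_le_iff_dvd hn.ne' (pow_ne_zero _ hP)]
  intro r hrp
  rw [Nat.factorization_pow]
  show n.factorization r ≤ L * (primorial y).factorization r
  by_cases h : r ∣ n
  · have h1 : r ∣ primorial y := by
      rw [primorial]
      refine dvd_prod_of_mem _ ?_
      rw [mem_filter, mem_range]
      exact ⟨by have := hr r hrp h; omega, hrp⟩
    have h2 : 1 ≤ (primorial y).factorization r := (hrp.dvd_iff_one_le_factorization hP).1 h1
    have h3 : n.factorization r ≤ L := by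
      have h4 : r ^ n.factorization r ≤ n := Nat.ordProj_le r hn.ne'
      have h5 : 2 ^ n.factorization r ≤ r ^ n.factorization r :=
        Nat.pow_le_pow_left hrp.two_le _
      have h6 : 2 ^ n.factorization r < 2 ^ L := by omega
      exact ((Nat.pow_lt_pow_iff_right (by norm_num)).1 h6).le
    calc n.factorization r ≤ L := h3
      _ = L * 1 := (mul_one L).symm
      _ ≤ L * (primorial y).factorization r := Nat.mul_le_mul_left _ h2
  · rw [Nat.factorization_eq_zero_of_not_dvd h]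
    exact Nat.zero_le _

theorem prime_dvd_MM {p l : ℕ} (hp : p.Prime) (hp3 : 3 < p) (hl : p - 1 ∣ l) : p ∣ MM l := by
  have h1 : 3 ^ l ≡ 1 [MOD p] := by
    obtain ⟨c, rfl⟩ := hl
    rw [pow_mul]
    have h2 : 3 ^ (p - 1) ≡ 1 [MOD p] := by
      have h3 : Nat.Coprime 3 p := (Nat.coprime_primes Nat.prime_three hp).2 (by omega)
      have h4 := Nat.ModEq.pow_totient h3
      rwa [Nat.totient_prime hp] at h4
    have h3 := h2.pow c
    rwa [one_pow] at h3
  have h2 : p ∣ 3 ^ l - 1 := (Nat.modEq_iff_dvd' (Nat.one_le_pow _ _ (by norm_num))).1 h1.symm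
  rw [← two_MM] at h2
  rcases (Nat.Prime.dvd_mul hp).1 h2 with h | h
  · have := Nat.le_of_dvd (by norm_num) h
    omega
  · exact h

/-- the count, in terms of `N_j`. -/
theorem key_ineq {l k m r t j : ℕ} {P : Finset ℕ} {z w : ℝ} (hz : 1 ≤ z) (hw : 0 ≤ w)
    (hm : 1 ≤ m) (hmn : 2 * m ≤ P.card) (hP : ∀ p ∈ P, p.Prime) (hP3 : ∀ p ∈ P, p ≠ 3)
    (hPM : ∀ p ∈ P, p ∣ MM l) (hPz : ∀ p ∈ P, (p : ℝ) ≤ z) (hPw : ∀ p ∈ P, w ≤ p)
    (hk : (3 : ℝ) ^ k ≤ w ^ m) (he1 : ∑ p ∈ P, (1 / p : ℝ) ≤ 1 / 2) (ht : 0 < t)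
    (hzt : z ^ (m + 1) ≤ 2 * 3 ^ t) (hr : r * t ≤ l)
    (herr : (1 + P.card : ℝ) * (7 / 8) ^ r ≤ (1 / z) ^ m / 4) (hkl : k < l) (hj : l ≤ j) :
    2 ^ (j + k) * ((P.card : ℝ) / (2 * m * z)) ^ m / 4 ≤ l * ((S j).ncard : ℝ) := by
  have h1 := card_AA_ge (k := k) (show 0 < l by omega) hz hw hm hmn hP hP3 hPM hPz hPw hk he1 ht
    hzt hr herr
  have h2 := transfer hkl (show l - k ≤ j by omega)
  have h3 : (2 : ℝ) ^ (j - (l - k)) * ((AA l k).card : ℝ) ≤ l * ((S j).ncard : ℝ) := by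
    exact_mod_cast h2
  refine le_trans ?_ h3
  have h4 : (2 : ℝ) ^ (j + k) = 2 ^ (j - (l - k)) * 2 ^ l := by
    rw [← pow_add]
    congr 1
    omega
  rw [h4]
  calc (2 : ℝ) ^ (j - (l - k)) * 2 ^ l * ((P.card : ℝ) / (2 * m * z)) ^ m / 4 =
      2 ^ (j - (l - k)) * (2 ^ l * ((P.card : ℝ) / (2 * m * z)) ^ m / 4) := by ring
    _ ≤ _ := mul_le_mul_of_nonneg_left h1 (by positivity)

/-- the same with the parameters `w = z / 2`, `L` digits, `k`, `r`, `t` chosen. -/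
theorem key_ineq2 {l m L j : ℕ} {P : Finset ℕ} {z : ℕ} (hz : 8 ≤ z) (hzL : z < 2 ^ L)
    (hm : 1 ≤ m) (hmn : 2 * m ≤ P.card) (hP : ∀ p ∈ P, p.Prime) (hPz : ∀ p ∈ P, p ≤ z)
    (hPw : ∀ p ∈ P, z / 2 < p) (hPl : ∀ p ∈ P, p - 1 ∣ l) (hcard : 4 * P.card ≤ z)
    (hr : 6 * ((m + 2) * L) * ((m + 1) * L) ≤ l) (hj : l ≤ j) :
    (2 : ℝ) ^ j * ((z / 2 : ℝ) ^ (Real.log 2 / Real.log 3) * ((P.card : ℝ) / (2 * m * z))) ^ m / 8 ≤
      l * ((S j).ncard : ℝ) := by
  have hzR : (8 : ℝ) ≤ z := by exact_mod_cast hz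
  have hL0 : 0 < L := by
    rcases Nat.eq_zero_or_pos L with h | h
    · subst h
      simp at hzL
      omega
    · exact h
  have hPw' : ∀ p ∈ P, (z / 2 : ℝ) ≤ p := by
    intro p hp
    have h1 := hPw p hp
    have h2 : z ≤ 2 * p := by omega
    have h3 : (z : ℝ) ≤ 2 * p := by exact_mod_cast h2
    linarith
  have hw1 : (1 : ℝ) < z / 2 := by linarith
  set k := ⌊(m : ℝ) * (Real.log (z / 2) / Real.log 3)⌋₊ with hk
  have hlog3 : 0 < Real.log 3 := Real.log_pos (by norm_num)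
  have hlog2 : 0 < Real.log 2 := Real.log_pos (by norm_num)
  have hlogw : 0 < Real.log (z / 2 : ℝ) := Real.log_pos hw1
  have hk1 : (3 : ℝ) ^ k ≤ (z / 2 : ℝ) ^ m := by
    rw [← Real.rpow_natCast 3 k, ← Real.rpow_natCast (z / 2 : ℝ) m,
      Real.rpow_def_of_pos (by norm_num), Real.rpow_def_of_pos (by linarith)]
    refine Real.exp_le_exp.2 ?_
    have h1 : (k : ℝ) ≤ (m : ℝ) * (Real.log (z / 2) / Real.log 3) := Nat.floor_le (by positivity)
    calc Real.log 3 * k ≤ Real.log 3 * ((m : ℝ) * (Real.log (z / 2) / Real.log 3)) :=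
          mul_le_mul_of_nonneg_left h1 hlog3.le
      _ = Real.log (z / 2) * m := by field_simp
  have hk2 : ((z / 2 : ℝ) ^ (Real.log 2 / Real.log 3)) ^ m ≤ 2 ^ (k + 1) := by
    have h0 : ((z / 2 : ℝ) ^ (Real.log 2 / Real.log 3)) ^ m =
        Real.exp (Real.log (z / 2) * (Real.log 2 / Real.log 3) * m) := by
      rw [Real.rpow_def_of_pos (by linarith), ← Real.exp_nat_mul]
      congr 1
      ring
    have h0' : (2 : ℝ) ^ (k + 1) = Real.exp (Real.log 2 * ((k : ℝ) + 1)) := by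
      rw [← Real.rpow_natCast 2 (k + 1), Real.rpow_def_of_pos (by norm_num)]
      push_cast
      rfl
    rw [h0, h0']
    refine Real.exp_le_exp.2 ?_
    have h1 : (m : ℝ) * (Real.log (z / 2) / Real.log 3) ≤ (k : ℝ) + 1 :=
      (Nat.lt_floor_add_one _).le
    calc Real.log (z / 2) * (Real.log 2 / Real.log 3) * m =
        Real.log 2 * ((m : ℝ) * (Real.log (z / 2) / Real.log 3)) := by ring
      _ ≤ Real.log 2 * ((k : ℝ) + 1) := mul_le_mul_of_nonneg_left h1 hlog2.le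
  have hzL' : (z : ℝ) ≤ 2 ^ L := by exact_mod_cast hzL.le
  have hkl : k < l := by
    have h1 : (3 : ℝ) ^ k < 3 ^ (m * L) := by
      refine hk1.trans_lt ?_
      rw [mul_comm, pow_mul]
      refine pow_lt_pow_left₀ ?_ (by linarith) (by omega)
      have h2 : (2 : ℝ) ^ L ≤ 3 ^ L := pow_le_pow_left₀ (by norm_num) (by norm_num) L
      linarith
    have h2 : k < m * L := (pow_lt_pow_iff_right₀ (by norm_num : (1 : ℝ) < 3)).1 h1
    have h3 : m * L ≤ 6 * ((m + 2) * L) * ((m + 1) * L) := by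
      have h4 : m * L ≤ 6 * ((m + 2) * L) := by nlinarith
      have h5 : 1 ≤ (m + 1) * L := Nat.mul_pos (by omega) hL0
      calc m * L ≤ 6 * ((m + 2) * L) := h4
        _ = 6 * ((m + 2) * L) * 1 := (mul_one _).symm
        _ ≤ _ := Nat.mul_le_mul_left _ h5
    omega
  have hmain := key_ineq (l := l) (k := k) (m := m) (r := 6 * ((m + 2) * L)) (t := (m + 1) * L)
    (j := j) (P := P) (z := z) (w := z / 2) (by linarith) (by linarith) hm hmn hP
    (fun p hp => by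
      have := hPw p hp
      omega)
    (fun p hp => prime_dvd_MM (hP p hp) (by have := hPw p hp; omega) (hPl p hp))
    (fun p hp => by exact_mod_cast hPz p hp) hPw' hk1 ?_ (Nat.mul_pos (by omega) hL0) ?_ hr ?_ hkl hj
  · refine le_trans ?_ hmain
    have h1 : (0 : ℝ) ≤ ((P.card : ℝ) / (2 * m * z)) ^ m := by positivity
    rw [mul_pow, pow_add]
    have h2 : (2 : ℝ) ^ j * (((z / 2 : ℝ) ^ (Real.log 2 / Real.log 3)) ^ m *
        ((P.card : ℝ) / (2 * m * z)) ^ m) ≤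
        2 ^ j * (2 ^ (k + 1) * ((P.card : ℝ) / (2 * m * z)) ^ m) :=
      mul_le_mul_of_nonneg_left (mul_le_mul_of_nonneg_right hk2 h1) (by positivity)
    have h3 : (2 : ℝ) ^ j * (2 ^ (k + 1) * ((P.card : ℝ) / (2 * m * z)) ^ m) =
        2 * (2 ^ j * 2 ^ k * ((P.card : ℝ) / (2 * m * z)) ^ m) := by
      rw [pow_succ]
      ring
    rw [h3] at h2
    linarith
  · have h1 : ∀ p ∈ P, (1 / p : ℝ) ≤ 2 / z := by
      intro p hp
      have h2 := hPw' p hp
      rw [div_le_div_iff₀ (by linarith) (by linarith)]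
      linarith
    refine (sum_le_card_nsmul _ _ _ h1).trans ?_
    rw [nsmul_eq_mul]
    have h2 : 4 * (P.card : ℝ) ≤ z := by exact_mod_cast hcard
    rw [mul_div_assoc', div_le_iff₀ (by linarith)]
    linarith
  · rw [pow_mul' (3 : ℝ), ← pow_mul, mul_comm L (m + 1), ← mul_comm L (m + 1), pow_mul]
    have h1 : (2 : ℝ) ^ L ≤ 3 ^ L := pow_le_pow_left₀ (by norm_num) (by norm_num) L
    have h2 : (z : ℝ) ^ (m + 1) ≤ (3 ^ L) ^ (m + 1) := pow_le_pow_left₀ (by linarith) (by linarith) _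
    have h3 : (0 : ℝ) ≤ (3 ^ L) ^ (m + 1) := by positivity
    linarith
  · have h1 : (7 / 8 : ℝ) ^ 6 ≤ 1 / 2 := by norm_num
    have h2 : (7 / 8 : ℝ) ^ (6 * ((m + 2) * L)) ≤ (1 / z) ^ (m + 2) := by
      calc (7 / 8 : ℝ) ^ (6 * ((m + 2) * L)) = ((7 / 8 : ℝ) ^ 6) ^ ((m + 2) * L) := pow_mul _ _ _
        _ ≤ (1 / 2) ^ ((m + 2) * L) := pow_le_pow_left₀ (by positivity) h1 _
        _ = ((1 / 2) ^ L) ^ (m + 2) := by rw [mul_comm, pow_mul]
        _ ≤ (1 / z) ^ (m + 2) := by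
          refine pow_le_pow_left₀ (by positivity) ?_ _
          rw [one_div_pow]
          exact one_div_le_one_div_of_le (by linarith) hzL'
    have h3 : (1 + P.card : ℝ) * (1 / z) ^ 2 ≤ 1 / 4 := by
      have h4 : 4 * (P.card : ℝ) ≤ z := by exact_mod_cast hcard
      rw [one_div_pow, mul_one_div, div_le_iff₀ (by positivity)]
      nlinarith
    calc (1 + P.card : ℝ) * (7 / 8) ^ (6 * ((m + 2) * L)) ≤ (1 + P.card : ℝ) * (1 / z) ^ (m + 2) :=
          mul_le_mul_of_nonneg_left h2 (by positivity)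
      _ = ((1 + P.card : ℝ) * (1 / z) ^ 2) * (1 / z) ^ m := by
          rw [pow_add]
          ring
      _ ≤ 1 / 4 * (1 / z) ^ m := mul_le_mul_of_nonneg_right h3 (by positivity)
      _ = (1 / z) ^ m / 4 := by ring

end Pool.Agent.Work.MP_aac176_nt.Low
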