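import Pool.Agent.Work.MP_aac176_nt.Low.Mono

/-!
MP_aac176_nt, lower bound: purely periodic points whose denominator is small.
-/

set_option autoImplicit false

namespace Pool.Agent.Work.MP_aac176_nt.Low

open Finset

/-- the number with ternary digits `1` at the places in `s`. -/
def bb (s : Finset ℕ) : ℕ := ∑ i ∈ s, 3 ^ i

theorem bb_inj : Function.Injective bb := Finset.geomSum_injective (by norm_num)

theorem bb_le {l : ℕ} {s : Finset ℕ} (hs : s ⊆ range l) : 2 * bb s ≤ 3 ^ l - 1 := by
  have h1 : bb s ≤ ∑ i ∈ range l, 3 ^ i := sum_le_sum_of_subset hs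
  have h2 : (∑ i ∈ range l, 3 ^ i) * 2 + 1 = 3 ^ l := by
    have := geom_sum_mul_add 2 l
    exact this
  omega

/-- the cyclic shift. -/
def shift (l : ℕ) (s : Finset ℕ) : Finset ℕ :=
  ((s.erase l).map (addRightEmbedding 1)) ∪ (if l ∈ s then {0} else ∅)

theorem shift_subset {l : ℕ} {s : Finset ℕ} (hs : s ⊆ range (l + 1)) :
    shift l s ⊆ range (l + 1) := by
  intro i hi
  rw [shift, mem_union] at hi
  rcases hi with hi | hi
  · rw [mem_map] at hi
    obtain ⟨k, hk, rfl⟩ := hi
    have h1 := mem_range.1 (hs (mem_of_mem_erase hk))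
    have h2 := ne_of_mem_erase hk
    rw [addRightEmbedding_apply, mem_range]
    omega
  · split_ifs at hi
    · rw [mem_singleton] at hi
      subst hi
      simp
    · simp at hi

theorem bb_shift {l : ℕ} (s : Finset ℕ) :
    3 * bb s + (if l ∈ s then 1 else 0) = bb (shift l s) + (if l ∈ s then 3 ^ (l + 1) else 0) := by
  have h1 : bb ((s.erase l).map (addRightEmbedding 1)) = 3 * bb (s.erase l) := by
    rw [bb, sum_map, bb, mul_sum]
    refine sum_congr rfl fun i _ => ?_
    rw [addRightEmbedding_apply, pow_succ]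
    ring
  by_cases hl : l ∈ s
  · have h2 : bb (shift l s) = 3 * bb (s.erase l) + 1 := by
      rw [shift, if_pos hl, bb, sum_union, ← bb, h1, sum_singleton, pow_zero]
      rw [disjoint_singleton_right, mem_map]
      rintro ⟨k, -, hk⟩
      rw [addRightEmbedding_apply] at hk
      omega
    have h3 : bb s = bb (s.erase l) + 3 ^ l := (sum_erase_add s _ hl).symm
    rw [if_pos hl, if_pos hl, h2, h3, pow_succ]
    ring
  · have h2 : bb (shift l s) = 3 * bb s := by
      rw [shift, if_neg hl, union_empty, h1, erase_eq_of_notMem hl]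
    rw [if_neg hl, if_neg hl, h2]

theorem point_mem {l : ℕ} {s : Finset ℕ} (hs : s ⊆ range (l + 1)) :
    (2 * (bb s : ℝ)) / ((3 : ℝ) ^ (l + 1) - 1) ∈ cantorSet := by
  have hpos : (0 : ℝ) < (3 : ℝ) ^ (l + 1) - 1 := by
    have : (1 : ℝ) < 3 ^ (l + 1) := one_lt_pow₀ (by norm_num) (by omega)
    linarith
  rw [cantorSet, Set.mem_iInter]
  intro n
  induction n generalizing s with
  | zero =>
    rw [preCantorSet_zero]
    refine ⟨by positivity, ?_⟩
    rw [div_le_one hpos]
    have h1 := bb_le hs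
    have h2 : 2 * bb s + 1 ≤ 3 ^ (l + 1) := by
      have : 0 < 3 ^ (l + 1) := by positivity
      omega
    have h3 : (2 * (bb s : ℝ)) + 1 ≤ 3 ^ (l + 1) := by exact_mod_cast h2
    linarith
  | succ n ih =>
    rw [preCantorSet_succ]
    have h1 := ih (shift_subset hs)
    have h2 := bb_shift (l := l) s
    by_cases hl : l ∈ s
    · right
      refine ⟨_, h1, ?_⟩
      rw [if_pos hl, if_pos hl] at h2
      have h3 : 3 * (bb s : ℝ) + 1 = bb (shift l s) + 3 ^ (l + 1) := by exact_mod_cast h2
      show (2 + 2 * (bb (shift l s) : ℝ) / ((3 : ℝ) ^ (l + 1) - 1)) / 3 = _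
      field_simp
      linarith
    · left
      refine ⟨_, h1, ?_⟩
      rw [if_neg hl, if_neg hl] at h2
      have h3 : 3 * (bb s : ℝ) = bb (shift l s) := by exact_mod_cast h2
      show 2 * (bb (shift l s) : ℝ) / ((3 : ℝ) ^ (l + 1) - 1) / 3 = _
      field_simp
      linarith

/-- `(3^l - 1) / 2`. -/
def MM (l : ℕ) : ℕ := (3 ^ l - 1) / 2

theorem two_MM (l : ℕ) : 2 * MM l = 3 ^ l - 1 := by
  have h2 : (∑ i ∈ range l, 3 ^ i) * 2 + 1 = 3 ^ l := by
    have := geom_sum_mul_add 2 l
    exact this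
  rw [MM]
  omega

theorem MM_pos {l : ℕ} (hl : 0 < l) : 0 < MM l := by
  have h1 := two_MM l
  have h2 : 3 ^ 1 ≤ 3 ^ l := Nat.pow_le_pow_right (by norm_num) hl
  omega

theorem MM_lt (l : ℕ) : MM l < 3 ^ l := by
  have h1 := two_MM l
  have h2 : 0 < 3 ^ l := by positivity
  omega

/-- the subsets whose number has a large common divisor with `MM l`. -/
def AA (l k : ℕ) : Finset (Finset ℕ) :=
  (range l).powerset.filter fun s => 3 ^ k ≤ Nat.gcd (bb s) (MM l)

theorem card_AA_le {l k : ℕ} (hl : 0 < l) :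
    (AA l k).card ≤ ∑ j ∈ range (l - k), (S j).ncard := by
  have h1 : (AA l k).card ≤ (⋃ j ∈ range (l - k), S j).ncard := by
    have hfin : (⋃ j ∈ range (l - k), S j).Finite :=
      (range (l - k)).finite_toSet.biUnion fun j _ => S_finite j
    rw [← Set.ncard_coe_finset]
    refine Set.ncard_le_ncard_of_injOn
      (fun s => (bb s / Nat.gcd (bb s) (MM l), MM l / Nat.gcd (bb s) (MM l))) ?_ ?_ hfin
    · intro s hs
      rw [mem_coe, AA, mem_filter, mem_powerset] at hs
      obtain ⟨hs, hg⟩ := hs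
      have hM := MM_pos hl
      have hgpos : 0 < Nat.gcd (bb s) (MM l) := Nat.gcd_pos_of_pos_right _ hM
      set G := Nat.gcd (bb s) (MM l) with hG
      have hq : 0 < MM l / G := Nat.div_pos (Nat.le_of_dvd hM (Nat.gcd_dvd_right _ _)) hgpos
      have hqk : MM l / G < 3 ^ (l - k) := by
        have h2 : MM l / G * 3 ^ k ≤ MM l := by
          calc MM l / G * 3 ^ k ≤ MM l / G * G := Nat.mul_le_mul_left _ hg
            _ ≤ MM l := Nat.div_mul_le_self _ _
        have h3 := MM_lt l
        by_contra hcon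
        push Not at hcon
        have h4 : 3 ^ l ≤ 3 ^ (l - k) * 3 ^ k := by
          rw [← pow_add]
          exact Nat.pow_le_pow_right (by norm_num) (by omega)
        have h5 := Nat.mul_le_mul_right (3 ^ k) hcon
        omega
      rw [Set.mem_iUnion₂]
      refine ⟨Nat.log 3 (MM l / G), ?_, ?_, ?_, ?_, ?_⟩
      · rw [mem_range]
        exact Nat.log_lt_of_lt_pow hq.ne' hqk
      · exact Nat.coprime_div_gcd_div_gcd hgpos
      · exact Nat.pow_log_le_self 3 hq.ne'
      · exact Nat.lt_pow_succ_log_self (by norm_num) _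
      · show ((bb s / G : ℕ) : ℝ) / ((MM l / G : ℕ) : ℝ) ∈ cantorSet
        have hGr : (G : ℝ) ≠ 0 := by exact_mod_cast hgpos.ne'
        rw [Nat.cast_div (Nat.gcd_dvd_left _ _) hGr, Nat.cast_div (Nat.gcd_dvd_right _ _) hGr,
          div_div_div_cancel_right₀ hGr]
        obtain ⟨l', rfl⟩ : ∃ l', l = l' + 1 := ⟨l - 1, by omega⟩
        have h6 := point_mem hs
        have h7 : (2 : ℝ) * MM (l' + 1) = 3 ^ (l' + 1) - 1 := by
          have h8 : 2 * MM (l' + 1) + 1 = 3 ^ (l' + 1) := by
            have := two_MM (l' + 1)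
            have h9 : 0 < 3 ^ (l' + 1) := by positivity
            omega
          have h9 : (2 : ℝ) * MM (l' + 1) + 1 = 3 ^ (l' + 1) := by exact_mod_cast h8
          linarith
        rw [← h7, mul_div_mul_left _ _ (by norm_num : (2 : ℝ) ≠ 0)] at h6
        exact h6
    · intro s _ t _ he
      simp only [Prod.mk.injEq] at he
      obtain ⟨e1, e2⟩ := he
      have hM := MM_pos hl
      have h2 : Nat.gcd (bb s) (MM l) = Nat.gcd (bb t) (MM l) := by
        have h3 := Nat.div_mul_cancel (Nat.gcd_dvd_right (bb s) (MM l))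
        have h4 := Nat.div_mul_cancel (Nat.gcd_dvd_right (bb t) (MM l))
        rw [← e2] at h4
        have h5 : 0 < MM l / Nat.gcd (bb s) (MM l) :=
          Nat.div_pos (Nat.le_of_dvd hM (Nat.gcd_dvd_right _ _)) (Nat.gcd_pos_of_pos_right _ hM)
        exact Nat.eq_of_mul_eq_mul_left h5 (h3.trans h4.symm)
      have h3 := Nat.div_mul_cancel (Nat.gcd_dvd_left (bb s) (MM l))
      have h4 := Nat.div_mul_cancel (Nat.gcd_dvd_left (bb t) (MM l))
      rw [e1, h2] at h3
      exact bb_inj (h3.symm.trans h4)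
  refine h1.trans ?_
  have h2 : ∀ R : Finset ℕ, (⋃ j ∈ R, S j).ncard ≤ ∑ j ∈ R, (S j).ncard := by
    intro R
    induction R using Finset.induction_on with
    | empty => simp
    | insert a R ha ih =>
      rw [Finset.set_biUnion_insert, sum_insert ha]
      exact (Set.ncard_union_le _ _).trans (Nat.add_le_add_left ih _)
  exact h2 _

/-- **Transfer.** -/
theorem transfer {l k j : ℕ} (hk : k < l) (hj : l - k ≤ j) :
    2 ^ (j - (l - k)) * (AA l k).card ≤ l * (S j).ncard := by
  have h1 := card_AA_le (k := k) (show 0 < l by omega)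
  obtain ⟨i, hi, hmax⟩ := Finset.exists_max_image (range (l - k)) (fun j => (S j).ncard)
    ⟨0, mem_range.2 (by omega)⟩
  have hi' := mem_range.1 hi
  have h2 : (AA l k).card ≤ l * (S i).ncard := by
    refine h1.trans ((sum_le_card_nsmul _ _ _ hmax).trans ?_)
    rw [card_range, smul_eq_mul]
    exact Nat.mul_le_mul_right _ (by omega)
  obtain ⟨s, rfl⟩ : ∃ s, j = i + s + 1 := ⟨j - i - 1, by omega⟩
  have h3 := card_mono i s
  have h4 : 2 ^ (i + s + 1 - (l - k)) ≤ 2 ^ s := Nat.pow_le_pow_right (by norm_num) (by omega)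
  calc 2 ^ (i + s + 1 - (l - k)) * (AA l k).card ≤ 2 ^ s * (l * (S i).ncard) :=
        Nat.mul_le_mul h4 h2
    _ = l * (2 ^ s * (S i).ncard) := by ring
    _ ≤ l * (S (i + s + 1)).ncard := Nat.mul_le_mul_left _ h3

end Pool.Agent.Work.MP_aac176_nt.Low
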