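import Pool.Agent.Work.MP_aac176_nt.Expo
import Pool.Agent.Work.MP_aac176_nt.Low.Points

/-!
MP_aac176_nt, lower bound: equidistribution of the sums of distinct powers of `3` modulo `d`.
-/

set_option autoImplicit false

namespace Pool.Agent.Work.MP_aac176_nt.Low

open Finset Real

theorem norm_one_add_e' (y : ℝ) : ‖1 + e y‖ ^ 2 = 2 + 2 * Real.cos (2 * π * y) := by
  unfold e
  rw [show (2 * π * y * Complex.I : ℂ) = ((2 * π * y : ℝ) : ℂ) * Complex.I by push_cast; ring]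
  rw [Complex.exp_mul_I, Complex.sq_norm, Complex.normSq_apply]
  rw [← Complex.ofReal_cos, ← Complex.ofReal_sin]
  simp only [Complex.add_re, Complex.one_re, Complex.mul_re, Complex.ofReal_re, Complex.I_re,
    Complex.ofReal_im, Complex.I_im, Complex.add_im, Complex.one_im, Complex.mul_im]
  have := Real.sin_sq_add_cos_sq (2 * π * y)
  ring_nf
  ring_nf at this
  linarith

theorem norm_one_add_e_le (y : ℝ) : ‖1 + e y‖ ≤ 2 := by
  refine (norm_add_le _ _).trans ?_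
  rw [norm_one, norm_e]
  norm_num

theorem norm_one_add_e_far {y : ℝ} (h : ∀ m : ℤ, 1 / 6 ≤ |y - m|) : ‖1 + e y‖ ≤ 7 / 4 := by
  have h1 := h (round y)
  have h2 := abs_sub_round y
  have h3 : Real.cos (2 * π * y) = Real.cos (2 * π * |y - round y|) := by
    have h4 : 2 * π * y = 2 * π * (y - round y) + (round y : ℤ) * (2 * π) := by ring
    rw [h4, Real.cos_add_int_mul_two_pi]
    rw [← Real.cos_abs, abs_mul, abs_of_pos (by positivity : (0 : ℝ) < 2 * π)]
  have h5 : Real.cos (2 * π * |y - round y|) ≤ 1 / 2 := by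
    rw [← Real.cos_pi_div_three]
    have hpi := Real.pi_pos
    apply Real.cos_le_cos_of_nonneg_of_le_pi
    · positivity
    · nlinarith
    · nlinarith
  have h6 := norm_one_add_e' y
  rw [h3] at h6
  have h7 := norm_nonneg (1 + e y)
  nlinarith

/-- Among `t` consecutive multiples one is far from the integers. -/
theorem exists_far {d t : ℕ} (hd : 0 < d) (hd3 : Nat.Coprime d 3) (ht : 0 < t)
    (hdt : d ≤ 2 * 3 ^ t) {h : ℕ} (hh : ¬ d ∣ h) (i₀ : ℕ) :
    ∃ i, i₀ ≤ i ∧ i < i₀ + t ∧ ∀ m : ℤ, 1 / 6 ≤ |(h : ℝ) * 3 ^ i / d - m| := by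
  by_contra hcon
  push Not at hcon
  choose! M hM using hcon
  have hdr : (0 : ℝ) < d := by exact_mod_cast hd
  have key : ∀ s, s < t → (h : ℝ) * 3 ^ (i₀ + s) / d - M (i₀ + s) =
      3 ^ s * ((h : ℝ) * 3 ^ i₀ / d - M i₀) := by
    intro s
    induction s with
    | zero => intro _; simp
    | succ s ih =>
      intro hs
      have h1 := ih (by omega)
      have h2 := hM (i₀ + s) (by omega) (by omega)
      have h3 := hM (i₀ + (s + 1)) (by omega) (by omega)
      have h4 : (h : ℝ) * 3 ^ (i₀ + (s + 1)) / d = 3 * ((h : ℝ) * 3 ^ (i₀ + s) / d) := by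
        rw [← add_assoc, pow_succ]
        ring
      have h5 : M (i₀ + (s + 1)) = 3 * M (i₀ + s) := by
        rw [abs_lt] at h2 h3
        rw [h4] at h3
        have h6 : ((M (i₀ + (s + 1)) - 3 * M (i₀ + s) : ℤ) : ℝ) < 1 := by
          push_cast
          linarith [h2.1, h2.2, h3.1, h3.2]
        have h7 : (-1 : ℝ) < ((M (i₀ + (s + 1)) - 3 * M (i₀ + s) : ℤ) : ℝ) := by
          push_cast
          linarith [h2.1, h2.2, h3.1, h3.2]
        have h8 : M (i₀ + (s + 1)) - 3 * M (i₀ + s) < 1 := by exact_mod_cast h6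
        have h9 : -1 < M (i₀ + (s + 1)) - 3 * M (i₀ + s) := by exact_mod_cast h7
        omega
      rw [h4, h5]
      push_cast
      rw [pow_succ]
      linear_combination 3 * h1
  have h1 := key (t - 1) (by omega)
  have h2 := hM (i₀ + (t - 1)) (by omega) (by omega)
  rw [h1, abs_mul, abs_of_pos (by positivity : (0 : ℝ) < 3 ^ (t - 1))] at h2
  have h3 : (1 : ℝ) / d ≤ |(h : ℝ) * 3 ^ i₀ / d - M i₀| := by
    have h4 : (h : ℝ) * 3 ^ i₀ / d - M i₀ = (((h * 3 ^ i₀ : ℕ) : ℤ) - d * M i₀ : ℤ) / d := by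
      push_cast
      field_simp
    rw [h4, abs_div, abs_of_pos hdr]
    refine div_le_div_of_nonneg_right ?_ hdr.le
    rw [← Int.cast_abs]
    have h5 : ((h * 3 ^ i₀ : ℕ) : ℤ) - d * M i₀ ≠ 0 := by
      intro h6
      have h7 : (d : ℤ) ∣ ((h * 3 ^ i₀ : ℕ) : ℤ) := ⟨M i₀, by linarith⟩
      have h8 : d ∣ h * 3 ^ i₀ := by exact_mod_cast h7
      exact hh ((Nat.Coprime.dvd_mul_right (hd3.pow_right i₀)).1 h8)
    exact_mod_cast Int.one_le_abs h5
  have h4 : (1 : ℝ) / 6 ≤ 3 ^ (t - 1) * (1 / d) := by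
    have h5 : (d : ℝ) ≤ 6 * 3 ^ (t - 1) := by
      have h6 : d ≤ 6 * 3 ^ (t - 1) := by
        obtain ⟨t', rfl⟩ : ∃ t', t = t' + 1 := ⟨t - 1, by omega⟩
        rw [Nat.add_sub_cancel]
        rw [pow_succ] at hdt
        omega
      exact_mod_cast h6
    rw [mul_one_div, div_le_div_iff₀ (by norm_num) hdr]
    linarith
  have h5 : (3 : ℝ) ^ (t - 1) * (1 / d) ≤ 3 ^ (t - 1) * |(h : ℝ) * 3 ^ i₀ / d - M i₀| :=
    mul_le_mul_of_nonneg_left h3 (by positivity)
  linarith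

theorem prod_block {a : ℕ → ℝ} (ha0 : ∀ i, 0 ≤ a i) (ha2 : ∀ i, a i ≤ 2) {t : ℕ}
    (hblk : ∀ i₀, ∃ i, i₀ ≤ i ∧ i < i₀ + t ∧ a i ≤ 7 / 4) (r : ℕ) :
    ∏ i ∈ range (r * t), a i ≤ 2 ^ (r * t) * (7 / 8) ^ r := by
  induction r with
  | zero => simp
  | succ r ih =>
    have h1 : ∏ x ∈ range t, a (r * t + x) ≤ 2 ^ t * (7 / 8) := by
      obtain ⟨i, h1, h2, h3⟩ := hblk (r * t)
      obtain ⟨x, rfl⟩ : ∃ x, i = r * t + x := ⟨i - r * t, by omega⟩
      have hx : x ∈ range t := by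
        rw [mem_range]
        omega
      rw [← mul_prod_erase _ _ hx]
      have h4 : ∏ y ∈ (range t).erase x, a (r * t + y) ≤ 2 ^ (t - 1) := by
        have h5 : ∏ y ∈ (range t).erase x, a (r * t + y) ≤ ∏ y ∈ (range t).erase x, (2 : ℝ) :=
          prod_le_prod (fun _ _ => ha0 _) fun _ _ => ha2 _
        rwa [prod_const, card_erase_of_mem hx, card_range] at h5
      calc a (r * t + x) * ∏ y ∈ (range t).erase x, a (r * t + y)
          ≤ 7 / 4 * 2 ^ (t - 1) := mul_le_mul h3 h4 (prod_nonneg fun _ _ => ha0 _) (by norm_num)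
        _ = 2 ^ t * (7 / 8) := by
          obtain ⟨t', rfl⟩ : ∃ t', t = t' + 1 := ⟨t - 1, by omega⟩
          rw [Nat.add_sub_cancel, pow_succ]
          ring
    rw [Nat.succ_mul, prod_range_add]
    calc (∏ i ∈ range (r * t), a i) * ∏ x ∈ range t, a (r * t + x)
        ≤ (2 ^ (r * t) * (7 / 8) ^ r) * (2 ^ t * (7 / 8)) :=
          mul_le_mul ih h1 (prod_nonneg fun _ _ => ha0 _) (by positivity)
      _ = 2 ^ (r * t + t) * (7 / 8) ^ (r + 1) := by
        rw [pow_add, pow_succ]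
        ring

theorem prod_bound {a : ℕ → ℝ} (ha0 : ∀ i, 0 ≤ a i) (ha2 : ∀ i, a i ≤ 2) {t : ℕ}
    (hblk : ∀ i₀, ∃ i, i₀ ≤ i ∧ i < i₀ + t ∧ a i ≤ 7 / 4) {r l : ℕ} (hl : r * t ≤ l) :
    ∏ i ∈ range l, a i ≤ 2 ^ l * (7 / 8) ^ r := by
  obtain ⟨u, rfl⟩ : ∃ u, l = r * t + u := ⟨l - r * t, by omega⟩
  rw [prod_range_add]
  have h1 : ∏ x ∈ range u, a (r * t + x) ≤ 2 ^ u := by
    have h2 : ∏ x ∈ range u, a (r * t + x) ≤ ∏ x ∈ range u, (2 : ℝ) :=
      prod_le_prod (fun _ _ => ha0 _) fun _ _ => ha2 _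
    rwa [prod_const, card_range] at h2
  calc (∏ i ∈ range (r * t), a i) * ∏ x ∈ range u, a (r * t + x)
      ≤ (2 ^ (r * t) * (7 / 8) ^ r) * 2 ^ u :=
        mul_le_mul (prod_block ha0 ha2 hblk r) h1 (prod_nonneg fun _ _ => ha0 _) (by positivity)
    _ = 2 ^ (r * t + u) * (7 / 8) ^ r := by
      rw [pow_add]
      ring

/-- the subsets whose number is divisible by `d`. -/
def DD (l d : ℕ) : Finset (Finset ℕ) := (range l).powerset.filter fun s => d ∣ bb s

/-- **Equidistribution.** -/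
theorem equi {l d t r : ℕ} (hd : 0 < d) (hd3 : Nat.Coprime d 3) (ht : 0 < t)
    (hdt : d ≤ 2 * 3 ^ t) (hl : r * t ≤ l) :
    |((DD l d).card : ℝ) - 2 ^ l / d| ≤ 2 ^ l * (7 / 8) ^ r := by
  have hdr : (0 : ℝ) < d := by exact_mod_cast hd
  have h1 : ((d : ℂ) * (DD l d).card) =
      ∑ h ∈ range d, ∏ i ∈ range l, (1 + e ((h : ℝ) * 3 ^ i / d)) := by
    have h2 : ∀ h ∈ range d, ∏ i ∈ range l, (1 + e ((h : ℝ) * 3 ^ i / d)) =
        ∑ s ∈ (range l).powerset, e (h * (((bb s : ℕ) : ℤ) / d)) := by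
      intro h _
      rw [prod_one_add]
      refine sum_congr rfl fun s _ => ?_
      rw [← e_sum]
      congr 1
      rw [bb]
      push_cast
      rw [sum_div, mul_sum]
      refine sum_congr rfl fun i _ => ?_
      ring
    rw [sum_congr rfl h2, sum_comm, DD, card_filter]
    push_cast
    rw [mul_sum]
    refine sum_congr rfl fun s _ => ?_
    have h3 := orth d hd ((bb s : ℕ) : ℤ)
    push_cast at h3
    rw [h3]
    have h4 : (d : ℤ) ∣ ((bb s : ℕ) : ℤ) ↔ d ∣ bb s := Int.natCast_dvd_natCast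
    by_cases h5 : d ∣ bb s
    · simp only [h5, h4, if_true, mul_one]
    · simp only [h5, h4, if_false, mul_zero]
  have h0 : (0 : ℕ) ∈ range d := mem_range.2 hd
  rw [← add_sum_erase _ _ h0] at h1
  have h2 : ∏ i ∈ range l, (1 + e (((0 : ℕ) : ℝ) * 3 ^ i / d)) = 2 ^ l := by
    have h3 : ∀ i ∈ range l, (1 + e (((0 : ℕ) : ℝ) * 3 ^ i / d)) = 2 := by
      intro i _
      rw [Nat.cast_zero, zero_mul, zero_div, e_zero]
      norm_num
    rw [prod_congr rfl h3, prod_const, card_range]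
  rw [h2] at h1
  have h3 : ‖∑ h ∈ (range d).erase 0, ∏ i ∈ range l, (1 + e ((h : ℝ) * 3 ^ i / d))‖ ≤
      d * (2 ^ l * (7 / 8) ^ r) := by
    refine (norm_sum_le _ _).trans ?_
    have h4 : ∀ h ∈ (range d).erase 0, ‖∏ i ∈ range l, (1 + e ((h : ℝ) * 3 ^ i / d))‖ ≤
        2 ^ l * (7 / 8) ^ r := by
      intro h hh
      rw [norm_prod]
      have hh1 := ne_of_mem_erase hh
      have hh2 := mem_range.1 (mem_of_mem_erase hh)
      refine prod_bound (fun _ => norm_nonneg _) (fun _ => norm_one_add_e_le _) (t := t) ?_ hl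
      intro i₀
      obtain ⟨i, hi1, hi2, hi3⟩ := exists_far hd hd3 ht hdt (h := h)
        (fun hdv => absurd (Nat.le_of_dvd (by omega) hdv) (by omega)) i₀
      exact ⟨i, hi1, hi2, norm_one_add_e_far hi3⟩
    refine (sum_le_card_nsmul _ _ _ h4).trans ?_
    rw [nsmul_eq_mul]
    refine mul_le_mul_of_nonneg_right ?_ (by positivity)
    have h5 : ((range d).erase 0).card ≤ d := (card_erase_le).trans (card_range d).le
    exact_mod_cast h5
  have h4 : (((DD l d).card : ℝ) - 2 ^ l / d : ℂ) * d =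
      ∑ h ∈ (range d).erase 0, ∏ i ∈ range l, (1 + e ((h : ℝ) * 3 ^ i / d)) := by
    have hdc : (d : ℂ) ≠ 0 := by exact_mod_cast hdr.ne'
    have h5 : (((DD l d).card : ℝ) - 2 ^ l / d : ℂ) * d = d * (DD l d).card - 2 ^ l := by
      push_cast
      field_simp
    rw [h5, h1]
    ring
  have h5 : ‖((((DD l d).card : ℝ) - 2 ^ l / d : ℝ) : ℂ) * d‖ ≤ d * (2 ^ l * (7 / 8) ^ r) := by
    have h6 : ((((DD l d).card : ℝ) - 2 ^ l / d : ℝ) : ℂ) = (((DD l d).card : ℝ) - 2 ^ l / d : ℂ) := by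
      push_cast
      rfl
    rw [h6, h4]
    exact h3
  rw [norm_mul, Complex.norm_real, Complex.norm_natCast, Real.norm_eq_abs, mul_comm] at h5
  exact le_of_mul_le_mul_left h5 hdr

end Pool.Agent.Work.MP_aac176_nt.Low
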