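import Pool.Agent.Work.MP_aac176_nt.Low.HighW

/-!
MP_aac176_nt, lower bound: the elementary symmetric sums of the weights `1 / (q - 1)` over a set of
primes, and the sparse form of the theorem of Bombieri and Vinogradov.
-/

set_option autoImplicit false

namespace Pool.Agent.Work.MP_aac176_nt.Low

open Finset Pool.Agent.BV Pool.Agent.D3 Filter

/-- the weight of a set of primes. -/
noncomputable def wT (T : Finset ℕ) : ℝ := ∏ q ∈ T, (1 : ℝ) / (q - 1)

/-- the elementary symmetric sum. -/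
noncomputable def EE (Q : Finset ℕ) (i : ℕ) : ℝ := ∑ T ∈ Q.powersetCard i, wT T

theorem totient_dT {T : Finset ℕ} (hT : ∀ q ∈ T, q.Prime) :
    (1 : ℝ) / (dT T).totient = wT T := by
  classical
  induction T using Finset.induction_on with
  | empty => simp [dT, wT]
  | insert a s ha ih =>
    have h1 : a.Prime := hT a (mem_insert_self _ _)
    have h2 : ∀ q ∈ s, q.Prime := fun q hq => hT q (mem_insert_of_mem hq)
    have h3 : dT (insert a s) = a * dT s := by
      unfold dT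
      rw [prod_insert ha]
    have h4 : wT (insert a s) = (1 : ℝ) / (a - 1) * wT s := by
      unfold wT
      rw [prod_insert ha]
    have h5 : Nat.Coprime a (dT s) := by
      unfold dT
      refine Nat.Coprime.prod_right fun q hq => ?_
      exact (Nat.coprime_primes h1 (h2 q hq)).2 fun h => ha (h ▸ hq)
    rw [h3, h4, Nat.totient_mul h5, Nat.totient_prime h1, ← ih h2, Nat.cast_mul,
      Nat.cast_sub h1.one_le, Nat.cast_one]
    rw [one_div_mul_one_div]

theorem wT_nonneg {T : Finset ℕ} (hT : ∀ q ∈ T, q.Prime) : 0 ≤ wT T := by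
  rw [← totient_dT hT]
  positivity

theorem EE_nonneg {Q : Finset ℕ} (hQ : ∀ q ∈ Q, q.Prime) (i : ℕ) : 0 ≤ EE Q i :=
  sum_nonneg fun _ hT => wT_nonneg fun q hq => hQ q ((mem_powersetCard.1 hT).1 hq)

theorem dT_pos {T : Finset ℕ} (hT : ∀ q ∈ T, q.Prime) : 0 < dT T := by
  unfold dT
  exact Nat.pos_of_ne_zero (prod_ne_zero_iff.2 fun q hq => (hT q hq).ne_zero)

/-- recursion for the symmetric sums. -/
theorem EE_succ {Q : Finset ℕ} {Y : ℕ} (hQ : ∀ q ∈ Q, q.Prime) (hQY : ∀ q ∈ Q, q ≤ Y) (i : ℕ) :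
    EE Q i * (((Q.card : ℝ) - i) / Y) ≤ (i + 1) * EE Q (i + 1) := by
  classical
  have hY : ∀ q ∈ Q, (1 : ℝ) / Y ≤ 1 / (q - 1) := by
    intro q hq
    have h1 : (2 : ℝ) ≤ q := by exact_mod_cast (hQ q hq).two_le
    have h2 : (q : ℝ) ≤ Y := by exact_mod_cast hQY q hq
    exact one_div_le_one_div_of_le (by linarith) (by linarith)
  -- double counting
  have h1 : ((i : ℝ) + 1) * EE Q (i + 1) =
      ∑ x ∈ (Q.powersetCard (i + 1)).sigma fun T => T, wT x.1 := by
    rw [sum_sigma, EE, mul_sum]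
    refine sum_congr rfl fun T hT => ?_
    have h9 : ∑ s ∈ T, wT (⟨T, s⟩ : Σ _ : Finset ℕ, ℕ).fst = ∑ _s ∈ T, wT T := rfl
    rw [h9, sum_const, (mem_powersetCard.1 hT).2, nsmul_eq_mul]
    push_cast
    ring
  have h2 : ∑ x ∈ (Q.powersetCard (i + 1)).sigma fun T => T, wT x.1 =
      ∑ x ∈ (Q.powersetCard i).sigma fun T => Q \ T, wT x.1 * (1 / ((x.2 : ℝ) - 1)) := by
    refine sum_nbij' (i := fun x => (⟨x.1.erase x.2, x.2⟩ : Σ _ : Finset ℕ, ℕ))
      (j := fun x => (⟨insert x.2 x.1, x.2⟩ : Σ _ : Finset ℕ, ℕ)) ?_ ?_ ?_ ?_ ?_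
    · intro x hx
      obtain ⟨h3, h4⟩ := mem_sigma.1 hx
      obtain ⟨h5, h6⟩ := mem_powersetCard.1 h3
      rw [mem_sigma]
      refine ⟨mem_powersetCard.2 ⟨(erase_subset _ _).trans h5, ?_⟩, ?_⟩
      · simp only
        rw [card_erase_of_mem h4, h6]
        rfl
      · rw [Finset.mem_sdiff]
        exact ⟨h5 h4, notMem_erase _ _⟩
    · intro x hx
      obtain ⟨h3, h4⟩ := mem_sigma.1 hx
      obtain ⟨h5, h6⟩ := mem_powersetCard.1 h3
      obtain ⟨h7, h8⟩ := Finset.mem_sdiff.1 h4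
      rw [mem_sigma]
      refine ⟨mem_powersetCard.2 ⟨insert_subset h7 h5, ?_⟩, mem_insert_self _ _⟩
      simp only
      rw [card_insert_of_notMem h8, h6]
    · intro x hx
      obtain ⟨h3, h4⟩ := mem_sigma.1 hx
      simp only [insert_erase h4]
    · intro x hx
      obtain ⟨h3, h4⟩ := mem_sigma.1 hx
      obtain ⟨h7, h8⟩ := Finset.mem_sdiff.1 h4
      simp only [erase_insert h8]
    · intro x hx
      obtain ⟨h3, h4⟩ := mem_sigma.1 hx
      simp only [wT]
      rw [mul_comm, mul_prod_erase x.1 (fun q : ℕ => (1 : ℝ) / ((q : ℝ) - 1)) h4]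
  rw [h1, h2, sum_sigma, EE, sum_mul]
  refine sum_le_sum fun T hT => ?_
  obtain ⟨h5, h6⟩ := mem_powersetCard.1 hT
  have h7 : 0 ≤ wT T := wT_nonneg fun q hq => hQ q (h5 hq)
  have h8 : ∀ q ∈ Q \ T, wT T * (1 / (Y : ℝ)) ≤ wT T * (1 / ((q : ℝ) - 1)) := fun q hq =>
    mul_le_mul_of_nonneg_left (hY q (Finset.mem_sdiff.1 hq).1) h7
  refine le_trans (le_of_eq ?_) (sum_le_sum h8)
  rw [sum_const, card_sdiff_of_subset h5, h6, nsmul_eq_mul,
    Nat.cast_sub (by rw [← h6]; exact card_le_card h5)]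
  ring

/-- the symmetric sums grow at least geometrically. -/
theorem EE_back {Q : Finset ℕ} {Y k : ℕ} {l : ℝ} (hQ : ∀ q ∈ Q, q.Prime) (hQY : ∀ q ∈ Q, q ≤ Y)
    (hY : 0 < Y) (hk : k < Q.card) (hl : (k : ℝ) * Y / ((Q.card : ℝ) - k) ≤ l) (i : ℕ)
    (hi : i ≤ k) : EE Q (k - i) ≤ l ^ i * EE Q k := by
  have hY0 : (0 : ℝ) < Y := by exact_mod_cast hY
  have hkR : (k : ℝ) < Q.card := by exact_mod_cast hk
  have hl0 : 0 ≤ l := le_trans (div_nonneg (by positivity) (by linarith)) hl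
  induction i with
  | zero => simp
  | succ i ih =>
    have h1 := ih (by omega)
    have h2 : k - i = (k - (i + 1)) + 1 := by omega
    have h3 := EE_succ hQ hQY (k - (i + 1))
    rw [← h2] at h3
    set a := EE Q (k - (i + 1)) with ha
    have ha0 : 0 ≤ a := EE_nonneg hQ _
    set n := k - (i + 1) with hn
    have hn1 : (n : ℝ) + 1 ≤ k := by exact_mod_cast (show n + 1 ≤ k by omega)
    have hb0 : 0 ≤ EE Q (k - i) := EE_nonneg hQ _
    have h4 : a ≤ l * EE Q (k - i) := by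
      have h5 : a * (((Q.card : ℝ) - k) / Y) ≤ k * EE Q (k - i) := by
        calc a * (((Q.card : ℝ) - k) / Y) ≤ a * (((Q.card : ℝ) - n) / Y) := by
              refine mul_le_mul_of_nonneg_left ?_ ha0
              exact div_le_div_of_nonneg_right (by linarith) hY0.le
          _ ≤ (n + 1) * EE Q (k - i) := h3
          _ ≤ k * EE Q (k - i) := mul_le_mul_of_nonneg_right hn1 hb0
      have h6 : 0 < (Q.card : ℝ) - k := by linarith
      have h7 : a ≤ (k : ℝ) * Y / ((Q.card : ℝ) - k) * EE Q (k - i) := by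
        rw [mul_div_assoc', div_le_iff₀ hY0] at h5
        rw [div_mul_eq_mul_div, le_div_iff₀ h6]
        linarith
      exact h7.trans (mul_le_mul_of_nonneg_right hl hb0)
    calc a ≤ l * EE Q (k - i) := h4
      _ ≤ l * (l ^ i * EE Q k) := mul_le_mul_of_nonneg_left h1 hl0
      _ = l ^ (i + 1) * EE Q k := by rw [pow_succ]; ring

/-- the sum over the sets containing a given set. -/
theorem sum_superset {Q U : Finset ℕ} {k : ℕ} (hQ : ∀ q ∈ Q, q.Prime) (hU : U ⊆ Q) :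
    ∑ T ∈ (Q.powersetCard k).filter (fun T => U ⊆ T), wT T ≤ wT U * EE Q (k - U.card) := by
  classical
  have hU0 : 0 ≤ wT U := wT_nonneg fun q hq => hQ q (hU hq)
  have h1 : ∀ T ∈ (Q.powersetCard k).filter (fun T => U ⊆ T), wT T = wT U * wT (T \ U) := by
    intro T hT
    obtain ⟨h2, h3⟩ := mem_filter.1 hT
    unfold wT
    rw [mul_comm, prod_sdiff h3]
  rw [sum_congr rfl h1, ← mul_sum]
  refine mul_le_mul_of_nonneg_left ?_ hU0
  have hinj : Set.InjOn (fun T : Finset ℕ => T \ U)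
      ((Q.powersetCard k).filter (fun T => U ⊆ T) : Set (Finset ℕ)) := by
    intro T hT V hV h
    have h2 := (mem_filter.1 (mem_coe.1 hT)).2
    have h3 := (mem_filter.1 (mem_coe.1 hV)).2
    have h4 : T \ U = V \ U := h
    rw [← sdiff_union_of_subset h2, ← sdiff_union_of_subset h3, h4]
  rw [← sum_image (f := fun T => wT T) hinj, EE]
  refine sum_le_sum_of_subset_of_nonneg ?_ fun T hT _ =>
    wT_nonneg fun q hq => hQ q ((mem_powersetCard.1 hT).1 hq)
  intro V hV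
  obtain ⟨T, hT, rfl⟩ := mem_image.1 hV
  obtain ⟨h2, h3⟩ := mem_filter.1 hT
  obtain ⟨h4, h5⟩ := mem_powersetCard.1 h2
  exact mem_powersetCard.2 ⟨sdiff_subset.trans h4, by rw [card_sdiff_of_subset h3, h5]⟩

/-- the divisors of a product of distinct primes. -/
theorem divisors_dT {T : Finset ℕ} (hT : ∀ q ∈ T, q.Prime) :
    (dT T).divisors.erase 1 ⊆ (T.powerset.erase ∅).image dT := by
  classical
  intro r hr
  obtain ⟨h1, h2⟩ := mem_erase.1 hr
  have h3 := (Nat.mem_divisors.1 h2).1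
  have hsq : Squarefree (dT T) := by
    unfold dT
    refine Finset.squarefree_prod_of_pairwise_isCoprime ?_ fun q hq => (hT q hq).squarefree
    intro a ha b hb hab
    exact Nat.coprime_iff_isRelPrime.1 ((Nat.coprime_primes (hT a (mem_coe.1 ha))
      (hT b (mem_coe.1 hb))).2 hab)
  have h4 : Squarefree r := hsq.squarefree_of_dvd h3
  have h5 : r.primeFactors ⊆ T := by
    have h6 : (dT T).primeFactors = T := Nat.primeFactors_prod hT
    rw [← h6]
    exact Nat.primeFactors_mono h3 (dT_pos hT).ne'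
  have h6 : dT r.primeFactors = r := Nat.prod_primeFactors_of_squarefree h4
  refine mem_image.2 ⟨r.primeFactors, mem_erase.2 ⟨?_, mem_powerset.2 h5⟩, h6⟩
  intro h7
  rw [h7] at h6
  exact h1 (by rw [← h6]; rfl)

/-- **The sparse form**: the error terms for the products of `k` primes of `Q`. -/
theorem sparse_bv {Q : Finset ℕ} {Y k x : ℕ} {l u : ℝ} (hQ : ∀ q ∈ Q, q.Prime)
    (hQY : ∀ q ∈ Q, q ≤ Y) (hQY2 : ∀ q ∈ Q, Y / 2 < q) (hY : 2 ≤ Y) (hk : k < Q.card)
    (hl : (k : ℝ) * Y / ((Q.card : ℝ) - k) ≤ l) (hu : 0 < u) (hlu : l ≤ ((Y : ℝ) / 2) ^ u)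
    (hx : 3 ≤ x) (hYx : Y ^ k ≤ x) :
    ∑ T ∈ Q.powersetCard k, er x (dT T) ≤
      EE Q k * ∑ r ∈ Ioc (Y / 2) (Y ^ k), (r : ℝ) ^ u * gg x r +
        (Q.card.choose k : ℝ) * (2 * (Real.log x) ^ 2) := by
  classical
  have hYR : (2 : ℝ) ≤ Y := by exact_mod_cast hY
  have hkR : (k : ℝ) < Q.card := by exact_mod_cast hk
  have hl0 : 0 ≤ l := le_trans (div_nonneg (by positivity) (by linarith)) hl
  have hE0 : 0 ≤ EE Q k := EE_nonneg hQ k
  have hsub : ∀ T ∈ Q.powersetCard k, ∀ q ∈ T, q.Prime := fun T hT q hq =>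
    hQ q ((mem_powersetCard.1 hT).1 hq)
  set tt : ℕ → ℝ := fun r => ∑ χ ∈ prim r, ‖psiC χ x‖ with htt
  have htt0 : ∀ r, 0 ≤ tt r := fun r => sum_nonneg fun _ _ => norm_nonneg _
  have h1 : ∀ T ∈ Q.powersetCard k, er x (dT T) ≤
      ∑ U ∈ T.powerset.erase ∅, wT T * tt (dT U) + 2 * (Real.log x) ^ 2 := by
    intro T hT
    have hp := hsub T hT
    have hpos := dT_pos hp
    have : NeZero (dT T) := ⟨hpos.ne'⟩
    have h2 := reduce_one (dT T) 1 x (Nat.coprime_one_left _) ((dT_le hQY hT).trans hYx) hx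
    unfold er
    refine h2.trans ?_
    rw [totient_dT hp, ← mul_sum]
    refine add_le_add_left ?_ _
    refine mul_le_mul_of_nonneg_left ?_ (wT_nonneg hp)
    calc ∑ r ∈ (dT T).divisors.erase 1, ∑ χ ∈ prim r, ‖psiC χ x‖
        ≤ ∑ r ∈ (T.powerset.erase ∅).image dT, tt r :=
          sum_le_sum_of_subset_of_nonneg (divisors_dT hp) fun r _ _ => htt0 r
      _ ≤ ∑ U ∈ T.powerset.erase ∅, tt (dT U) :=
          sum_image_le_of_nonneg fun r _ => htt0 r
  refine (sum_le_sum h1).trans ?_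
  rw [sum_add_distrib, sum_const, card_powersetCard, nsmul_eq_mul]
  refine add_le_add_left ?_ _
  -- exchange the sums
  set W := (Q.powerset.erase ∅).filter (fun U => U.card ≤ k) with hW
  have h2 : ∑ T ∈ Q.powersetCard k, ∑ U ∈ T.powerset.erase ∅, wT T * tt (dT U) =
      ∑ U ∈ W, ∑ T ∈ (Q.powersetCard k).filter (fun T => U ⊆ T), wT T * tt (dT U) := by
    refine sum_comm' ?_
    intro T U
    simp only [hW, mem_filter, mem_erase, mem_powerset, mem_powersetCard]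
    constructor
    · rintro ⟨⟨a1, a2⟩, a3, a4⟩
      exact ⟨⟨⟨a1, a2⟩, a4⟩, ⟨a3, a4.trans a1⟩, a2 ▸ card_le_card a4⟩
    · rintro ⟨⟨⟨a1, a2⟩, a4⟩, ⟨a3, a5⟩, a6⟩
      exact ⟨⟨a1, a2⟩, a3, a4⟩
  rw [h2]
  have h3 : ∀ U ∈ W, ∑ T ∈ (Q.powersetCard k).filter (fun T => U ⊆ T), wT T * tt (dT U) ≤
      EE Q k * (((dT U : ℕ) : ℝ) ^ u * gg x (dT U)) := by
    intro U hU
    obtain ⟨h4, h5⟩ := mem_filter.1 hU
    obtain ⟨h6, h7⟩ := mem_erase.1 h4
    have h8 := mem_powerset.1 h7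
    have hUp : ∀ q ∈ U, q.Prime := fun q hq => hQ q (h8 hq)
    have hU0 := wT_nonneg hUp
    rw [← sum_mul]
    have h9 := sum_superset (k := k) hQ h8
    have h10 := EE_back hQ hQY (by omega) hk hl U.card h5
    have h11 : l ^ U.card ≤ ((dT U : ℕ) : ℝ) ^ u := by
      have h12 : ((Y : ℝ) / 2) ^ U.card ≤ dT U :=
        le_dT hQY2 (mem_powersetCard.2 ⟨h8, rfl⟩)
      calc l ^ U.card ≤ (((Y : ℝ) / 2) ^ u) ^ U.card := pow_le_pow_left₀ hl0 hlu _
        _ = (((Y : ℝ) / 2) ^ U.card) ^ u := by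
            rw [← Real.rpow_natCast, ← Real.rpow_natCast, ← Real.rpow_mul (by positivity),
              ← Real.rpow_mul (by positivity), mul_comm]
        _ ≤ ((dT U : ℕ) : ℝ) ^ u := Real.rpow_le_rpow (by positivity) h12 hu.le
    have h13 : ∑ T ∈ (Q.powersetCard k).filter (fun T => U ⊆ T), wT T ≤
        wT U * (((dT U : ℕ) : ℝ) ^ u * EE Q k) := by
      refine h9.trans (mul_le_mul_of_nonneg_left ?_ hU0)
      exact h10.trans (mul_le_mul_of_nonneg_right h11 hE0)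
    calc (∑ T ∈ (Q.powersetCard k).filter (fun T => U ⊆ T), wT T) * tt (dT U)
        ≤ (wT U * (((dT U : ℕ) : ℝ) ^ u * EE Q k)) * tt (dT U) :=
          mul_le_mul_of_nonneg_right h13 (htt0 _)
      _ = EE Q k * (((dT U : ℕ) : ℝ) ^ u * gg x (dT U)) := by
          unfold gg
          rw [totient_dT hUp]
          ring
  refine (sum_le_sum h3).trans ?_
  rw [← mul_sum]
  refine mul_le_mul_of_nonneg_left ?_ hE0
  have hinj : Set.InjOn dT (W : Set (Finset ℕ)) := by
    intro T hT V hV h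
    have h4 := mem_powerset.1 (mem_erase.1 (mem_filter.1 (mem_coe.1 hT)).1).2
    have h5 := mem_powerset.1 (mem_erase.1 (mem_filter.1 (mem_coe.1 hV)).1).2
    have h6 := Nat.primeFactors_prod (s := T) fun q hq => hQ q (h4 hq)
    have h7 := Nat.primeFactors_prod (s := V) fun q hq => hQ q (h5 hq)
    unfold dT at h
    rw [← h6, ← h7, h]
  rw [← sum_image (f := fun r : ℕ => (r : ℝ) ^ u * gg x r) hinj]
  refine sum_le_sum_of_subset_of_nonneg ?_ fun r _ _ => mul_nonneg (by positivity) (gg_nonneg _ _)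
  intro r hr
  obtain ⟨U, hU, rfl⟩ := mem_image.1 hr
  obtain ⟨h4, h5⟩ := mem_filter.1 hU
  obtain ⟨h6, h7⟩ := mem_erase.1 h4
  have h8 := mem_powerset.1 h7
  have hUp : ∀ q ∈ U, q.Prime := fun q hq => hQ q (h8 hq)
  rw [mem_Ioc]
  constructor
  · obtain ⟨q, hq⟩ := nonempty_iff_ne_empty.2 h6
    have h9 : q ∣ dT U := dvd_prod_of_mem _ hq
    exact lt_of_lt_of_le (hQY2 q (h8 hq)) (Nat.le_of_dvd (dT_pos hUp) h9)
  · refine (dT_le hQY (mem_powersetCard.2 ⟨h8, rfl⟩)).trans ?_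
    exact Nat.pow_le_pow_right (by omega) h5

end Pool.Agent.Work.MP_aac176_nt.Low
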