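import Pool.Agent.Work.MP_aac176_nt.Low.Agp2

/-!
MP_aac176_nt, lower bound: large conductors with a weight `r ^ u` (large sieve).
-/

set_option autoImplicit false

namespace Pool.Agent.Work.MP_aac176_nt.Low

open Finset Pool.Agent.BV Pool.Agent.D3 Filter

/-- the contribution of the primitive characters of conductor `r`. -/
noncomputable def gg (x r : ℕ) : ℝ := (1 : ℝ) / r.totient * ∑ χ ∈ prim r, ‖psiC χ x‖

theorem gg_nonneg (x r : ℕ) : 0 ≤ gg x r :=
  mul_nonneg (by positivity) (sum_nonneg fun _ _ => norm_nonneg _)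

/-- the large conductors, with a weight `r ^ u`. -/
theorem high_w (u : ℝ) (hu0 : 0 < u) (hu1 : u ≤ 1) : ∃ C : ℝ, 0 < C ∧ ∀ (x Q R₀ U : ℕ), 3 ≤ x →
    1 ≤ U → U * U ≤ x → 1 ≤ R₀ → Q ≤ x →
    ∑ r ∈ Ioc R₀ Q, (r : ℝ) ^ u * gg x r ≤
      3 * Real.log x * (2 * (C * x * (Real.log x) ^ 5) * (R₀ : ℝ) ^ (u - 1) +
        2 * (Q : ℝ) ^ u * (C * x * (Real.log x) ^ 5 * (3 / Real.sqrt U + 4 * Q / Real.sqrt x) +
          32 * (Q : ℝ) ^ 2 * (U : ℝ) ^ 2 * Real.log x)) := by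
  obtain ⟨C, hC, hblock⟩ := block
  refine ⟨C, hC, ?_⟩
  intro x Q R₀ U hx hU1 hUx hR1' hQx
  have hxR : (3 : ℝ) ≤ x := by exact_mod_cast hx
  have hx0 : (0 : ℝ) < x := by linarith
  have hx1 : (1 : ℝ) ≤ x := by linarith
  set L : ℝ := Real.log x with hL
  have hL1 : 1 ≤ L := by
    rw [hL, Real.le_log_iff_exp_le hx0]
    have := Real.exp_one_lt_d9
    linarith
  have hL0 : 0 < L := by linarith
  have hR1 : (1 : ℝ) ≤ R₀ := by exact_mod_cast hR1'
  have hUR1 : (1 : ℝ) ≤ U := by exact_mod_cast hU1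
  have h2u : (2 : ℝ) ^ u ≤ 2 := by
    calc (2 : ℝ) ^ u ≤ (2 : ℝ) ^ (1 : ℝ) := Real.rpow_le_rpow_of_exponent_le (by norm_num) hu1
      _ = 2 := Real.rpow_one _
  set f : ℕ → ℝ := fun r => if r ≤ Q then (r : ℝ) ^ u * gg x r else 0 with hf
  have hf0 : ∀ r : ℕ, 0 ≤ (r : ℝ) ^ u * gg x r := fun r =>
    mul_nonneg (by positivity) (gg_nonneg _ _)
  set E : ℝ := C * x * L ^ 5 * (3 / Real.sqrt U + 4 * Q / Real.sqrt x) +
      32 * (Q : ℝ) ^ 2 * (U : ℝ) ^ 2 * L with hE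
  have hE0 : 0 ≤ E := by positivity
  set M : ℝ := 2 * (C * x * L ^ 5) * (R₀ : ℝ) ^ (u - 1) + 2 * (Q : ℝ) ^ u * E with hM
  have hM0 : 0 ≤ M := by positivity
  have hD : ∀ R, R₀ ≤ R → ∑ r ∈ Ioc R (2 * R), f r ≤ M := by
    intro R hRR
    by_cases hRQ : R ≤ Q
    · have hRQR : (R : ℝ) ≤ Q := by exact_mod_cast hRQ
      have hR0R : (R₀ : ℝ) ≤ R := by exact_mod_cast hRR
      have hRpos : (0 : ℝ) < R := by linarith
      have hRu : (R : ℝ) ^ u ≤ (Q : ℝ) ^ u := Real.rpow_le_rpow hRpos.le hRQR hu0.le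
      have hR1u : (R : ℝ) ^ (u - 1) ≤ (R₀ : ℝ) ^ (u - 1) :=
        Real.rpow_le_rpow_of_nonpos (by linarith) hR0R (by linarith)
      have hblk := high_range hC hblock x U R hx hU1 hUx (hR1'.trans hRR)
      have h1 : ∑ r ∈ Ioc R (2 * R), f r ≤ (2 * (R : ℝ)) ^ u *
          ∑ r ∈ Ioc R (2 * R), (1 : ℝ) / r.totient * ∑ χ ∈ prim r, ‖psiC χ x‖ := by
        rw [mul_sum]
        refine sum_le_sum fun r hr => ?_
        have hr2 : (r : ℝ) ≤ 2 * R := by exact_mod_cast (mem_Ioc.1 hr).2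
        have h2 : (r : ℝ) ^ u ≤ (2 * (R : ℝ)) ^ u :=
          Real.rpow_le_rpow (Nat.cast_nonneg _) hr2 hu0.le
        have h3 : 0 ≤ (2 * (R : ℝ)) ^ u * gg x r := mul_nonneg (by positivity) (gg_nonneg _ _)
        simp only [hf]
        split_ifs
        · exact mul_le_mul_of_nonneg_right h2 (gg_nonneg _ _)
        · exact h3
      refine h1.trans ?_
      have h4 : (2 * (R : ℝ)) ^ u ≤ 2 * (R : ℝ) ^ u := by
        rw [Real.mul_rpow (by norm_num) hRpos.le]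
        exact mul_le_mul_of_nonneg_right h2u (by positivity)
      have h5 : C * x * L ^ 5 * (1 / R + 3 / Real.sqrt U + 4 * R / Real.sqrt x) +
          32 * (R : ℝ) ^ 2 * (U : ℝ) ^ 2 * L ≤ C * x * L ^ 5 * (1 / R) + E := by
        have h6 : C * x * L ^ 5 * (3 / Real.sqrt U + 4 * R / Real.sqrt x) +
            32 * (R : ℝ) ^ 2 * (U : ℝ) ^ 2 * L ≤ E := by
          simp only [hE]
          gcongr
        have h7 : C * x * L ^ 5 * (1 / R + 3 / Real.sqrt U + 4 * R / Real.sqrt x) =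
          C * x * L ^ 5 * (1 / R) + C * x * L ^ 5 * (3 / Real.sqrt U + 4 * R / Real.sqrt x) := by
          ring
        rw [h7]
        linarith
      have h8 : 0 ≤ C * x * L ^ 5 * (1 / (R : ℝ)) + E := by positivity
      calc (2 * (R : ℝ)) ^ u * ∑ r ∈ Ioc R (2 * R), (1 : ℝ) / r.totient *
            ∑ χ ∈ prim r, ‖psiC χ x‖
          ≤ (2 * (R : ℝ)) ^ u * (C * x * L ^ 5 * (1 / R) + E) :=
            mul_le_mul_of_nonneg_left (hblk.trans h5) (by positivity)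
        _ ≤ (2 * (R : ℝ) ^ u) * (C * x * L ^ 5 * (1 / R) + E) :=
            mul_le_mul_of_nonneg_right h4 h8
        _ = 2 * (C * x * L ^ 5) * ((R : ℝ) ^ u / R) + 2 * (R : ℝ) ^ u * E := by ring
        _ = 2 * (C * x * L ^ 5) * (R : ℝ) ^ (u - 1) + 2 * (R : ℝ) ^ u * E := by
            rw [Real.rpow_sub_one hRpos.ne']
        _ ≤ M := by
            simp only [hM]
            gcongr
    · have h0 : ∑ r ∈ Ioc R (2 * R), f r = 0 := by
        apply sum_eq_zero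
        intro r hr
        simp only [hf]
        rw [if_neg]
        have := (mem_Ioc.1 hr).1
        omega
      rw [h0]
      exact hM0
  set j : ℕ := Nat.log 2 x + 1 with hj
  have hjx : x < 2 ^ j := Nat.lt_pow_succ_log_self (by norm_num) x
  have hjL : (j : ℝ) ≤ 3 * L := by
    have h1 : (2 : ℝ) ^ (Nat.log 2 x) ≤ x := by
      exact_mod_cast Nat.pow_log_le_self 2 (by omega)
    have h2 := Real.log_le_log (by positivity) h1
    rw [Real.log_pow, ← hL] at h2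
    have h3 := Real.log_two_gt_d9
    have h4 : (0 : ℝ) ≤ (Nat.log 2 x : ℝ) := Nat.cast_nonneg _
    have h5 : (Nat.log 2 x : ℝ) * 0.5 ≤ L := by nlinarith
    rw [hj]
    push_cast
    linarith
  have hQj : Q ≤ 2 ^ j * R₀ := by
    calc Q ≤ 2 ^ j := by omega
      _ ≤ 2 ^ j * R₀ := Nat.le_mul_of_pos_right _ (by omega)
  have h1 : ∑ r ∈ Ioc R₀ Q, (r : ℝ) ^ u * gg x r ≤ ∑ r ∈ Ioc R₀ (2 ^ j * R₀), f r := by
    calc ∑ r ∈ Ioc R₀ Q, (r : ℝ) ^ u * gg x r
        = ∑ r ∈ Ioc R₀ Q, f r := by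
          refine sum_congr rfl fun r hr => ?_
          simp only [hf]
          rw [if_pos (mem_Ioc.1 hr).2]
      _ ≤ _ := by
          refine sum_le_sum_of_subset_of_nonneg (Ioc_subset_Ioc_right hQj) ?_
          intro r _ _
          simp only [hf]
          split_ifs
          · exact hf0 r
          · exact le_refl _
  have h2 := h1.trans (high_dyadic f (fun _ => M) R₀ hD j)
  rw [sum_const, card_range, nsmul_eq_mul] at h2
  exact h2.trans (mul_le_mul_of_nonneg_right hjL hM0)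

end Pool.Agent.Work.MP_aac176_nt.Low
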