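import Pool.Agent.Work.MP_aac176_nt.Low.Esym

/-!
MP_aac176_nt, lower bound: asymptotic form of `high_w`, and the count of pairs with totients.
-/

set_option autoImplicit false

namespace Pool.Agent.Work.MP_aac176_nt.Low

open Finset Pool.Agent.BV Pool.Agent.D3 Filter

theorem high_w2 : ∃ K : ℝ, 0 < K ∧ ∀ᶠ z : ℕ in atTop, ∀ x Q R₀ : ℕ, (z : ℝ) / 4 ≤ x → x ≤ z →
    (Q : ℝ) ≤ (z : ℝ) ^ (2 / 5 : ℝ) → (Real.log z) ^ 20 ≤ R₀ →
    ∑ r ∈ Ioc R₀ Q, (r : ℝ) ^ (1 / 20 : ℝ) * gg x r ≤ K * z / Real.log z := by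
  obtain ⟨C, hC, hw⟩ := high_w (1 / 20) (by norm_num) (by norm_num)
  refine ⟨8 * C + 1, by positivity, ?_⟩
  filter_upwards [log_large 2, eventually_ge_atTop 64,
    logpow_le_rpow 7 (1 / 100) (1 / 48) (by norm_num) (by norm_num),
    logpow_le_rpow 3 (1 / 100) (1 / 192) (by norm_num) (by norm_num)] with z hX2 hz64 h7 h3
  intro x Q R₀ hx1 hx2 hQ hR
  have hzR : (64 : ℝ) ≤ z := by exact_mod_cast hz64
  have hz0 : (0 : ℝ) < z := by linarith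
  have hz1 : (1 : ℝ) ≤ z := by linarith
  have hxz : (x : ℝ) ≤ z := by exact_mod_cast hx2
  have hx16 : (16 : ℝ) ≤ x := by linarith
  have hx0 : (0 : ℝ) < x := by linarith
  have hx3 : 3 ≤ x := by
    have : (3 : ℝ) ≤ x := by linarith
    exact_mod_cast this
  set X := Real.log z with hX
  have hX0 : 0 < X := by linarith
  have hX1 : 1 ≤ X := by linarith
  have hzpow : ∀ a b : ℝ, a ≤ b → (z : ℝ) ^ a ≤ (z : ℝ) ^ b := fun a b h =>
    Real.rpow_le_rpow_of_exponent_le hz1 h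
  have hQz : (Q : ℝ) ≤ z / 4 := by
    have h1 : (4 : ℝ) ≤ (z : ℝ) ^ (3 / 5 : ℝ) := by
      calc (4 : ℝ) = ((64 : ℝ) ^ (1 / 3 : ℝ)) := by
            rw [show (64 : ℝ) = 4 ^ (3 : ℕ) by norm_num, ← Real.rpow_natCast, ← Real.rpow_mul]
            · norm_num
            · norm_num
        _ ≤ (z : ℝ) ^ (1 / 3 : ℝ) := Real.rpow_le_rpow (by norm_num) hzR (by norm_num)
        _ ≤ (z : ℝ) ^ (3 / 5 : ℝ) := hzpow _ _ (by norm_num)
    have h2 : (z : ℝ) = (z : ℝ) ^ (3 / 5 : ℝ) * (z : ℝ) ^ (2 / 5 : ℝ) := by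
      rw [← Real.rpow_add hz0]
      norm_num
    have h4 : 4 * (z : ℝ) ^ (2 / 5 : ℝ) ≤ z := by
      nth_rewrite 2 [h2]
      exact mul_le_mul_of_nonneg_right h1 (by positivity)
    linarith
  have hQx : Q ≤ x := by
    have : (Q : ℝ) ≤ x := hQz.trans hx1
    exact_mod_cast this
  have hR1 : (1 : ℝ) ≤ R₀ := (one_le_pow₀ hX1).trans hR
  have hR1' : 1 ≤ R₀ := by exact_mod_cast hR1
  -- the parameter `U`
  set v := (z : ℝ) ^ (1 / 16 : ℝ) with hv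
  have hv1 : 1 ≤ v := Real.one_le_rpow hz1 (by norm_num)
  set U := ⌊v⌋₊ with hU
  have hU1 : 1 ≤ U := Nat.le_floor (by simpa using hv1)
  have hUle : (U : ℝ) ≤ v := Nat.floor_le (by linarith)
  have hUge : v / 2 ≤ U := by
    have h1 := Nat.lt_floor_add_one v
    rw [← hU] at h1
    have h2 : (1 : ℝ) ≤ U := by exact_mod_cast hU1
    linarith
  have hvv : v ^ 2 = (z : ℝ) ^ (1 / 8 : ℝ) := by
    rw [hv, ← Real.rpow_natCast, ← Real.rpow_mul hz0.le]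
    norm_num
  have hUU : (U : ℝ) ^ 2 ≤ (z : ℝ) ^ (1 / 8 : ℝ) := by
    rw [← hvv]
    exact pow_le_pow_left₀ (Nat.cast_nonneg _) hUle 2
  have hUx : U * U ≤ x := by
    have h1 : (z : ℝ) ^ (1 / 8 : ℝ) ≤ z / 4 := by
      have h2 : (4 : ℝ) ≤ (z : ℝ) ^ (7 / 8 : ℝ) := by
        calc (4 : ℝ) = ((64 : ℝ) ^ (1 / 3 : ℝ)) := by
              rw [show (64 : ℝ) = 4 ^ (3 : ℕ) by norm_num, ← Real.rpow_natCast, ← Real.rpow_mul]
              · norm_num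
              · norm_num
          _ ≤ (z : ℝ) ^ (1 / 3 : ℝ) := Real.rpow_le_rpow (by norm_num) hzR (by norm_num)
          _ ≤ (z : ℝ) ^ (7 / 8 : ℝ) := hzpow _ _ (by norm_num)
      have h4 : (z : ℝ) = (z : ℝ) ^ (7 / 8 : ℝ) * (z : ℝ) ^ (1 / 8 : ℝ) := by
        rw [← Real.rpow_add hz0]
        norm_num
      have h5 : 4 * (z : ℝ) ^ (1 / 8 : ℝ) ≤ z := by
        nth_rewrite 2 [h4]
        exact mul_le_mul_of_nonneg_right h2 (by positivity)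
      linarith
    have h2 : ((U * U : ℕ) : ℝ) ≤ x := by
      push_cast
      nlinarith
    exact_mod_cast h2
  have h := hw x Q R₀ U hx3 hU1 hUx hR1' hQx
  refine h.trans ?_
  have hLX : Real.log x ≤ X := Real.log_le_log hx0 hxz
  have hL0 : 0 ≤ Real.log x := Real.log_nonneg (by linarith)
  -- the four terms
  have hR20 : (R₀ : ℝ) ^ (1 / 20 - 1 : ℝ) ≤ 1 / X ^ 7 := by
    have h1 : (R₀ : ℝ) ^ (1 / 20 - 1 : ℝ) ≤ (X ^ 20) ^ (1 / 20 - 1 : ℝ) :=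
      Real.rpow_le_rpow_of_nonpos (by positivity) hR (by norm_num)
    refine h1.trans ?_
    rw [← Real.rpow_natCast, ← Real.rpow_mul hX0.le]
    have h2 : ((20 : ℕ) : ℝ) * (1 / 20 - 1 : ℝ) = -((19 : ℕ) : ℝ) := by norm_num
    rw [h2, Real.rpow_neg hX0.le, Real.rpow_natCast, ← one_div]
    exact one_div_le_one_div_of_le (by positivity) (pow_le_pow_right₀ hX1 (by norm_num))
  have hQu : (Q : ℝ) ^ (1 / 20 : ℝ) ≤ (z : ℝ) ^ (1 / 50 : ℝ) := by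
    calc (Q : ℝ) ^ (1 / 20 : ℝ) ≤ ((z : ℝ) ^ (2 / 5 : ℝ)) ^ (1 / 20 : ℝ) :=
          Real.rpow_le_rpow (Nat.cast_nonneg _) hQ (by norm_num)
      _ = (z : ℝ) ^ (1 / 50 : ℝ) := by
          rw [← Real.rpow_mul hz0.le]
          norm_num
  have hsU : 3 / Real.sqrt U ≤ 6 / (z : ℝ) ^ (1 / 32 : ℝ) := by
    have h1 : (z : ℝ) ^ (1 / 32 : ℝ) / 2 ≤ Real.sqrt U := by
      rw [Real.le_sqrt (by positivity) (by positivity)]
      rw [div_pow, ← Real.rpow_natCast, ← Real.rpow_mul hz0.le]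
      have h2 : (1 / 32 : ℝ) * ((2 : ℕ) : ℝ) = 1 / 16 := by norm_num
      rw [h2]
      have h3 : 0 < v := by linarith
      linarith
    calc 3 / Real.sqrt U ≤ 3 / ((z : ℝ) ^ (1 / 32 : ℝ) / 2) :=
          div_le_div_of_nonneg_left (by norm_num) (by positivity) h1
      _ = 6 / (z : ℝ) ^ (1 / 32 : ℝ) := by
          field_simp
          norm_num
  have hsx : Real.sqrt z / 2 ≤ Real.sqrt x := by
    have h6 : Real.sqrt (z / 4) ≤ Real.sqrt x := Real.sqrt_le_sqrt hx1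
    have h7 : Real.sqrt (z / 4) = Real.sqrt z / 2 := by
      rw [Real.sqrt_div hz0.le, show (4 : ℝ) = 2 ^ 2 by norm_num, Real.sqrt_sq (by norm_num)]
    linarith
  have hsz : Real.sqrt z = (z : ℝ) ^ (1 / 2 : ℝ) := Real.sqrt_eq_rpow _
  have hsz0 : 0 < Real.sqrt z := Real.sqrt_pos.2 hz0
  have h4Q : 4 * (Q : ℝ) / Real.sqrt x ≤ 8 / (z : ℝ) ^ (1 / 10 : ℝ) := by
    calc 4 * (Q : ℝ) / Real.sqrt x ≤ 4 * (z : ℝ) ^ (2 / 5 : ℝ) / (Real.sqrt z / 2) :=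
          div_le_div₀ (by positivity) (by linarith) (by positivity) hsx
      _ = 8 / (z : ℝ) ^ (1 / 10 : ℝ) := by
          rw [hsz]
          have h1 : (z : ℝ) ^ (1 / 2 : ℝ) = (z : ℝ) ^ (2 / 5 : ℝ) * (z : ℝ) ^ (1 / 10 : ℝ) := by
            rw [← Real.rpow_add hz0]
            norm_num
          rw [h1]
          field_simp
          norm_num
  have hz32 : 6 / (z : ℝ) ^ (1 / 32 : ℝ) ≤ 6 / (z : ℝ) ^ (3 / 100 : ℝ) :=
    div_le_div_of_nonneg_left (by norm_num) (by positivity) (hzpow _ _ (by norm_num))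
  have hz10 : 8 / (z : ℝ) ^ (1 / 10 : ℝ) ≤ 8 / (z : ℝ) ^ (3 / 100 : ℝ) :=
    div_le_div_of_nonneg_left (by norm_num) (by positivity) (hzpow _ _ (by norm_num))
  have hsum : 3 / Real.sqrt U + 4 * (Q : ℝ) / Real.sqrt x ≤ 14 / (z : ℝ) ^ (3 / 100 : ℝ) := by
    have h1 : 14 / (z : ℝ) ^ (3 / 100 : ℝ) =
        6 / (z : ℝ) ^ (3 / 100 : ℝ) + 8 / (z : ℝ) ^ (3 / 100 : ℝ) := by
      rw [← add_div]
      norm_num
    rw [h1]
    linarith
  have ht1 : 2 * (C * x * (Real.log x) ^ 5) * (R₀ : ℝ) ^ (1 / 20 - 1 : ℝ) ≤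
      2 * (C * z * X ^ 5) * (1 / X ^ 7) := by
    gcongr
  have ht2 : C * x * (Real.log x) ^ 5 * (3 / Real.sqrt U + 4 * (Q : ℝ) / Real.sqrt x) ≤
      C * z * X ^ 5 * (14 / (z : ℝ) ^ (3 / 100 : ℝ)) := by
    gcongr
  have hQ2 : (Q : ℝ) ^ 2 ≤ (z : ℝ) ^ (4 / 5 : ℝ) := by
    calc (Q : ℝ) ^ 2 ≤ ((z : ℝ) ^ (2 / 5 : ℝ)) ^ 2 := pow_le_pow_left₀ (Nat.cast_nonneg _) hQ 2
      _ = (z : ℝ) ^ (4 / 5 : ℝ) := by
          rw [← Real.rpow_natCast, ← Real.rpow_mul hz0.le]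
          norm_num
  have ht3 : 32 * (Q : ℝ) ^ 2 * (U : ℝ) ^ 2 * Real.log x ≤
      32 * (z : ℝ) ^ (4 / 5 : ℝ) * (z : ℝ) ^ (1 / 8 : ℝ) * X := by
    gcongr
  have hin0 : 0 ≤ C * x * (Real.log x) ^ 5 * (3 / Real.sqrt U + 4 * (Q : ℝ) / Real.sqrt x) +
      32 * (Q : ℝ) ^ 2 * (U : ℝ) ^ 2 * Real.log x := by positivity
  have hin : 2 * (Q : ℝ) ^ (1 / 20 : ℝ) *
      (C * x * (Real.log x) ^ 5 * (3 / Real.sqrt U + 4 * (Q : ℝ) / Real.sqrt x) +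
        32 * (Q : ℝ) ^ 2 * (U : ℝ) ^ 2 * Real.log x) ≤
      2 * (z : ℝ) ^ (1 / 50 : ℝ) * (C * z * X ^ 5 * (14 / (z : ℝ) ^ (3 / 100 : ℝ)) +
        32 * (z : ℝ) ^ (4 / 5 : ℝ) * (z : ℝ) ^ (1 / 8 : ℝ) * X) := by
    refine mul_le_mul (by linarith) (add_le_add ht2 ht3) hin0 (by positivity)
  have hall : 3 * Real.log x * (2 * (C * x * (Real.log x) ^ 5) * (R₀ : ℝ) ^ (1 / 20 - 1 : ℝ) +
      2 * (Q : ℝ) ^ (1 / 20 : ℝ) *
      (C * x * (Real.log x) ^ 5 * (3 / Real.sqrt U + 4 * (Q : ℝ) / Real.sqrt x) +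
        32 * (Q : ℝ) ^ 2 * (U : ℝ) ^ 2 * Real.log x)) ≤
      3 * X * (2 * (C * z * X ^ 5) * (1 / X ^ 7) +
      2 * (z : ℝ) ^ (1 / 50 : ℝ) * (C * z * X ^ 5 * (14 / (z : ℝ) ^ (3 / 100 : ℝ)) +
        32 * (z : ℝ) ^ (4 / 5 : ℝ) * (z : ℝ) ^ (1 / 8 : ℝ) * X)) := by
    refine mul_le_mul (by linarith) (add_le_add ht1 hin) (by positivity) (by positivity)
  refine hall.trans ?_
  have e1 : 3 * X * (2 * (C * z * X ^ 5) * (1 / X ^ 7)) = 6 * C * z / X := by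
    field_simp
    norm_num
  have e2 : 3 * X * (2 * (z : ℝ) ^ (1 / 50 : ℝ) * (C * z * X ^ 5 * (14 / (z : ℝ) ^ (3 / 100 : ℝ)))) ≤
      2 * C * z / X := by
    have h1 : (z : ℝ) ^ (3 / 100 : ℝ) = (z : ℝ) ^ (1 / 50 : ℝ) * (z : ℝ) ^ (1 / 100 : ℝ) := by
      rw [← Real.rpow_add hz0]
      norm_num
    rw [h1]
    have h2 : 3 * X * (2 * (z : ℝ) ^ (1 / 50 : ℝ) *
        (C * z * X ^ 5 * (14 / ((z : ℝ) ^ (1 / 50 : ℝ) * (z : ℝ) ^ (1 / 100 : ℝ))))) =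
        84 * C * z * X ^ 6 / (z : ℝ) ^ (1 / 100 : ℝ) := by
      field_simp
      norm_num
    rw [h2, div_le_div_iff₀ (by positivity) hX0]
    have h4 : 48 * X ^ 7 ≤ (z : ℝ) ^ (1 / 100 : ℝ) := by linarith
    have h5 : 0 ≤ C * z := by positivity
    calc 84 * C * z * X ^ 6 * X = C * z * (84 * X ^ 7) := by ring
      _ ≤ C * z * (2 * (z : ℝ) ^ (1 / 100 : ℝ)) :=
          mul_le_mul_of_nonneg_left (by linarith [pow_pos hX0 7]) h5
      _ = 2 * C * z * (z : ℝ) ^ (1 / 100 : ℝ) := by ring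
  have e3 : 3 * X * (2 * (z : ℝ) ^ (1 / 50 : ℝ) *
      (32 * (z : ℝ) ^ (4 / 5 : ℝ) * (z : ℝ) ^ (1 / 8 : ℝ) * X)) ≤ z / X := by
    rw [le_div_iff₀ hX0]
    have h1 : 3 * X * (2 * (z : ℝ) ^ (1 / 50 : ℝ) *
        (32 * (z : ℝ) ^ (4 / 5 : ℝ) * (z : ℝ) ^ (1 / 8 : ℝ) * X)) * X =
        (192 * X ^ 3) * ((z : ℝ) ^ (1 / 50 : ℝ) * (z : ℝ) ^ (4 / 5 : ℝ) *
          (z : ℝ) ^ (1 / 8 : ℝ)) := by ring
    rw [h1, ← Real.rpow_add hz0, ← Real.rpow_add hz0]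
    calc (192 * X ^ 3) * (z : ℝ) ^ (1 / 50 + 4 / 5 + 1 / 8 : ℝ) ≤
        (z : ℝ) ^ (1 / 100 : ℝ) * (z : ℝ) ^ (1 / 50 + 4 / 5 + 1 / 8 : ℝ) :=
          mul_le_mul_of_nonneg_right (by linarith) (by positivity)
      _ = (z : ℝ) ^ (1 / 100 + (1 / 50 + 4 / 5 + 1 / 8) : ℝ) := (Real.rpow_add hz0 _ _).symm
      _ ≤ (z : ℝ) ^ (1 : ℝ) := hzpow _ _ (by norm_num)
      _ = z := Real.rpow_one _
  have e4 : (8 * C + 1) * z / X = 6 * C * z / X + (2 * C * z / X + z / X) := by ring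
  rw [e4]
  have e5 : 3 * X * (2 * (C * z * X ^ 5) * (1 / X ^ 7) +
      2 * (z : ℝ) ^ (1 / 50 : ℝ) * (C * z * X ^ 5 * (14 / (z : ℝ) ^ (3 / 100 : ℝ)) +
        32 * (z : ℝ) ^ (4 / 5 : ℝ) * (z : ℝ) ^ (1 / 8 : ℝ) * X)) =
      3 * X * (2 * (C * z * X ^ 5) * (1 / X ^ 7)) +
      (3 * X * (2 * (z : ℝ) ^ (1 / 50 : ℝ) * (C * z * X ^ 5 * (14 / (z : ℝ) ^ (3 / 100 : ℝ)))) +
      3 * X * (2 * (z : ℝ) ^ (1 / 50 : ℝ) *
      (32 * (z : ℝ) ^ (4 / 5 : ℝ) * (z : ℝ) ^ (1 / 8 : ℝ) * X))) := by ring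
  rw [e5, e1]
  linarith

/-- lower bound for the number of primes `≡ 1` mod `q` in `(y, x]`, with the totient. -/
theorem pr_lower_phi (q y x : ℕ) (hx : 1 ≤ x) (hyx : y ≤ x) :
    (psi x - psi y) * ((1 : ℝ) / q.totient) - er x q - er y q - 2 * Real.sqrt x * Real.log x ≤
      Real.log x * (pr q y x).card := by
  have h1 := psiA_diff_le q y x hx hyx
  have h2 : psi x / q.totient - er x q ≤ psiA q 1 x := by
    have := neg_abs_le (psiA q 1 x - psi x / q.totient)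
    unfold er; linarith
  have h3 : psiA q 1 y ≤ psi y / q.totient + er y q := by
    have := le_abs_self (psiA q 1 y - psi y / q.totient)
    unfold er; linarith
  have h4 : (psi x - psi y) * ((1 : ℝ) / q.totient) = psi x / q.totient - psi y / q.totient := by
    ring
  rw [h4]
  linarith

/-- the number of pairs, with totients. -/
theorem pairs_count2 (Q : Finset ℕ) (k x y : ℕ) (hQ : ∀ q ∈ Q, q.Prime)
    (hx : 1 ≤ x) (hyx : y ≤ x) :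
    (psi x - psi y) * EE Q k -
      ∑ T ∈ Q.powersetCard k, er x (dT T) - ∑ T ∈ Q.powersetCard k, er y (dT T) -
      (Q.card.choose k : ℝ) * (2 * Real.sqrt x * Real.log x) ≤
      Real.log x * ((∑ T ∈ Q.powersetCard k, (pr (dT T) y x).card : ℕ) : ℝ) := by
  classical
  have h1 : ∀ T ∈ Q.powersetCard k, (psi x - psi y) * wT T - er x (dT T) -
      er y (dT T) - 2 * Real.sqrt x * Real.log x ≤ Real.log x * (pr (dT T) y x).card := by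
    intro T hT
    have h2 := pr_lower_phi (dT T) y x hx hyx
    rwa [totient_dT fun q hq => hQ q ((mem_powersetCard.1 hT).1 hq)] at h2
  have h2 := sum_le_sum h1
  rw [sum_sub_distrib, sum_sub_distrib, sum_sub_distrib, sum_const, card_powersetCard,
    nsmul_eq_mul, ← mul_sum, ← mul_sum] at h2
  push_cast at h2 ⊢
  exact h2

theorem choose_le_EE {Q : Finset ℕ} {Y k : ℕ} (hQ : ∀ q ∈ Q, q.Prime) (hQY : ∀ q ∈ Q, q ≤ Y) :
    (Q.card.choose k : ℝ) ≤ EE Q k * (Y : ℝ) ^ k := by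
  classical
  have h1 : ∀ T ∈ Q.powersetCard k, (1 : ℝ) ≤ wT T * (Y : ℝ) ^ k := by
    intro T hT
    have hp : ∀ q ∈ T, q.Prime := fun q hq => hQ q ((mem_powersetCard.1 hT).1 hq)
    have h2 : ((dT T).totient : ℝ) ≤ (Y : ℝ) ^ k := by
      exact_mod_cast (Nat.totient_le _).trans (dT_le hQY hT)
    have h3 : (0 : ℝ) < (dT T).totient := by
      exact_mod_cast Nat.totient_pos.2 (dT_pos hp)
    rw [← totient_dT hp, one_div_mul_eq_div, le_div_iff₀ h3]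
    linarith
  have h2 := sum_le_sum h1
  rw [sum_const, card_powersetCard, nsmul_eq_mul, mul_one, ← sum_mul] at h2
  exact h2

end Pool.Agent.Work.MP_aac176_nt.Low
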