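import Pool.Agent.Work.MP_d3dd4c_nt.Count

/-!
MP_aac176_nt, lower bound: primes `p` such that `p - 1` has no large prime factor, from the
theorem of Bombieri and Vinogradov (method of Goldfeld).
-/

set_option autoImplicit false

namespace Pool.Agent.Work.MP_aac176_nt.Low

open Finset Pool.Agent.BV Pool.Agent.D3 Filter
open scoped ArithmeticFunction.vonMangoldt

/-- the primes in `(y, x]` for which `p - 1` has a prime factor larger than `B`. -/
noncomputable def Bad (B : ℝ) (y x : ℕ) : Finset ℕ := by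
  classical exact (pr 1 y x).filter fun p => ∃ r : ℕ, r.Prime ∧ r ∣ p - 1 ∧ B < r

/-- the primes in `(y, x]` for which `p - 1` has no prime factor larger than `B`. -/
noncomputable def Good (B : ℝ) (y x : ℕ) : Finset ℕ := by
  classical exact (pr 1 y x).filter fun p => ¬ ∃ r : ℕ, r.Prime ∧ r ∣ p - 1 ∧ B < r

theorem good_add_bad (B : ℝ) (y x : ℕ) : (Good B y x).card + (Bad B y x).card = (pr 1 y x).card := by
  classical
  rw [Good, Bad, add_comm]
  exact card_filter_add_card_filter_not _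

theorem mem_pr_one {y x p : ℕ} : p ∈ pr 1 y x ↔ y < p ∧ p ≤ x ∧ p.Prime := by
  rw [pr, mem_filter, mem_Ioc]
  constructor
  · rintro ⟨⟨h1, h2⟩, h3, -⟩
    exact ⟨h1, h2, h3⟩
  · rintro ⟨h1, h2, h3⟩
    exact ⟨⟨h1, h2⟩, h3, Nat.modEq_one⟩

theorem double_count (B : ℝ) (hB : 1 ≤ B) (Q y x : ℕ) (hQ : (Q : ℝ) ≤ B) :
    ∑ d ∈ Icc 1 Q, Λ d * (pr d y x).card + Real.log B * (Bad B y x).card ≤
      (pr 1 y x).card * Real.log x := by
  classical
  have hpt : ∀ p ∈ pr 1 y x, ∑ d ∈ Icc 1 Q, (if d ∣ p - 1 then Λ d else 0) +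
      (if ∃ r : ℕ, r.Prime ∧ r ∣ p - 1 ∧ B < r then Real.log B else 0) ≤ Real.log x := by
    intro p hp
    obtain ⟨h1, h2, h3⟩ := mem_pr_one.1 hp
    have hp2 := h3.two_le
    have h4 : ∑ d ∈ (p - 1).divisors, Λ d = Real.log (p - 1 : ℕ) :=
      ArithmeticFunction.vonMangoldt_sum
    have h5 : Real.log (p - 1 : ℕ) ≤ Real.log x := by
      refine Real.log_le_log ?_ ?_
      · exact_mod_cast (show 0 < p - 1 by omega)
      · exact_mod_cast (show p - 1 ≤ x by omega)
    refine le_trans ?_ h5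
    rw [← h4, ← sum_filter]
    by_cases hb : ∃ r : ℕ, r.Prime ∧ r ∣ p - 1 ∧ B < r
    · rw [if_pos hb]
      obtain ⟨r, hr1, hr2, hr3⟩ := hb
      have h6 : Real.log B ≤ Λ r := by
        rw [ArithmeticFunction.vonMangoldt_apply_prime hr1]
        exact Real.log_le_log (by linarith) hr3.le
      have h7 : r ∉ (Icc 1 Q).filter fun d => d ∣ p - 1 := by
        intro h
        have h8 := (mem_Icc.1 (mem_filter.1 h).1).2
        have h9 : (r : ℝ) ≤ Q := by exact_mod_cast h8
        linarith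
      have h8 : ∑ d ∈ insert r ((Icc 1 Q).filter fun d => d ∣ p - 1), Λ d ≤
          ∑ d ∈ (p - 1).divisors, Λ d := by
        refine sum_le_sum_of_subset_of_nonneg ?_ fun _ _ _ => ArithmeticFunction.vonMangoldt_nonneg
        intro d hd
        rw [Nat.mem_divisors]
        refine ⟨?_, by omega⟩
        rw [mem_insert] at hd
        rcases hd with rfl | hd
        · exact hr2
        · exact (mem_filter.1 hd).2
      rw [sum_insert h7] at h8
      linarith
    · rw [if_neg hb, add_zero]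
      refine sum_le_sum_of_subset_of_nonneg ?_ fun _ _ _ => ArithmeticFunction.vonMangoldt_nonneg
      intro d hd
      rw [Nat.mem_divisors]
      exact ⟨(mem_filter.1 hd).2, by omega⟩
  have h1 := sum_le_sum hpt
  rw [sum_const, nsmul_eq_mul, sum_add_distrib, sum_comm] at h1
  refine le_trans (le_of_eq ?_) h1
  congr 1
  · refine sum_congr rfl fun d _ => ?_
    rw [← sum_filter, sum_const, nsmul_eq_mul, mul_comm]
    congr 2
    congr 1
    ext p
    rw [mem_filter, mem_pr_one, pr, mem_filter, mem_Ioc]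
    constructor
    · rintro ⟨⟨a, b⟩, c, d⟩
      exact ⟨⟨a, b, c⟩, (Nat.modEq_iff_dvd' c.one_le).1 d.symm⟩
    · rintro ⟨⟨a, b, c⟩, d⟩
      exact ⟨⟨a, b⟩, c, ((Nat.modEq_iff_dvd' c.one_le).2 d).symm⟩
  · rw [← sum_filter, sum_const, nsmul_eq_mul, mul_comm]
    rfl

theorem mertens_lower (Q : ℕ) (hQ : 1 ≤ Q) : Real.log Q - 1 ≤ ∑ d ∈ Icc 1 Q, Λ d / d := by
  have hQ0 : (0 : ℝ) < Q := by exact_mod_cast hQ
  have h1 : Real.log (Q.factorial : ℝ) = ∑ n ∈ Icc 1 Q, Real.log n := by
    have h0 : ∀ n : ℕ, Real.log (n.factorial : ℝ) = ∑ k ∈ Icc 1 n, Real.log k := by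
      intro n
      induction n with
      | zero => simp
      | succ n ih =>
        rw [Nat.factorial_succ, Nat.cast_mul, Real.log_mul (by positivity) (by positivity), ih,
          Finset.sum_Icc_succ_top (by omega)]
        ring
    exact h0 Q
  have h2 : ∑ n ∈ Icc 1 Q, Real.log n = ∑ d ∈ Icc 1 Q, Λ d * ((Icc 1 Q).filter (fun n => d ∣ n)).card := by
    have h3 : ∀ n ∈ Icc 1 Q, Real.log n = ∑ d ∈ Icc 1 Q, if d ∣ n then Λ d else 0 := by
      intro n hn
      have hn' := mem_Icc.1 hn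
      rw [← ArithmeticFunction.vonMangoldt_sum, ← sum_filter]
      refine sum_congr ?_ fun _ _ => rfl
      ext d
      rw [Nat.mem_divisors, mem_filter, mem_Icc]
      constructor
      · rintro ⟨h4, h5⟩
        exact ⟨⟨Nat.pos_of_dvd_of_pos h4 (by omega), (Nat.le_of_dvd (by omega) h4).trans hn'.2⟩, h4⟩
      · rintro ⟨-, h4⟩
        exact ⟨h4, by omega⟩
    rw [sum_congr rfl h3, sum_comm]
    refine sum_congr rfl fun d _ => ?_
    rw [← sum_filter, sum_const, nsmul_eq_mul, mul_comm]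
  have h3 : ∀ d ∈ Icc 1 Q, (((Icc 1 Q).filter (fun n => d ∣ n)).card : ℝ) ≤ Q / d := by
    intro d hd
    have hd1 := (mem_Icc.1 hd).1
    have h4 : ((Icc 1 Q).filter (fun n => d ∣ n)).card = Q / d := by
      have h5 : Icc 1 Q = Ioc 0 Q := by
        ext n
        rw [mem_Icc, mem_Ioc]
        omega
      rw [h5]
      exact Nat.Ioc_filter_dvd_card_eq_div Q d
    rw [h4]
    exact Nat.cast_div_le
  have h4 : Q * Real.log Q - Q ≤ Real.log (Q.factorial : ℝ) := by
    have h5 := Real.pow_div_factorial_le_exp (Q : ℝ) hQ0.le Q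
    have h6 : (0 : ℝ) < (Q : ℝ) ^ Q / Q.factorial := by positivity
    have h7 := Real.log_le_log h6 h5
    rw [Real.log_exp, Real.log_div (by positivity) (by positivity), Real.log_pow] at h7
    linarith
  have h5 : Real.log (Q.factorial : ℝ) ≤ Q * ∑ d ∈ Icc 1 Q, Λ d / d := by
    rw [h1, h2, mul_sum]
    refine sum_le_sum fun d hd => ?_
    calc Λ d * ((Icc 1 Q).filter (fun n => d ∣ n)).card ≤ Λ d * (Q / d) :=
          mul_le_mul_of_nonneg_left (h3 d hd) ArithmeticFunction.vonMangoldt_nonneg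
      _ = Q * (Λ d / d) := by ring
  have h6 : (Q : ℝ) * (Real.log Q - 1) ≤ Q * ∑ d ∈ Icc 1 Q, Λ d / d := by linarith
  exact le_of_mul_le_mul_left h6 hQ0

theorem psi_mono' {y x : ℕ} (h : y ≤ x) : psi y ≤ psi x := by
  unfold psi
  refine sum_le_sum_of_subset_of_nonneg (Icc_subset_Icc_right h) ?_
  intro n _ _
  exact ArithmeticFunction.vonMangoldt_nonneg

theorem card_pr_le {y x : ℕ} (hy : 1 ≤ y) (hyx : y ≤ x) :
    ((pr 1 y x).card : ℝ) * Real.log y ≤ psi x - psi y := by
  have h1 : psi x - psi y = ∑ n ∈ Ioc y x, Λ n := by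
    unfold psi
    have e1 : Icc 1 x = Ioc 0 x := by ext n; simp; omega
    have e2 : Icc 1 y = Ioc 0 y := by ext n; simp; omega
    rw [e1, e2, ← sum_Ioc_consecutive _ (Nat.zero_le y) hyx]
    ring
  rw [h1, ← nsmul_eq_mul]
  have h2 : (pr 1 y x).card • Real.log y ≤ ∑ p ∈ pr 1 y x, Λ p := by
    refine card_nsmul_le_sum _ _ _ fun p hp => ?_
    obtain ⟨h3, h4, h5⟩ := mem_pr_one.1 hp
    rw [ArithmeticFunction.vonMangoldt_apply_prime h5]
    exact Real.log_le_log (by exact_mod_cast hy) (by exact_mod_cast h3.le)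
  refine h2.trans (sum_le_sum_of_subset_of_nonneg ?_ fun _ _ _ =>
    ArithmeticFunction.vonMangoldt_nonneg)
  rw [pr]
  exact filter_subset _ _

/-- the main inequality. -/
theorem good_lower (B : ℝ) (hB : 1 ≤ B) (Q y x : ℕ) (hQ1 : 1 ≤ Q) (hQ : (Q : ℝ) ≤ B) (hy : 2 ≤ y)
    (hyx : y ≤ x) (hBx : B ≤ x) :
    (psi x - psi y) * ((Real.log Q - 1) - Real.log x * (Real.log x - Real.log B) / Real.log y) -
      (Real.log x * (∑ d ∈ Icc 1 Q, er x d + ∑ d ∈ Icc 1 Q, er y d) +
        Q * (Real.log x * (2 * Real.sqrt x * Real.log x))) ≤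
      Real.log B * Real.log x * (Good B y x).card := by
  have hxR : (2 : ℝ) ≤ x := by exact_mod_cast hy.trans hyx
  set X := Real.log x with hX
  have hX0 : 0 < X := Real.log_pos (by linarith)
  have hy0 : 0 < Real.log y := Real.log_pos (by exact_mod_cast (show 1 < y by omega))
  have hB0 : 0 ≤ Real.log B := Real.log_nonneg hB
  have hBX : Real.log B ≤ X := Real.log_le_log (by linarith) hBx
  have hpsi : 0 ≤ psi x - psi y := by linarith [psi_mono' hyx]
  have h1 := double_count B hB Q y x hQ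
  have h2 := mertens_lower Q hQ1
  have h3 := card_pr_le (show 1 ≤ y by omega) hyx
  have h4 : ((Good B y x).card : ℝ) + (Bad B y x).card = (pr 1 y x).card := by
    exact_mod_cast good_add_bad B y x
  -- lower bound for the sum over small moduli
  have h5 : (psi x - psi y) * (Real.log Q - 1) -
      (X * (∑ d ∈ Icc 1 Q, er x d + ∑ d ∈ Icc 1 Q, er y d) +
        Q * (X * (2 * Real.sqrt x * X))) ≤ X * ∑ d ∈ Icc 1 Q, Λ d * (pr d y x).card := by
    have h6 : ∀ d ∈ Icc 1 Q, (psi x - psi y) * (Λ d / d) - (X * (er x d + er y d) +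
        X * (2 * Real.sqrt x * X)) ≤ X * (Λ d * (pr d y x).card) := by
      intro d hd
      have hd' := mem_Icc.1 hd
      have h7 := pr_lower d y x hd'.1 (by omega) hyx
      have h8 : Λ d ≤ X := by
        refine ArithmeticFunction.vonMangoldt_le_log.trans ?_
        refine Real.log_le_log (by exact_mod_cast hd'.1) ?_
        have : (d : ℝ) ≤ Q := by exact_mod_cast hd'.2
        linarith
      have h9 : 0 ≤ Λ d := ArithmeticFunction.vonMangoldt_nonneg
      have h10 : 0 ≤ er x d + er y d := add_nonneg (er_nonneg _ _) (er_nonneg _ _)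
      have h11 : 0 ≤ 2 * Real.sqrt x * X := by positivity
      have h12 := mul_le_mul_of_nonneg_left h7 h9
      have h13 := mul_le_mul_of_nonneg_right h8 h10
      have h14 := mul_le_mul_of_nonneg_right h8 h11
      have h15 : Λ d * ((psi x - psi y) / d - er x d - er y d - 2 * Real.sqrt x * X) =
          (psi x - psi y) * (Λ d / d) - Λ d * (er x d + er y d) - Λ d * (2 * Real.sqrt x * X) := by
        ring
      have h16 : Λ d * (X * ((pr d y x).card : ℝ)) = X * (Λ d * (pr d y x).card) := by ring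
      rw [← hX] at h12
      rw [h15, h16] at h12
      linarith
    have h7 := sum_le_sum h6
    rw [← mul_sum, sum_sub_distrib, sum_add_distrib, sum_const, Nat.card_Icc, ← mul_sum, ← mul_sum,
      sum_add_distrib, nsmul_eq_mul, Nat.add_sub_cancel] at h7
    have h8 := mul_le_mul_of_nonneg_left h2 hpsi
    linarith
  have h6 := mul_le_mul_of_nonneg_left h1 hX0.le
  have h7 : (psi x - psi y) * (X * (X - Real.log B) / Real.log y) ≥
      X * (X - Real.log B) * (pr 1 y x).card := by
    have h8 : ((pr 1 y x).card : ℝ) ≤ (psi x - psi y) / Real.log y := by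
      rw [le_div_iff₀ hy0]
      exact h3
    have h9 : 0 ≤ X * (X - Real.log B) := mul_nonneg hX0.le (by linarith)
    have h10 := mul_le_mul_of_nonneg_left h8 h9
    calc X * (X - Real.log B) * (pr 1 y x).card ≤
        X * (X - Real.log B) * ((psi x - psi y) / Real.log y) := h10
      _ = (psi x - psi y) * (X * (X - Real.log B) / Real.log y) := by ring
  have h8 : Real.log B * X * (Good B y x).card =
      Real.log B * X * (pr 1 y x).card - X * (Real.log B * (Bad B y x).card) := by
    rw [← h4]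
    ring
  rw [h8]
  rw [mul_sub]
  nlinarith

theorem loglog_small (c : ℝ) (hc : 0 < c) :
    ∀ᶠ x : ℕ in atTop, Real.log (Real.log x) ≤ c * Real.log x := by
  have h1 := Real.isLittleO_log_id_atTop.bound hc
  have h2 := (Real.tendsto_log_atTop.comp (tendsto_natCast_atTop_atTop (R := ℝ))).eventually h1
  filter_upwards [h2, eventually_ge_atTop 1] with x hx hx1
  simp only [Function.comp_apply, id_eq, Real.norm_eq_abs] at hx
  have h3 : |Real.log (x : ℝ)| = Real.log x := by
    rw [abs_of_nonneg]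
    exact Real.log_nonneg (by exact_mod_cast hx1)
  rw [h3] at hx
  exact (le_abs_self _).trans hx

/-- **Primes with smooth predecessor.** -/
theorem smooth_primes (η : ℝ) (hη : 0 < η) (hη2 : η < 1 / 2) :
    ∀ᶠ x : ℕ in atTop, η * x / (8 * Real.log x) ≤
      ((Good ((x : ℝ) ^ (1 / 2 + η)) (x / 2) x).card : ℝ) := by
  obtain ⟨C, hC, hbv0⟩ := bv_er 1
  have hbv : ∀ x Q : ℕ, 3 ≤ x → (Q : ℝ) * Real.log x ^ 32 ≤ Real.sqrt x →
      ∑ q ∈ Icc 1 Q, er x q ≤ C * x / Real.log x := by
    intro x Q hx hQ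
    have h1 : (Q : ℝ) * Real.log x ^ (4 * 1 + 28) ≤ Real.sqrt x := by
      norm_num
      exact hQ
    have h2 := hbv0 x Q hx h1
    rwa [pow_one] at h2
  obtain ⟨K, hK, hpsi⟩ := psi_close (1 / 18) (by norm_num)
  filter_upwards [loglog_small (η / 512) (by positivity), log_large (48 / η),
    log_large (24 * (2 * C + 1) / η), eventually_ge_atTop (16 + ⌈24 * K⌉₊)] with x h1 h2 h3 h4
  have hx16 : 16 ≤ x := by omega
  have hxR : (16 : ℝ) ≤ x := by exact_mod_cast hx16
  have hx0 : (0 : ℝ) < x := by linarith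
  have hKx : 24 * K ≤ x := by
    have h5 : (⌈24 * K⌉₊ : ℝ) ≤ x := by exact_mod_cast (show ⌈24 * K⌉₊ ≤ x by omega)
    exact (Nat.le_ceil _).trans h5
  set X := Real.log x with hX
  have hX96 : 96 < X := by
    refine lt_of_lt_of_le ?_ h2
    rw [lt_div_iff₀ hη]
    linarith
  have hX0 : 0 < X := by linarith
  have hηX : 48 ≤ η * X := by
    rw [div_le_iff₀ hη] at h2
    linarith
  have hCX : 24 * (2 * C + 1) ≤ η * X := by
    rw [div_le_iff₀ hη] at h3
    linarith
  have hlog4 : Real.log 4 ≤ 2 := by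
    have := Real.log_two_lt_d9
    have h5 : Real.log 4 = 2 * Real.log 2 := by
      rw [show (4 : ℝ) = 2 ^ (2 : ℕ) by norm_num, Real.log_pow]
      push_cast
      ring
    linarith
  -- the parameters
  set y := x / 2 with hy
  have hy8 : 8 ≤ y := by omega
  have hyx : y ≤ x := Nat.div_le_self _ _
  have hyR : (y : ℝ) ≤ x / 2 := Nat.cast_div_le
  have hyR4 : (x : ℝ) / 4 ≤ y := by
    have h5 : x ≤ 4 * y := by omega
    have h6 : (x : ℝ) ≤ 4 * y := by exact_mod_cast h5
    linarith
  have hy0 : (0 : ℝ) < y := by linarith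
  have hlogy : X - 2 ≤ Real.log y := by
    have h5 := Real.log_le_log (by linarith) hyR4
    rw [Real.log_div (by linarith) (by norm_num)] at h5
    linarith
  have hlogyX : Real.log y ≤ X := Real.log_le_log hy0 (by linarith)
  have hlogy0 : 0 < Real.log y := by linarith
  set A₀ : ℝ := Real.sqrt x / (2 * X ^ 32) with hA₀
  have hsx : 0 < Real.sqrt x := Real.sqrt_pos.2 hx0
  have hsxx : Real.sqrt x * Real.sqrt x = x := Real.mul_self_sqrt hx0.le
  have hA₀0 : 0 < A₀ := by positivity
  set Q := ⌊A₀⌋₊ with hQ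
  have hQA : (Q : ℝ) ≤ A₀ := Nat.floor_le hA₀0.le
  have hlogA : (1 / 2 - η / 8) * X + 1 ≤ Real.log (A₀ / 2) := by
    have h5 : Real.log (A₀ / 2) = X / 2 - 2 * Real.log 2 - 32 * Real.log X := by
      rw [Real.log_div hA₀0.ne' (by norm_num), hA₀, Real.log_div hsx.ne' (by positivity),
        Real.log_sqrt hx0.le, Real.log_mul (by norm_num) (by positivity), Real.log_pow]
      push_cast
      ring
    have h6 := Real.log_two_lt_d9
    rw [h5]
    nlinarith
  have hA₀2 : 2 ≤ A₀ := by
    have h5 : 0 < Real.log (A₀ / 2) := by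
      refine lt_of_lt_of_le ?_ hlogA
      have : 0 < (1 / 2 - η / 8) * X := mul_pos (by linarith) hX0
      linarith
    rw [Real.log_pos_iff (by positivity)] at h5
    linarith
  have hQge : A₀ / 2 ≤ Q := by
    have h5 := Nat.lt_floor_add_one A₀
    rw [← hQ] at h5
    linarith
  have hQ1 : 1 ≤ Q := by
    have h5 : (1 : ℝ) ≤ Q := by linarith
    exact_mod_cast h5
  have hlogQ : (1 / 2 - η / 8) * X ≤ Real.log Q - 1 := by
    have h5 := Real.log_le_log (by positivity) hQge
    linarith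
  set B : ℝ := (x : ℝ) ^ (1 / 2 + η) with hB
  have hx1 : (1 : ℝ) ≤ x := by linarith
  have hB1 : 1 ≤ B := Real.one_le_rpow hx1 (by linarith)
  have hBx : B ≤ x := by
    calc B ≤ (x : ℝ) ^ (1 : ℝ) := Real.rpow_le_rpow_of_exponent_le hx1 (by linarith)
      _ = x := Real.rpow_one _
  have hX32 : 1 ≤ X ^ 32 := one_le_pow₀ (by linarith)
  have hQB : (Q : ℝ) ≤ B := by
    have h5 : A₀ ≤ Real.sqrt x := by
      rw [hA₀, div_le_iff₀ (by positivity)]
      nlinarith
    have h6 : Real.sqrt x ≤ B := by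
      rw [Real.sqrt_eq_rpow]
      exact Real.rpow_le_rpow_of_exponent_le hx1 (by linarith)
    linarith
  have hlogB : Real.log B = (1 / 2 + η) * X := Real.log_rpow hx0 _
  have hmain := good_lower B hB1 Q y x hQ1 hQB (by omega) hyx hBx
  rw [← hX, hlogB] at hmain
  have hA32 : A₀ * X ^ 32 = Real.sqrt x / 2 := by
    rw [hA₀]
    field_simp
  -- the errors
  have he1 : ∑ d ∈ Icc 1 Q, er x d ≤ C * x / X := by
    refine hbv x Q (by omega) ?_
    calc (Q : ℝ) * X ^ 32 ≤ A₀ * X ^ 32 := mul_le_mul_of_nonneg_right hQA (by positivity)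
      _ = Real.sqrt x / 2 := hA32
      _ ≤ Real.sqrt x := by linarith
  have he2 : ∑ d ∈ Icc 1 Q, er y d ≤ C * y / Real.log y := by
    refine hbv y Q (by omega) ?_
    have h8 : Real.log y ^ 32 ≤ X ^ 32 := pow_le_pow_left₀ hlogy0.le hlogyX 32
    have h9 : 0 ≤ Real.log y ^ 32 := by positivity
    calc (Q : ℝ) * Real.log y ^ 32 ≤ A₀ * X ^ 32 := mul_le_mul hQA h8 h9 hA₀0.le
      _ = Real.sqrt x / 2 := hA32
      _ ≤ Real.sqrt y := by
        have h6 : Real.sqrt (x / 4) ≤ Real.sqrt y := Real.sqrt_le_sqrt hyR4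
        have h7 : Real.sqrt (x / 4) = Real.sqrt x / 2 := by
          rw [Real.sqrt_div hx0.le, show (4 : ℝ) = 2 ^ 2 by norm_num,
            Real.sqrt_sq (by norm_num)]
        linarith
  have he3 : X * (C * x / X) = C * x := by field_simp
  have he4 : X * (C * y / Real.log y) ≤ C * x := by
    have h5 : X ≤ 2 * Real.log y := by linarith
    calc X * (C * y / Real.log y) = C * y * (X / Real.log y) := by ring
      _ ≤ C * y * 2 := by
        refine mul_le_mul_of_nonneg_left ?_ (by positivity)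
        rw [div_le_iff₀ hlogy0]
        exact h5
      _ ≤ C * x := by nlinarith
  have he5 : (Q : ℝ) * (X * (2 * Real.sqrt x * X)) ≤ x := by
    calc (Q : ℝ) * (X * (2 * Real.sqrt x * X)) ≤ A₀ * (X * (2 * Real.sqrt x * X)) :=
          mul_le_mul_of_nonneg_right hQA (by positivity)
      _ = x / X ^ 30 := by
        rw [hA₀]
        field_simp
        rw [sq, hsxx]
      _ ≤ x := div_le_self hx0.le (one_le_pow₀ (by linarith))
  have hE : X * (∑ d ∈ Icc 1 Q, er x d + ∑ d ∈ Icc 1 Q, er y d) +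
      Q * (X * (2 * Real.sqrt x * X)) ≤ (2 * C + 1) * x := by
    have h5 := mul_le_mul_of_nonneg_left he1 hX0.le
    have h6 := mul_le_mul_of_nonneg_left he2 hX0.le
    rw [he3] at h5
    linarith
  have hE2 : (2 * C + 1) * x ≤ η * X * x / 24 := by nlinarith
  -- the main term
  have hψ : (x : ℝ) / 3 ≤ psi x - psi y := by
    have h5 := (abs_le.1 (hpsi x)).1
    have h6 := (abs_le.1 (hpsi y)).2
    linarith
  have hbr : 3 / 4 * η * X ≤ (Real.log Q - 1) - X * (X - (1 / 2 + η) * X) / Real.log y := by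
    have h5 : X ≤ (1 + η / 4) * Real.log y := by nlinarith
    have h6 : X * (X - (1 / 2 + η) * X) / Real.log y ≤ (1 / 2 - 7 * η / 8) * X := by
      rw [div_le_iff₀ hlogy0]
      have h7 : 0 ≤ (1 / 2 - η) * X := mul_nonneg (by linarith) hX0.le
      have h8 := mul_le_mul_of_nonneg_left h5 h7
      have h9 : (1 / 2 - η) * (1 + η / 4) ≤ 1 / 2 - 7 * η / 8 := by nlinarith
      have h10 := mul_le_mul_of_nonneg_right h9 (show 0 ≤ X * Real.log y by positivity)
      nlinarith
    linarith
  have hprod : (x : ℝ) / 3 * (3 / 4 * η * X) ≤ (psi x - psi y) *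
      ((Real.log Q - 1) - X * (X - (1 / 2 + η) * X) / Real.log y) :=
    mul_le_mul hψ hbr (by positivity) (by linarith [show (0 : ℝ) < x / 3 by positivity])
  have hfin : η * X * x * (5 / 24) ≤ (1 / 2 + η) * X * X * (Good B y x).card := by
    have h5 : (x : ℝ) / 3 * (3 / 4 * η * X) = η * X * x / 4 := by ring
    rw [h5] at hprod
    linarith
  have hG : (0 : ℝ) ≤ (Good B y x).card := Nat.cast_nonneg _
  have hfin2 : (1 / 2 + η) * X * X * (Good B y x).card ≤ X * X * (Good B y x).card := by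
    have h5 : 0 ≤ X * X * (Good B y x).card := by positivity
    nlinarith
  rw [div_le_iff₀ (by positivity)]
  have h5 : η * x * (5 / 24) ≤ X * (Good B y x).card := by
    have h6 : X * (η * x * (5 / 24)) ≤ X * (X * (Good B y x).card) := by linarith
    exact le_of_mul_le_mul_left h6 hX0
  nlinarith

end Pool.Agent.Work.MP_aac176_nt.Low
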