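import Pool.Agent.Work.MP_aac176_nt.Low.Comb
import Pool.Agent.Work.MP_aac176_nt.Low.Smooth

/-!
MP_aac176_nt, lower bound: the choice of the parameters and the theorem.
-/

set_option autoImplicit false

namespace Pool.Agent.Work.MP_aac176_nt.Low

open Finset Filter Pool.Agent.D3

theorem log_le_rpow (ε c : ℝ) (hε : 0 < ε) (hc : 0 < c) :
    ∀ᶠ z : ℕ in atTop, Real.log z ≤ c * (z : ℝ) ^ ε := by
  have h1 := (isLittleO_log_rpow_atTop hε).bound hc
  have h2 := (tendsto_natCast_atTop_atTop (R := ℝ)).eventually h1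
  filter_upwards [h2] with z hz
  rw [Real.norm_eq_abs, Real.norm_eq_abs, abs_of_nonneg (a := (z : ℝ) ^ ε) (by positivity)] at hz
  exact (le_abs_self _).trans hz

theorem mem_good {B : ℝ} {y x p : ℕ} : p ∈ Good B y x ↔
    p ∈ pr 1 y x ∧ ∀ r : ℕ, r.Prime → r ∣ p - 1 → (r : ℝ) ≤ B := by
  classical
  unfold Good
  rw [mem_filter]
  push Not
  rfl

theorem rpow_large (ε M : ℝ) (hε : 0 < ε) : ∀ᶠ z : ℕ in atTop, M ≤ (z : ℝ) ^ ε :=
  ((tendsto_rpow_atTop hε).comp (tendsto_natCast_atTop_atTop (R := ℝ))).eventually_ge_atTop M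

theorem main_z (η a' : ℝ) (hη : 0 < η) (hη2 : η < 1 / 2) (ha1 : 1 / 2 + 2 * η < a')
    (ha2 : a' < Real.log 2 / Real.log 3) :
    ∀ᶠ z : ℕ in atTop, ∃ l : ℕ, Real.log l ≤ (z : ℝ) ^ (1 / 2 + 2 * η) ∧ 0 < l ∧
      ∀ j, l ≤ j → (2 : ℝ) ^ j * Real.exp ((z : ℝ) ^ a' - 1) ≤ ((S j).ncard : ℝ) := by
  set κ := Real.log 2 / Real.log 3 with hκ
  have hlog3 : 0 < Real.log 3 := Real.log_pos (by norm_num)
  have hlog2 : 0 < Real.log 2 := Real.log_pos (by norm_num)
  have hκ1 : κ < 1 := by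
    rw [hκ, div_lt_one hlog3]
    exact Real.log_lt_log (by norm_num) (by norm_num)
  have ha'0 : 0 < a' := by linarith
  filter_upwards [smooth_primes η hη hη2, log_large 2, eventually_ge_atTop 16,
    log_le_rpow (1 - a') (η / 32) (by linarith) (by positivity),
    log_le_rpow (1 - a') (1 / 12) (by linarith) (by norm_num),
    log_le_rpow (κ - a') (η / 512) (by linarith) (by positivity),
    log_le_rpow η (1 / 4) hη (by norm_num),
    rpow_large (a' - (1 / 2 + 2 * η)) 5 (by linarith),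
    rpow_large (1 / 2 + η) 3 (by linarith)] with z hsm hX2 hz16 h1 h2 h3 h4 h5 h6
  have hzR : (16 : ℝ) ≤ z := by exact_mod_cast hz16
  have hz0 : (0 : ℝ) < z := by linarith
  have hz1 : (1 : ℝ) ≤ z := by linarith
  set X := Real.log z with hX
  have hX0 : 0 < X := by linarith
  have hza0 : (0 : ℝ) < (z : ℝ) ^ a' := Real.rpow_pos_of_pos hz0 _
  have hza1 : (1 : ℝ) ≤ (z : ℝ) ^ a' := Real.one_le_rpow hz1 ha'0.le
  have hsplit : (z : ℝ) ^ (1 - a') * (z : ℝ) ^ a' = z := by
    rw [← Real.rpow_add hz0]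
    norm_num
  -- the parameters
  set L := Nat.log 2 z + 1 with hL
  have hzL : z < 2 ^ L := Nat.lt_pow_succ_log_self (by norm_num) z
  have hLX : (L : ℝ) ≤ 2 * X := by
    have h7 : (2 : ℝ) ^ Nat.log 2 z ≤ z := by
      exact_mod_cast Nat.pow_log_le_self 2 (by omega)
    have h8 := Real.log_le_log (by positivity) h7
    rw [Real.log_pow, ← hX] at h8
    have h9 := Real.log_two_gt_d9
    have h10 : (0 : ℝ) ≤ (Nat.log 2 z : ℝ) := Nat.cast_nonneg _
    rw [hL]
    push_cast
    nlinarith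
  set y := ⌊(z : ℝ) ^ (1 / 2 + η)⌋₊ with hy
  set l := primorial y ^ L with hl
  set m := ⌊(z : ℝ) ^ a'⌋₊ with hm
  set n := ⌊η * z / (8 * X)⌋₊ with hn
  have hyle : (y : ℝ) ≤ (z : ℝ) ^ (1 / 2 + η) := Nat.floor_le (by positivity)
  have hy3 : 3 ≤ y := Nat.le_floor (by exact_mod_cast h6)
  have hmle : (m : ℝ) ≤ (z : ℝ) ^ a' := Nat.floor_le hza0.le
  have hmge : (z : ℝ) ^ a' - 1 ≤ m := by
    have := Nat.lt_floor_add_one ((z : ℝ) ^ a')
    rw [← hm] at this
    linarith
  have hm1 : 1 ≤ m := Nat.le_floor (by exact_mod_cast hza1)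
  have hnle : (n : ℝ) ≤ η * z / (8 * X) := Nat.floor_le (by positivity)
  -- `32 X z^a' ≤ η z`
  have h7 : 32 * X * (z : ℝ) ^ a' ≤ η * z := by
    have h8 := mul_le_mul_of_nonneg_right h1 hza0.le
    rw [mul_assoc (η / 32), hsplit] at h8
    linarith
  have h8 : 4 * (z : ℝ) ^ a' ≤ η * z / (8 * X) := by
    rw [le_div_iff₀ (by positivity)]
    linarith
  have hnge : η * z / (16 * X) ≤ n := by
    have h9 := Nat.lt_floor_add_one (η * z / (8 * X))
    rw [← hn] at h9
    have h10 : η * z / (16 * X) = η * z / (8 * X) / 2 := by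
      rw [div_div]
      congr 1
      ring
    rw [h10]
    linarith
  have hmn : 2 * m ≤ n := by
    have h9 : (2 : ℝ) * m ≤ n := by
      have h10 : η * z / (16 * X) = η * z / (8 * X) / 2 := by
        rw [div_div]
        congr 1
        ring
      rw [h10] at hnge
      linarith
    exact_mod_cast h9
  have hn4 : 4 * n ≤ z := by
    have h9 : 4 * (n : ℝ) ≤ z := by
      have h10 : η * z / (8 * X) ≤ z / 16 := by
        rw [div_le_div_iff₀ (by positivity) (by norm_num)]
        nlinarith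
      linarith
    exact_mod_cast h9
  -- the primes
  have hcardG : n ≤ (Good ((z : ℝ) ^ (1 / 2 + η)) (z / 2) z).card := Nat.floor_le_of_le hsm
  obtain ⟨P, hPG, hPn⟩ := exists_subset_card_eq hcardG
  have hPmem : ∀ p ∈ P, z / 2 < p ∧ p ≤ z ∧ p.Prime ∧
      ∀ r : ℕ, r.Prime → r ∣ p - 1 → r ≤ y := by
    intro p hp
    obtain ⟨h10, h11⟩ := mem_good.1 (hPG hp)
    obtain ⟨h12, h13, h14⟩ := mem_pr_one.1 h10
    exact ⟨h12, h13, h14, fun r hr hrd => Nat.le_floor (h11 r hr hrd)⟩
  have hPl : ∀ p ∈ P, p - 1 ∣ l := by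
    intro p hp
    obtain ⟨h9, h10, h11, h12⟩ := hPmem p hp
    exact dvd_primorial_pow (by omega) (by omega) h12
  have hprim : 4 ≤ primorial y := by
    have h9 : primorial 3 ≤ primorial y := primorial_mono hy3
    have h10 : primorial 3 = 6 := by decide
    omega
  have hlz : z ^ 2 ≤ l := by
    calc z ^ 2 ≤ (2 ^ L) ^ 2 := Nat.pow_le_pow_left hzL.le 2
      _ = 4 ^ L := by rw [← pow_mul, mul_comm, pow_mul]; norm_num
      _ ≤ l := Nat.pow_le_pow_left hprim L
  have hlpos : 0 < l := lt_of_lt_of_le (by positivity) hlz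
  have hr : 6 * ((m + 2) * L) * ((m + 1) * L) ≤ l := by
    refine le_trans ?_ hlz
    have h9 : (6 * (((m : ℝ) + 2) * L) * (((m : ℝ) + 1) * L)) ≤ (z : ℝ) ^ 2 := by
      have h10 : ((m : ℝ) + 2) * L ≤ (3 * (z : ℝ) ^ a') * (2 * X) :=
        mul_le_mul (by linarith) hLX (Nat.cast_nonneg _) (by positivity)
      have h11 : ((m : ℝ) + 1) * L ≤ (2 * (z : ℝ) ^ a') * (2 * X) :=
        mul_le_mul (by linarith) hLX (Nat.cast_nonneg _) (by positivity)
      have h12 : X * (z : ℝ) ^ a' ≤ z / 12 := by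
        have h13 := mul_le_mul_of_nonneg_right h2 hza0.le
        rw [mul_assoc (1 / 12 : ℝ), hsplit] at h13
        linarith
      have h13 : 0 ≤ X * (z : ℝ) ^ a' := by positivity
      calc (6 * (((m : ℝ) + 2) * L) * (((m : ℝ) + 1) * L)) ≤
          6 * ((3 * (z : ℝ) ^ a') * (2 * X)) * ((2 * (z : ℝ) ^ a') * (2 * X)) := by
            refine mul_le_mul ?_ h11 (by positivity) (by positivity)
            linarith
        _ = 144 * (X * (z : ℝ) ^ a') ^ 2 := by ring
        _ ≤ 144 * (z / 12) ^ 2 := by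
            refine mul_le_mul_of_nonneg_left ?_ (by norm_num)
            exact pow_le_pow_left₀ h13 h12 2
        _ = (z : ℝ) ^ 2 := by ring
    exact_mod_cast h9
  -- the size of `l`
  have hlogl : Real.log l ≤ (z : ℝ) ^ (1 / 2 + 2 * η) := by
    have h9 : Real.log l = L * Real.log (primorial y) := by
      rw [hl, Nat.cast_pow, Real.log_pow]
    have h10 : Real.log (primorial y) ≤ y * 2 := by
      have h11 : (primorial y : ℝ) ≤ 4 ^ y := by exact_mod_cast primorial_le_four_pow y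
      have h12 := Real.log_le_log (by exact_mod_cast primorial_pos y) h11
      rw [Real.log_pow] at h12
      have h13 : Real.log 4 ≤ 2 := by
        have h14 : Real.log 4 = 2 * Real.log 2 := by
          rw [show (4 : ℝ) = 2 ^ (2 : ℕ) by norm_num, Real.log_pow]
          push_cast
          ring
        have := Real.log_two_lt_d9
        linarith
      exact h12.trans (mul_le_mul_of_nonneg_left h13 (Nat.cast_nonneg _))
    rw [h9]
    have h11 : (z : ℝ) ^ (1 / 2 + 2 * η) = (z : ℝ) ^ η * (z : ℝ) ^ (1 / 2 + η) := by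
      rw [← Real.rpow_add hz0]
      congr 1
      ring
    rw [h11]
    have h12 : 0 < (z : ℝ) ^ (1 / 2 + η) := by positivity
    calc (L : ℝ) * Real.log (primorial y) ≤ (2 * X) * (y * 2) :=
          mul_le_mul hLX h10 (Real.log_nonneg (by exact_mod_cast primorial_pos y)) (by positivity)
      _ ≤ (2 * X) * ((z : ℝ) ^ (1 / 2 + η) * 2) := by
          refine mul_le_mul_of_nonneg_left ?_ (by positivity)
          linarith
      _ = (4 * X) * (z : ℝ) ^ (1 / 2 + η) := by ring
      _ ≤ (z : ℝ) ^ η * (z : ℝ) ^ (1 / 2 + η) := by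
          refine mul_le_mul_of_nonneg_right ?_ h12.le
          linarith
  refine ⟨l, hlogl, hlpos, fun j hj => ?_⟩
  have hmain := key_ineq2 (l := l) (m := m) (L := L) (j := j) (P := P) (z := z) (by omega) hzL hm1
    (by rw [hPn]; exact hmn) (fun p hp => (hPmem p hp).2.2.1) (fun p hp => (hPmem p hp).2.1)
    (fun p hp => (hPmem p hp).1) hPl (by rw [hPn]; exact hn4) hr hj
  rw [hPn, ← hκ] at hmain
  -- the base
  have hb : Real.exp 2 ≤ (z / 2 : ℝ) ^ κ * ((n : ℝ) / (2 * m * z)) := by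
    have h9 : Real.exp 2 ≤ 8 := by
      have h10 : Real.exp 2 = Real.exp 1 * Real.exp 1 := by
        rw [← Real.exp_add]
        norm_num
      rw [h10]
      have := Real.exp_one_lt_d9
      nlinarith [Real.exp_pos 1]
    have hκ0 : 0 < κ := by linarith
    have h10 : (z : ℝ) ^ κ / 2 ≤ (z / 2 : ℝ) ^ κ := by
      rw [Real.div_rpow hz0.le (by norm_num)]
      refine div_le_div_of_nonneg_left (by positivity) (by positivity) ?_
      calc (2 : ℝ) ^ κ ≤ (2 : ℝ) ^ (1 : ℝ) :=
            Real.rpow_le_rpow_of_exponent_le (by norm_num) hκ1.le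
        _ = 2 := Real.rpow_one _
    have hmR : (0 : ℝ) < m := by exact_mod_cast hm1
    have h11 : η / (32 * X * (z : ℝ) ^ a') ≤ (n : ℝ) / (2 * m * z) := by
      rw [div_le_div_iff₀ (by positivity) (by positivity)]
      have h12 : η * z ≤ n * (16 * X) := by
        rw [div_le_iff₀ (by positivity)] at hnge
        exact hnge
      calc η * (2 * m * z) = 2 * m * (η * z) := by ring
        _ ≤ 2 * m * (n * (16 * X)) := mul_le_mul_of_nonneg_left h12 (by positivity)
        _ ≤ 2 * (z : ℝ) ^ a' * (n * (16 * X)) := by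
          refine mul_le_mul_of_nonneg_right ?_ (by positivity)
          linarith
        _ = n * (32 * X * (z : ℝ) ^ a') := by ring
    have h12 : (z : ℝ) ^ (κ - a') = (z : ℝ) ^ κ / (z : ℝ) ^ a' := Real.rpow_sub hz0 _ _
    have h13 : 8 ≤ (z : ℝ) ^ κ / 2 * (η / (32 * X * (z : ℝ) ^ a')) := by
      rw [h12] at h3
      have h14 : (z : ℝ) ^ κ / 2 * (η / (32 * X * (z : ℝ) ^ a')) =
          (η / 64 * ((z : ℝ) ^ κ / (z : ℝ) ^ a')) / X := by
        field_simp
        ring
      rw [h14, le_div_iff₀ hX0]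
      linarith
    calc Real.exp 2 ≤ 8 := h9
      _ ≤ _ := h13
      _ ≤ _ := mul_le_mul h10 h11 (by positivity) (by positivity)
  have hlR : (0 : ℝ) < l := by exact_mod_cast hlpos
  have hpow : Real.exp (2 * m) ≤ ((z / 2 : ℝ) ^ κ * ((n : ℝ) / (2 * m * z))) ^ m := by
    have h9 : Real.exp (2 * m) = Real.exp 2 ^ m := by
      rw [← Real.exp_nat_mul]
      congr 1
      ring
    rw [h9]
    exact pow_le_pow_left₀ (Real.exp_pos _).le hb m
  have hl8 : 8 * (l : ℝ) ≤ Real.exp m := by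
    rw [← Real.exp_log hlR]
    have h9 : (8 : ℝ) ≤ Real.exp 3 := by
      have h10 : Real.exp 3 = Real.exp 1 ^ 3 := by
        rw [← Real.exp_nat_mul]
        norm_num
      rw [h10]
      have := Real.exp_one_gt_d9
      calc (8 : ℝ) = 2 ^ 3 := by norm_num
        _ ≤ Real.exp 1 ^ 3 := pow_le_pow_left₀ (by norm_num) (by linarith) 3
    calc 8 * Real.exp (Real.log l) ≤ Real.exp 3 * Real.exp (Real.log l) :=
          mul_le_mul_of_nonneg_right h9 (Real.exp_pos _).le
      _ = Real.exp (3 + Real.log l) := (Real.exp_add _ _).symm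
      _ ≤ Real.exp m := by
        refine Real.exp_le_exp.2 ?_
        have h11 : (z : ℝ) ^ a' = (z : ℝ) ^ (a' - (1 / 2 + 2 * η)) * (z : ℝ) ^ (1 / 2 + 2 * η) := by
          rw [← Real.rpow_add hz0]
          congr 1
          ring
        have h12 : (1 : ℝ) ≤ (z : ℝ) ^ (1 / 2 + 2 * η) := Real.one_le_rpow hz1 (by linarith)
        have h13 : 5 * (z : ℝ) ^ (1 / 2 + 2 * η) ≤ (z : ℝ) ^ a' := by
          rw [h11]
          exact mul_le_mul_of_nonneg_right h5 (by positivity)
        linarith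
  have h2j : (0 : ℝ) < 2 ^ j := by positivity
  have hfin : (2 : ℝ) ^ j * Real.exp m * (8 * l) ≤ (8 * l) * ((S j).ncard : ℝ) := by
    calc (2 : ℝ) ^ j * Real.exp m * (8 * l) ≤ (2 : ℝ) ^ j * Real.exp m * Real.exp m :=
          mul_le_mul_of_nonneg_left hl8 (by positivity)
      _ = 2 ^ j * Real.exp (2 * m) := by
          rw [mul_assoc, ← Real.exp_add]
          congr 2
          ring
      _ ≤ 2 ^ j * ((z / 2 : ℝ) ^ κ * ((n : ℝ) / (2 * m * z))) ^ m :=
          mul_le_mul_of_nonneg_left hpow h2j.le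
      _ ≤ 8 * (l * ((S j).ncard : ℝ)) := by linarith
      _ = _ := by ring
  have hfin2 : (2 : ℝ) ^ j * Real.exp m ≤ ((S j).ncard : ℝ) := by
    have h8l : (0 : ℝ) < 8 * l := by positivity
    rw [mul_comm ((2 : ℝ) ^ j * Real.exp m)] at hfin
    exact le_of_mul_le_mul_left hfin h8l
  refine le_trans (mul_le_mul_of_nonneg_left (Real.exp_le_exp.2 hmge) h2j.le) hfin2

/-- **The lower bound.** -/
theorem lower_bound (a : ℝ) (ha : a < 2 * (Real.log 2 / Real.log 3)) :
    ∃ J : ℕ, ∀ j : ℕ, J ≤ j →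
      (2 : ℝ) ^ j * Real.exp ((Real.log j) ^ a) ≤ ((S j).ncard : ℝ) := by
  set κ := Real.log 2 / Real.log 3 with hκ
  have hlog3 : 0 < Real.log 3 := Real.log_pos (by norm_num)
  have hlog2 : 0 < Real.log 2 := Real.log_pos (by norm_num)
  have hκ1 : κ < 1 := by
    rw [hκ, div_lt_one hlog3]
    exact Real.log_lt_log (by norm_num) (by norm_num)
  have hκ2 : 1 < 2 * κ := by
    rw [hκ, ← mul_div_assoc, one_lt_div hlog3]
    have h1 : 2 * Real.log 2 = Real.log 4 := by
      rw [show (4 : ℝ) = 2 ^ (2 : ℕ) by norm_num, Real.log_pow]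
      push_cast
      ring
    rw [h1]
    exact Real.log_lt_log (by norm_num) (by norm_num)
  -- the exponents
  set b := max a 1 with hb
  have hb1 : 1 ≤ b := le_max_right _ _
  have hab : a ≤ b := le_max_left _ _
  have hb2 : b < 2 * κ := max_lt ha hκ2
  set η := (2 * κ - b) / 16 with hη
  have hη0 : 0 < η := by
    rw [hη]
    linarith
  have hη2 : η < 1 / 2 := by
    rw [hη]
    linarith
  set θ := 1 / 2 + 2 * η with hθ
  have hθ0 : 0 < θ := by linarith
  have hbθ : b * θ < κ := by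
    rw [hθ, hη]
    nlinarith
  have hθκ : θ ≤ b * θ := by nlinarith
  set a' := (b * θ + κ) / 2 with ha'
  have h1 : b * θ < a' := by
    rw [ha']
    linarith
  have h2 : a' < κ := by
    rw [ha']
    linarith
  have h3 : b < a' / θ := by
    rw [lt_div_iff₀ hθ0]
    exact h1
  have hmain := main_z η a' hη0 hη2 (by linarith) h2
  -- `z` as a function of `j`
  have hlogj : Tendsto (fun j : ℕ => Real.log (j : ℝ)) atTop atTop :=
    Real.tendsto_log_atTop.comp tendsto_natCast_atTop_atTop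
  have hzj : Tendsto (fun j : ℕ => ⌊(Real.log (j : ℝ)) ^ (1 / θ)⌋₊) atTop atTop :=
    tendsto_nat_floor_atTop.comp ((tendsto_rpow_atTop (by positivity)).comp hlogj)
  have h4 := hzj.eventually hmain
  have h5 : ∀ᶠ j : ℕ in atTop, 4 ≤ (Real.log (j : ℝ)) ^ (a' / θ - b) :=
    ((tendsto_rpow_atTop (by linarith)).comp hlogj).eventually_ge_atTop 4
  have h6 : ∀ᶠ j : ℕ in atTop, 2 ≤ (Real.log (j : ℝ)) ^ (1 / θ) :=
    ((tendsto_rpow_atTop (by positivity)).comp hlogj).eventually_ge_atTop 2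
  have h7 : ∀ᶠ j : ℕ in atTop, 1 ≤ Real.log (j : ℝ) := hlogj.eventually_ge_atTop 1
  have h8 : ∀ᶠ j : ℕ in atTop, (2 : ℝ) ^ j * Real.exp ((Real.log j) ^ a) ≤ ((S j).ncard : ℝ) := by
    filter_upwards [h4, h5, h6, h7, eventually_ge_atTop 1] with j h4 h5 h6 h7 hj1
    obtain ⟨l, hl1, hl0, hl2⟩ := h4
    set T := Real.log (j : ℝ) with hT
    have hT0 : 0 < T := by linarith
    set z := ⌊T ^ (1 / θ)⌋₊ with hz
    have hzle : (z : ℝ) ≤ T ^ (1 / θ) := Nat.floor_le (by positivity)
    have hzge : T ^ (1 / θ) / 2 ≤ z := by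
      have h9 := Nat.lt_floor_add_one (T ^ (1 / θ))
      rw [← hz] at h9
      linarith
    have hzθ : (z : ℝ) ^ θ ≤ T := by
      calc (z : ℝ) ^ θ ≤ (T ^ (1 / θ)) ^ θ := Real.rpow_le_rpow (Nat.cast_nonneg _) hzle hθ0.le
        _ = T := by
          rw [← Real.rpow_mul hT0.le, one_div_mul_cancel hθ0.ne', Real.rpow_one]
    have hlj : l ≤ j := by
      have hlR : (0 : ℝ) < l := by exact_mod_cast hl0
      have hjR : (0 : ℝ) < j := by exact_mod_cast hj1
      have h9 : Real.log l ≤ Real.log j := hl1.trans hzθ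
      exact_mod_cast (Real.log_le_log_iff hlR hjR).1 h9
    refine le_trans ?_ (hl2 j hlj)
    refine mul_le_mul_of_nonneg_left (Real.exp_le_exp.2 ?_) (by positivity)
    have h9 : T ^ a ≤ T ^ b := Real.rpow_le_rpow_of_exponent_le h7 hab
    have h10 : T ^ (a' / θ) / 2 ≤ (z : ℝ) ^ a' := by
      have ha'0 : 0 < a' := by linarith
      have h11 : (T ^ (1 / θ) / 2) ^ a' ≤ (z : ℝ) ^ a' :=
        Real.rpow_le_rpow (by positivity) hzge ha'0.le
      refine le_trans ?_ h11
      rw [Real.div_rpow (by positivity) (by norm_num), ← Real.rpow_mul hT0.le]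
      have h12 : 1 / θ * a' = a' / θ := by ring
      rw [h12]
      refine div_le_div_of_nonneg_left (by positivity) (by positivity) ?_
      calc (2 : ℝ) ^ a' ≤ (2 : ℝ) ^ (1 : ℝ) :=
            Real.rpow_le_rpow_of_exponent_le (by norm_num) (by linarith)
        _ = 2 := Real.rpow_one _
    have h11 : T ^ (a' / θ) = T ^ (a' / θ - b) * T ^ b := by
      rw [← Real.rpow_add hT0]
      congr 1
      ring
    have h12 : (1 : ℝ) ≤ T ^ b := Real.one_le_rpow h7 (by linarith)
    have h13 : 4 * T ^ b ≤ T ^ (a' / θ) := by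
      rw [h11]
      exact mul_le_mul_of_nonneg_right h5 (by positivity)
    linarith
  exact eventually_atTop.1 h8

end Pool.Agent.Work.MP_aac176_nt.Low
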