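import Pool.Agent.Work.MP_aac176_nt.Low.Main2
import Pool.Agent.Work.MP_aac176_nt.Low.Agp3

/-!
MP_aac176_nt, lower bound: `N_j ≥ 2 ^ j * exp (exp ((log j) ^ (1 / 25)))`.
-/

set_option autoImplicit false

namespace Pool.Agent.Work.MP_aac176_nt.Low

open Finset Filter Pool.Agent.D3

theorem main_z3 :
    ∀ᶠ z : ℕ in atTop, ∃ l : ℕ, Real.log l ≤ (Real.log z) ^ 24 ∧ 0 < l ∧
      ∀ j, l ≤ j → (2 : ℝ) ^ j * Real.exp ((z : ℝ) ^ (1 / 250 : ℝ) - 1) ≤ ((S j).ncard : ℝ) := by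
  set κ := Real.log 2 / Real.log 3 with hκ
  have hκ63 : (63 / 100 : ℝ) ≤ κ := kappa_ge
  have hlog3 : 0 < Real.log 3 := Real.log_pos (by norm_num)
  have hκ1 : κ < 1 := by
    rw [hκ, div_lt_one hlog3]
    exact Real.log_lt_log (by norm_num) (by norm_num)
  filter_upwards [agp3, log_large 6, eventually_ge_atTop 16,
    log_le_rpow (1 / 20) (1 / 12) (by norm_num) (by norm_num),
    logpow_le_rpow 24 (1 / 250) (1 / 2) (by norm_num) (by norm_num),
    rpow_large (1 / 250) 64 (by norm_num)] with z hagp hX2 hz16 h2 h24 h3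
  have hzR : (16 : ℝ) ≤ z := by exact_mod_cast hz16
  have hz0 : (0 : ℝ) < z := by linarith
  have hz1 : (1 : ℝ) ≤ z := by linarith
  set X := Real.log z with hX
  have hX0 : 0 < X := by linarith
  have hX1 : 1 ≤ X := by linarith
  have hzpow : ∀ u v : ℝ, u ≤ v → (z : ℝ) ^ u ≤ (z : ℝ) ^ v := fun u v h =>
    Real.rpow_le_rpow_of_exponent_le hz1 h
  have hza0 : (0 : ℝ) < (z : ℝ) ^ (1 / 250 : ℝ) := Real.rpow_pos_of_pos hz0 _
  have hza1 : (1 : ℝ) ≤ (z : ℝ) ^ (1 / 250 : ℝ) := Real.one_le_rpow hz1 (by norm_num)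
  have hza20 : (z : ℝ) ^ (1 / 250 : ℝ) ≤ (z : ℝ) ^ (1 / 20 : ℝ) := hzpow _ _ (by norm_num)
  obtain ⟨m₀, hm₀1, hm₀2, P₀, hP₀c, hP₀⟩ := hagp
  -- the parameters
  set L := Nat.log 2 z + 1 with hL
  have hzL : z < 2 ^ L := Nat.lt_pow_succ_log_self (by norm_num) z
  have hLX : (L : ℝ) ≤ 2 * X := by
    have h7 : (2 : ℝ) ^ Nat.log 2 z ≤ z := by
      exact_mod_cast Nat.pow_log_le_self 2 (by omega)
    have h8 := Real.log_le_log (by positivity) h7
    rw [Real.log_pow, ← hX] at h8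
    have h9 := Real.log_two_gt_d9
    have h10 : (0 : ℝ) ≤ (Nat.log 2 z : ℝ) := Nat.cast_nonneg _
    rw [hL]
    push_cast
    nlinarith
  set y := ⌊X ^ 22⌋₊ with hy
  set l := m₀ * primorial y ^ L with hl
  set m := ⌊(z : ℝ) ^ (1 / 250 : ℝ)⌋₊ with hm
  set n := ⌊(z : ℝ) ^ (189 / 500 : ℝ)⌋₊ with hn
  have hyle : (y : ℝ) ≤ X ^ 22 := Nat.floor_le (by positivity)
  have hy3 : 3 ≤ y := by
    refine Nat.le_floor ?_
    have h9 : X ≤ X ^ 22 := le_self_pow₀ hX1 (by norm_num)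
    push_cast
    linarith
  have hmle : (m : ℝ) ≤ (z : ℝ) ^ (1 / 250 : ℝ) := Nat.floor_le hza0.le
  have hmge : (z : ℝ) ^ (1 / 250 : ℝ) - 1 ≤ m := by
    have := Nat.lt_floor_add_one ((z : ℝ) ^ (1 / 250 : ℝ))
    rw [← hm] at this
    linarith
  have hm1 : 1 ≤ m := Nat.le_floor (by exact_mod_cast hza1)
  have hnle : (n : ℝ) ≤ (z : ℝ) ^ (189 / 500 : ℝ) := Nat.floor_le (by positivity)
  have hz50 : (64 : ℝ) ≤ (z : ℝ) ^ (1 / 250 : ℝ) := h3
  have h4z : 64 * (z : ℝ) ^ (1 / 250 : ℝ) ≤ (z : ℝ) ^ (189 / 500 : ℝ) := by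
    calc 64 * (z : ℝ) ^ (1 / 250 : ℝ) ≤ (z : ℝ) ^ (1 / 250 : ℝ) * (z : ℝ) ^ (1 / 250 : ℝ) :=
          mul_le_mul_of_nonneg_right hz50 hza0.le
      _ = (z : ℝ) ^ (1 / 250 + 1 / 250 : ℝ) := (Real.rpow_add hz0 _ _).symm
      _ ≤ _ := hzpow _ _ (by norm_num)
  have h5z : 64 * (z : ℝ) ^ (189 / 500 : ℝ) ≤ z := by
    calc 64 * (z : ℝ) ^ (189 / 500 : ℝ) ≤ (z : ℝ) ^ (1 / 250 : ℝ) * (z : ℝ) ^ (189 / 500 : ℝ) :=
          mul_le_mul_of_nonneg_right hz50 (by positivity)
      _ = (z : ℝ) ^ (1 / 250 + 189 / 500 : ℝ) := (Real.rpow_add hz0 _ _).symm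
      _ ≤ (z : ℝ) ^ (1 : ℝ) := hzpow _ _ (by norm_num)
      _ = z := Real.rpow_one _
  have hnge : (z : ℝ) ^ (189 / 500 : ℝ) / 2 ≤ n := by
    have h9 := Nat.lt_floor_add_one ((z : ℝ) ^ (189 / 500 : ℝ))
    rw [← hn] at h9
    linarith
  have hmn : 2 * m ≤ n := by
    have h9 : (2 : ℝ) * m ≤ n := by linarith
    exact_mod_cast h9
  have hn4 : 4 * n ≤ z := by
    have h9 : 4 * (n : ℝ) ≤ z := by
      have : (0 : ℝ) < (z : ℝ) ^ (189 / 500 : ℝ) := by positivity
      linarith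
    exact_mod_cast h9
  -- the primes
  have hcardG : n ≤ P₀.card := Nat.floor_le_of_le hP₀c
  obtain ⟨P, hPG, hPn⟩ := exists_subset_card_eq hcardG
  have hPl : ∀ p ∈ P, p - 1 ∣ l := by
    intro p hp
    refine (hP₀ p (hPG hp)).2.2.2.trans ?_
    rw [hl]
    exact Nat.mul_dvd_mul_left _ (dvd_pow_self _ (by omega))
  have hprim : 4 ≤ primorial y := by
    have h9 : primorial 3 ≤ primorial y := primorial_mono hy3
    have h10 : primorial 3 = 6 := by decide
    omega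
  have hlz : z ^ 2 ≤ l := by
    calc z ^ 2 ≤ (2 ^ L) ^ 2 := Nat.pow_le_pow_left hzL.le 2
      _ = 4 ^ L := by rw [← pow_mul, mul_comm, pow_mul]; norm_num
      _ ≤ primorial y ^ L := Nat.pow_le_pow_left hprim L
      _ ≤ l := Nat.le_mul_of_pos_left _ (by omega)
  have hlpos : 0 < l := lt_of_lt_of_le (by positivity) hlz
  have hza200 : (0 : ℝ) < (z : ℝ) ^ (1 / 20 : ℝ) := by positivity
  have hXz : X * (z : ℝ) ^ (1 / 20 : ℝ) ≤ z / 12 := by
    calc X * (z : ℝ) ^ (1 / 20 : ℝ) ≤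
        (1 / 12 * (z : ℝ) ^ (1 / 20 : ℝ)) * (z : ℝ) ^ (1 / 20 : ℝ) :=
          mul_le_mul_of_nonneg_right h2 hza200.le
      _ = (z : ℝ) ^ (1 / 20 + 1 / 20 : ℝ) / 12 := by
          rw [Real.rpow_add hz0]
          ring
      _ ≤ (z : ℝ) ^ (1 : ℝ) / 12 :=
          div_le_div_of_nonneg_right (hzpow _ _ (by norm_num)) (by norm_num)
      _ = z / 12 := by rw [Real.rpow_one]
  have hr : 6 * ((m + 2) * L) * ((m + 1) * L) ≤ l := by
    refine le_trans ?_ hlz
    have h9 : (6 * (((m : ℝ) + 2) * L) * (((m : ℝ) + 1) * L)) ≤ (z : ℝ) ^ 2 := by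
      have h10 : ((m : ℝ) + 2) * L ≤ (3 * (z : ℝ) ^ (1 / 20 : ℝ)) * (2 * X) :=
        mul_le_mul (by linarith) hLX (Nat.cast_nonneg _) (by positivity)
      have h11 : ((m : ℝ) + 1) * L ≤ (2 * (z : ℝ) ^ (1 / 20 : ℝ)) * (2 * X) :=
        mul_le_mul (by linarith) hLX (Nat.cast_nonneg _) (by positivity)
      have h13 : 0 ≤ X * (z : ℝ) ^ (1 / 20 : ℝ) := by positivity
      calc (6 * (((m : ℝ) + 2) * L) * (((m : ℝ) + 1) * L)) ≤
          6 * ((3 * (z : ℝ) ^ (1 / 20 : ℝ)) * (2 * X)) *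
            ((2 * (z : ℝ) ^ (1 / 20 : ℝ)) * (2 * X)) := by
            refine mul_le_mul ?_ h11 (by positivity) (by positivity)
            linarith
        _ = 144 * (X * (z : ℝ) ^ (1 / 20 : ℝ)) ^ 2 := by ring
        _ ≤ 144 * (z / 12) ^ 2 := by
            refine mul_le_mul_of_nonneg_left ?_ (by norm_num)
            exact pow_le_pow_left₀ h13 hXz 2
        _ = (z : ℝ) ^ 2 := by ring
    exact_mod_cast h9
  -- the size of `l`
  have hm₀R : (1 : ℝ) ≤ m₀ := by exact_mod_cast hm₀1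
  have hlogl : Real.log l ≤ X ^ 24 := by
    have hpr0 : (0 : ℝ) < primorial y := by exact_mod_cast primorial_pos y
    have h9 : Real.log l = Real.log m₀ + L * Real.log (primorial y) := by
      rw [hl, Nat.cast_mul, Nat.cast_pow, Real.log_mul (by linarith) (by positivity), Real.log_pow]
    have h10 : Real.log (primorial y) ≤ y * 2 := by
      have h11 : (primorial y : ℝ) ≤ 4 ^ y := by exact_mod_cast primorial_le_four_pow y
      have h12 := Real.log_le_log (by exact_mod_cast primorial_pos y) h11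
      rw [Real.log_pow] at h12
      have h13 : Real.log 4 ≤ 2 := by
        have h14 : Real.log 4 = 2 * Real.log 2 := by
          rw [show (4 : ℝ) = 2 ^ (2 : ℕ) by norm_num, Real.log_pow]
          push_cast
          ring
        have := Real.log_two_lt_d9
        linarith
      exact h12.trans (mul_le_mul_of_nonneg_left h13 (Nat.cast_nonneg _))
    have h13 : Real.log m₀ ≤ X := Real.log_le_log (by linarith) (by exact_mod_cast hm₀2)
    rw [h9]
    calc Real.log m₀ + (L : ℝ) * Real.log (primorial y) ≤ X + (2 * X) * (y * 2) :=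
          add_le_add h13 (mul_le_mul hLX h10
            (Real.log_nonneg (by exact_mod_cast primorial_pos y)) (by positivity))
      _ ≤ X ^ 23 + (2 * X) * (X ^ 22 * 2) := by
          refine add_le_add ?_ (mul_le_mul_of_nonneg_left ?_ (by positivity))
          · exact le_self_pow₀ hX1 (by norm_num)
          · linarith
      _ = 5 * X ^ 23 := by ring
      _ ≤ X * X ^ 23 := mul_le_mul_of_nonneg_right (by linarith) (by positivity)
      _ = X ^ 24 := by ring
  refine ⟨l, hlogl, hlpos, fun j hj => ?_⟩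
  have hmain := key_ineq2 (l := l) (m := m) (L := L) (j := j) (P := P) (z := z) (by omega) hzL hm1
    (by rw [hPn]; exact hmn) (fun p hp => (hP₀ p (hPG hp)).2.2.1)
    (fun p hp => (hP₀ p (hPG hp)).2.1)
    (fun p hp => (hP₀ p (hPG hp)).1) hPl (by rw [hPn]; exact hn4) hr hj
  rw [hPn, ← hκ] at hmain
  -- the base
  have hb : Real.exp 2 ≤ (z / 2 : ℝ) ^ κ * ((n : ℝ) / (2 * m * z)) := by
    have h9 : Real.exp 2 ≤ 8 := by
      have h10 : Real.exp 2 = Real.exp 1 * Real.exp 1 := by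
        rw [← Real.exp_add]
        norm_num
      rw [h10]
      have := Real.exp_one_lt_d9
      nlinarith [Real.exp_pos 1]
    have h10 : (z : ℝ) ^ (63 / 100 : ℝ) / 2 ≤ (z / 2 : ℝ) ^ κ := by
      rw [Real.div_rpow hz0.le (by norm_num)]
      refine div_le_div₀ (by positivity) (hzpow _ _ hκ63) (by positivity) ?_
      calc (2 : ℝ) ^ κ ≤ (2 : ℝ) ^ (1 : ℝ) :=
            Real.rpow_le_rpow_of_exponent_le (by norm_num) hκ1.le
        _ = 2 := Real.rpow_one _
    have hmR : (0 : ℝ) < m := by exact_mod_cast hm1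
    have h11 : (z : ℝ) ^ (189 / 500 : ℝ) / 2 / (2 * (z : ℝ) ^ (1 / 250 : ℝ) * z) ≤
        (n : ℝ) / (2 * m * z) := by
      refine div_le_div₀ (by positivity) hnge (by positivity) ?_
      refine mul_le_mul_of_nonneg_right ?_ hz0.le
      linarith
    have h12 : (z : ℝ) ^ (63 / 100 : ℝ) * (z : ℝ) ^ (189 / 500 : ℝ) =
        (z : ℝ) ^ (1 / 250 : ℝ) * ((z : ℝ) ^ (1 / 250 : ℝ) * z) := by
      have h13 : (z : ℝ) ^ (1 / 250 : ℝ) * ((z : ℝ) ^ (1 / 250 : ℝ) * z) =
          (z : ℝ) ^ (1 / 250 : ℝ) * ((z : ℝ) ^ (1 / 250 : ℝ) * (z : ℝ) ^ (1 : ℝ)) := by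
        rw [Real.rpow_one]
      rw [h13, ← Real.rpow_add hz0, ← Real.rpow_add hz0, ← Real.rpow_add hz0]
      norm_num
    have h13 : 8 ≤ (z : ℝ) ^ (63 / 100 : ℝ) / 2 *
        ((z : ℝ) ^ (189 / 500 : ℝ) / 2 / (2 * (z : ℝ) ^ (1 / 250 : ℝ) * z)) := by
      have h14 : (z : ℝ) ^ (63 / 100 : ℝ) / 2 *
          ((z : ℝ) ^ (189 / 500 : ℝ) / 2 / (2 * (z : ℝ) ^ (1 / 250 : ℝ) * z)) =
          ((z : ℝ) ^ (63 / 100 : ℝ) * (z : ℝ) ^ (189 / 500 : ℝ)) /
            (8 * ((z : ℝ) ^ (1 / 250 : ℝ) * z)) := by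
        field_simp
        ring
      rw [h14, h12, le_div_iff₀ (by positivity)]
      have h15 : 0 < (z : ℝ) ^ (1 / 250 : ℝ) * z := by positivity
      nlinarith
    calc Real.exp 2 ≤ 8 := h9
      _ ≤ _ := h13
      _ ≤ _ := mul_le_mul h10 h11 (by positivity) (by positivity)
  have hlR : (0 : ℝ) < l := by exact_mod_cast hlpos
  have hpow : Real.exp (2 * m) ≤ ((z / 2 : ℝ) ^ κ * ((n : ℝ) / (2 * m * z))) ^ m := by
    have h9 : Real.exp (2 * m) = Real.exp 2 ^ m := by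
      rw [← Real.exp_nat_mul]
      congr 1
      ring
    rw [h9]
    exact pow_le_pow_left₀ (Real.exp_pos _).le hb m
  have hl8 : 8 * (l : ℝ) ≤ Real.exp m := by
    rw [← Real.exp_log hlR]
    have h9 : (8 : ℝ) ≤ Real.exp 3 := by
      have h10 : Real.exp 3 = Real.exp 1 ^ 3 := by
        rw [← Real.exp_nat_mul]
        norm_num
      rw [h10]
      have := Real.exp_one_gt_d9
      calc (8 : ℝ) = 2 ^ 3 := by norm_num
        _ ≤ Real.exp 1 ^ 3 := pow_le_pow_left₀ (by norm_num) (by linarith) 3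
    calc 8 * Real.exp (Real.log l) ≤ Real.exp 3 * Real.exp (Real.log l) :=
          mul_le_mul_of_nonneg_right h9 (Real.exp_pos _).le
      _ = Real.exp (3 + Real.log l) := (Real.exp_add _ _).symm
      _ ≤ Real.exp m := by
        refine Real.exp_le_exp.2 ?_
        linarith
  have h2j : (0 : ℝ) < 2 ^ j := by positivity
  have hfin : (2 : ℝ) ^ j * Real.exp m * (8 * l) ≤ (8 * l) * ((S j).ncard : ℝ) := by
    calc (2 : ℝ) ^ j * Real.exp m * (8 * l) ≤ (2 : ℝ) ^ j * Real.exp m * Real.exp m :=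
          mul_le_mul_of_nonneg_left hl8 (by positivity)
      _ = 2 ^ j * Real.exp (2 * m) := by
          rw [mul_assoc, ← Real.exp_add]
          congr 2
          ring
      _ ≤ 2 ^ j * ((z / 2 : ℝ) ^ κ * ((n : ℝ) / (2 * m * z))) ^ m :=
          mul_le_mul_of_nonneg_left hpow h2j.le
      _ ≤ 8 * (l * ((S j).ncard : ℝ)) := by linarith
      _ = _ := by ring
  have hfin2 : (2 : ℝ) ^ j * Real.exp m ≤ ((S j).ncard : ℝ) := by
    have h8l : (0 : ℝ) < 8 * l := by positivity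
    rw [mul_comm ((2 : ℝ) ^ j * Real.exp m)] at hfin
    exact le_of_mul_le_mul_left hfin h8l
  refine le_trans (mul_le_mul_of_nonneg_left (Real.exp_le_exp.2 hmge) h2j.le) hfin2

/-- **The lower bound, double exponential in a power of `log j`.** -/
theorem lower_bound3 :
    ∃ J : ℕ, ∀ j : ℕ, J ≤ j →
      (2 : ℝ) ^ j * Real.exp (Real.exp ((Real.log j) ^ (1 / 25 : ℝ))) ≤ ((S j).ncard : ℝ) := by
  have hmain := main_z3
  -- `z` as a function of `j`
  have hlogj : Tendsto (fun j : ℕ => Real.log (j : ℝ)) atTop atTop :=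
    Real.tendsto_log_atTop.comp tendsto_natCast_atTop_atTop
  have hzj : Tendsto (fun j : ℕ => ⌊Real.exp ((Real.log (j : ℝ)) ^ (1 / 24 : ℝ))⌋₊) atTop atTop :=
    tendsto_nat_floor_atTop.comp (Real.tendsto_exp_atTop.comp
      ((tendsto_rpow_atTop (by norm_num)).comp hlogj))
  have h4 := hzj.eventually hmain
  have h5 : ∀ᶠ j : ℕ in atTop, 750 ≤ (Real.log (j : ℝ)) ^ (1 / 600 : ℝ) :=
    ((tendsto_rpow_atTop (by norm_num)).comp hlogj).eventually_ge_atTop 750
  have h7 : ∀ᶠ j : ℕ in atTop, 1 ≤ Real.log (j : ℝ) := hlogj.eventually_ge_atTop 1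
  have h8 : ∀ᶠ j : ℕ in atTop, (2 : ℝ) ^ j * Real.exp (Real.exp ((Real.log j) ^ (1 / 25 : ℝ))) ≤
      ((S j).ncard : ℝ) := by
    filter_upwards [h4, h5, h7, eventually_ge_atTop 1] with j h4 h5 h7 hj1
    obtain ⟨l, hl1, hl0, hl2⟩ := h4
    set T := Real.log (j : ℝ) with hT
    have hT0 : 0 < T := by linarith
    set w := T ^ (1 / 24 : ℝ) with hw
    have hw1 : 1 ≤ w := Real.one_le_rpow h7 (by norm_num)
    have hw0 : 0 < w := by linarith
    set z := ⌊Real.exp w⌋₊ with hz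
    have hzle : (z : ℝ) ≤ Real.exp w := Nat.floor_le (Real.exp_pos _).le
    have hew : 2 ≤ Real.exp w := by
      have := Real.add_one_le_exp w
      linarith
    have hzge : Real.exp w / 2 ≤ z := by
      have h9 := Nat.lt_floor_add_one (Real.exp w)
      rw [← hz] at h9
      linarith
    have hz1 : (1 : ℝ) ≤ z := by linarith
    have hlogz : Real.log z ≤ w := by
      have h9 := Real.log_le_log (by linarith) hzle
      rwa [Real.log_exp] at h9
    have hlogz0 : 0 ≤ Real.log z := Real.log_nonneg hz1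
    have hlogz24 : (Real.log z) ^ 24 ≤ T := by
      calc (Real.log z) ^ 24 ≤ w ^ 24 := pow_le_pow_left₀ hlogz0 hlogz 24
        _ = T := by
          rw [hw, ← Real.rpow_natCast, ← Real.rpow_mul hT0.le]
          norm_num
    have hlj : l ≤ j := by
      have hlR : (0 : ℝ) < l := by exact_mod_cast hl0
      have hjR : (0 : ℝ) < j := by exact_mod_cast hj1
      have h9 : Real.log l ≤ Real.log j := hl1.trans hlogz24
      exact_mod_cast (Real.log_le_log_iff hlR hjR).1 h9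
    refine le_trans ?_ (hl2 j hlj)
    refine mul_le_mul_of_nonneg_left (Real.exp_le_exp.2 ?_) (by positivity)
    -- the exponents
    set v := T ^ (1 / 25 : ℝ) with hv
    have hv1 : 1 ≤ v := Real.one_le_rpow h7 (by norm_num)
    have hwv : w = T ^ (1 / 600 : ℝ) * v := by
      rw [hw, hv, ← Real.rpow_add hT0]
      norm_num
    have hwv2 : v + 2 ≤ w / 250 := by
      rw [hwv]
      nlinarith
    have h10 : Real.exp (w / 250) / 2 ≤ (z : ℝ) ^ (1 / 250 : ℝ) := by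
      have h11 : (Real.exp w / 2) ^ (1 / 250 : ℝ) ≤ (z : ℝ) ^ (1 / 250 : ℝ) :=
        Real.rpow_le_rpow (by positivity) hzge (by norm_num)
      refine le_trans ?_ h11
      rw [Real.div_rpow (Real.exp_pos _).le (by norm_num), ← Real.exp_mul]
      have h12 : w * (1 / 250) = w / 250 := by ring
      rw [h12]
      refine div_le_div_of_nonneg_left (Real.exp_pos _).le (by positivity) ?_
      calc (2 : ℝ) ^ (1 / 250 : ℝ) ≤ (2 : ℝ) ^ (1 : ℝ) :=
            Real.rpow_le_rpow_of_exponent_le (by norm_num) (by norm_num)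
        _ = 2 := Real.rpow_one _
    have h11 : Real.exp (v + 2) ≤ Real.exp (w / 250) := Real.exp_le_exp.2 hwv2
    have h12 : Real.exp (v + 2) = Real.exp v * Real.exp 2 := Real.exp_add _ _
    have h13 : 4 ≤ Real.exp 2 := by
      have h14 : Real.exp 2 = Real.exp 1 * Real.exp 1 := by
        rw [← Real.exp_add]
        norm_num
      rw [h14]
      have := Real.exp_one_gt_d9
      nlinarith [Real.exp_pos 1]
    have h14 : 1 ≤ Real.exp v := by
      have := Real.add_one_le_exp v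
      linarith
    nlinarith
  exact eventually_atTop.1 h8

end Pool.Agent.Work.MP_aac176_nt.Low
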