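import Mathlib

/-!
MP_aac176_nt, lower bound: `N_(j+s) ≥ 2^(s-1) N_j`.
-/

set_option autoImplicit false

namespace Pool.Agent.Work.MP_aac176_nt.Low

open Set

/-- the reduced fractions of the Cantor set with denominator in `[3^j, 3^(j+1))`. -/
def S (j : ℕ) : Set (ℕ × ℕ) :=
  {pq | Nat.Coprime pq.1 pq.2 ∧ 3 ^ j ≤ pq.2 ∧ pq.2 < 3 ^ (j + 1) ∧
    ((pq.1 : ℝ) / (pq.2 : ℝ)) ∈ cantorSet}

/-- those with denominator divisible by `3`. -/
def T (j : ℕ) : Set (ℕ × ℕ) := {pq | pq ∈ S j ∧ 3 ∣ pq.2}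

theorem third_mem {x : ℝ} (hx : x ∈ cantorSet) : x / 3 ∈ cantorSet := by
  rw [cantorSet_eq_union_halves]
  exact Or.inl ⟨x, hx, rfl⟩

theorem third_mem' {x : ℝ} (hx : x ∈ cantorSet) : (2 + x) / 3 ∈ cantorSet := by
  rw [cantorSet_eq_union_halves]
  exact Or.inr ⟨x, hx, rfl⟩

theorem S_pos {j : ℕ} {pq : ℕ × ℕ} (h : pq ∈ S j) : 0 < pq.2 :=
  lt_of_lt_of_le (by positivity) h.2.1

theorem S_le {j : ℕ} {pq : ℕ × ℕ} (h : pq ∈ S j) : pq.1 ≤ pq.2 := by
  have h1 := (cantorSet_subset_unitInterval h.2.2.2).2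
  have h2 : (0 : ℝ) < pq.2 := by exact_mod_cast S_pos h
  rw [div_le_one h2] at h1
  exact_mod_cast h1

theorem S_finite (j : ℕ) : (S j).Finite := by
  refine ((Finset.range (3 ^ (j + 1) + 1)) ×ˢ (Finset.range (3 ^ (j + 1) + 1))).finite_toSet.subset
    fun pq h => ?_
  have h1 := S_le h
  have h2 := h.2.2.1
  rw [Finset.mem_coe, Finset.mem_product, Finset.mem_range, Finset.mem_range]
  omega

theorem T_finite (j : ℕ) : (T j).Finite := (S_finite j).subset fun _ h => h.1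

theorem mem_T_zero {j : ℕ} {p q : ℕ} (h : (p, q) ∈ S j) (hp : ¬ 3 ∣ p) : (p, 3 * q) ∈ T (j + 1) := by
  obtain ⟨h1, h2, h3, h4⟩ := h
  refine ⟨⟨?_, ?_, ?_, ?_⟩, dvd_mul_right 3 q⟩
  · show Nat.Coprime p (3 * q)
    refine Nat.Coprime.mul_right ?_ h1
    exact ((Nat.Prime.coprime_iff_not_dvd Nat.prime_three).2 hp).symm
  · show 3 ^ (j + 1) ≤ 3 * q
    have : 3 ^ j ≤ q := h2
    rw [pow_succ]
    omega
  · show 3 * q < 3 ^ (j + 1 + 1)
    have : q < 3 ^ (j + 1) := h3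
    rw [pow_succ 3 (j + 1)]
    omega
  · show ((p : ℝ) / ((3 * q : ℕ) : ℝ)) ∈ cantorSet
    have h5 := third_mem h4
    have h6 : (p : ℝ) / ((3 * q : ℕ) : ℝ) = (p : ℝ) / q / 3 := by
      push_cast
      rw [div_div, mul_comm]
    rw [h6]
    exact h5

theorem mem_T_two {j : ℕ} {p q : ℕ} (h : (p, q) ∈ S j) (hp : ¬ 3 ∣ p + 2 * q) :
    (p + 2 * q, 3 * q) ∈ T (j + 1) := by
  have hq := S_pos h
  obtain ⟨h1, h2, h3, h4⟩ := h
  refine ⟨⟨?_, ?_, ?_, ?_⟩, dvd_mul_right 3 q⟩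
  · show Nat.Coprime (p + 2 * q) (3 * q)
    refine Nat.Coprime.mul_right ?_ ?_
    · exact ((Nat.Prime.coprime_iff_not_dvd Nat.prime_three).2 hp).symm
    · rw [Nat.coprime_add_mul_right_left]
      exact h1
  · show 3 ^ (j + 1) ≤ 3 * q
    have : 3 ^ j ≤ q := h2
    rw [pow_succ]
    omega
  · show 3 * q < 3 ^ (j + 1 + 1)
    have : q < 3 ^ (j + 1) := h3
    rw [pow_succ 3 (j + 1)]
    omega
  · show (((p + 2 * q : ℕ) : ℝ) / ((3 * q : ℕ) : ℝ)) ∈ cantorSet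
    have h5 := third_mem' h4
    have hq' : (q : ℝ) ≠ 0 := by
      have : 0 < q := hq
      exact_mod_cast this.ne'
    have h6 : ((p + 2 * q : ℕ) : ℝ) / ((3 * q : ℕ) : ℝ) = (2 + (p : ℝ) / q) / 3 := by
      push_cast
      field_simp
      ring
    rw [h6]
    exact h5

/-- the chosen lift. -/
def g (pq : ℕ × ℕ) : ℕ × ℕ := if 3 ∣ pq.1 then (pq.1 + 2 * pq.2, 3 * pq.2) else (pq.1, 3 * pq.2)

theorem card_S_le (j : ℕ) : (S j).ncard ≤ (T (j + 1)).ncard := by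
  refine ncard_le_ncard_of_injOn g ?_ ?_ (T_finite _)
  · rintro ⟨p, q⟩ h
    by_cases hp : 3 ∣ p
    · have h1 : g (p, q) = (p + 2 * q, 3 * q) := by simp [g, hp]
      rw [h1]
      refine mem_T_two h fun h2 => ?_
      have h3 : 3 ∣ 2 * q := (Nat.dvd_add_right hp).1 h2
      have h4 : 3 ∣ q := by
        rcases (Nat.Prime.dvd_mul Nat.prime_three).1 h3 with h | h
        · norm_num at h
        · exact h
      have h5 := Nat.dvd_gcd hp h4
      rw [h.1] at h5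
      norm_num at h5
    · have h1 : g (p, q) = (p, 3 * q) := by simp [g, hp]
      rw [h1]
      exact mem_T_zero h hp
  · rintro ⟨p, q⟩ h ⟨p', q'⟩ h' he
    have h1 := S_le h
    have h2 := S_le h'
    have h3 := S_pos h
    have h4 := S_pos h'
    simp only at h1 h2 h3 h4
    simp only [g] at he
    split_ifs at he with a b
    all_goals
      rw [Prod.mk.injEq] at he
      obtain ⟨e1, e2⟩ := he
      have e3 : q = q' := by omega
      subst e3
    · rw [Prod.mk.injEq]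
      omega
    · omega
    · omega
    · rw [Prod.mk.injEq]
      omega

theorem card_T_le (j : ℕ) : 2 * (T j).ncard ≤ (T (j + 1)).ncard := by
  set A := (fun pq : ℕ × ℕ => (pq.1, 3 * pq.2)) '' T j with hA
  set B := (fun pq : ℕ × ℕ => (pq.1 + 2 * pq.2, 3 * pq.2)) '' T j with hB
  have h1 : A.ncard = (T j).ncard := by
    refine ncard_image_of_injOn ?_
    rintro ⟨p, q⟩ - ⟨p', q'⟩ - he
    simp only [Prod.mk.injEq] at he ⊢
    omega
  have h2 : B.ncard = (T j).ncard := by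
    refine ncard_image_of_injOn ?_
    rintro ⟨p, q⟩ - ⟨p', q'⟩ - he
    simp only [Prod.mk.injEq] at he ⊢
    omega
  have hco : ∀ p q : ℕ, (p, q) ∈ T j → ¬ 3 ∣ p := by
    intro p q h hp
    have h5 := Nat.dvd_gcd hp h.2
    have h6 : Nat.gcd p q = 1 := h.1.1
    simp only at h5
    rw [h6] at h5
    norm_num at h5
  have h3 : Disjoint A B := by
    rw [Set.disjoint_left]
    rintro _ ⟨⟨p, q⟩, h, rfl⟩ ⟨⟨p', q'⟩, h', he⟩
    have h1 := S_le h.1
    have h3 := S_pos h.1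
    simp only [Prod.mk.injEq] at he h1 h3
    omega
  have h4 : A ∪ B ⊆ T (j + 1) := by
    rintro x (⟨⟨p, q⟩, h, rfl⟩ | ⟨⟨p, q⟩, h, rfl⟩)
    · exact mem_T_zero h.1 (hco p q h)
    · refine mem_T_two h.1 fun h5 => hco p q h ?_
      have h6 : 3 ∣ 2 * q := Dvd.dvd.mul_left h.2 2
      exact (Nat.dvd_add_left h6).1 h5
  have h5 := ncard_le_ncard h4 (T_finite _)
  rw [ncard_union_eq h3 ((T_finite j).image _) ((T_finite j).image _), h1, h2] at h5
  omega

theorem card_mono (j s : ℕ) : 2 ^ s * (S j).ncard ≤ (S (j + s + 1)).ncard := by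
  have h1 : 2 ^ s * (S j).ncard ≤ (T (j + s + 1)).ncard := by
    induction s with
    | zero =>
      rw [pow_zero, one_mul]
      exact card_S_le j
    | succ s ih =>
      calc 2 ^ (s + 1) * (S j).ncard = 2 * (2 ^ s * (S j).ncard) := by ring
        _ ≤ 2 * (T (j + s + 1)).ncard := Nat.mul_le_mul_left 2 ih
        _ ≤ (T (j + s + 1 + 1)).ncard := card_T_le _
        _ = (T (j + (s + 1) + 1)).ncard := by ring_nf
  exact h1.trans (ncard_le_ncard (fun _ h => h.1) (S_finite _))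

end Pool.Agent.Work.MP_aac176_nt.Low
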